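import Mathlib

/-!
General Riemannian metrics on `M = ℝ × S²`, their distances, Ricci curvature in coordinates, Ricci flow,
`O(3)`-invariance. `M` is the submanifold `‖ω‖ = 1` of `ℝ × E3`.
-/

namespace RFO

/-- Euclidean 3-space; its unit sphere is `S²`. -/
abbrev E3 := EuclideanSpace ℝ (Fin 3)

end RFO
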