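import Pool.Agent.Lib.MP_63b676_gt.Smo

/-!
# Leaf Core: uniform lower bound on the cores

On a compact label interval `[γ, δ]` where `f (ξ p) = 1` there is `t₀` with `u t p ≥ 9/10` for all
`0 < t ≤ t₀`, `p ∈ [γ, δ]`. Proof: for every `p` there is `t_p ∈ (0,T)` with `u t_p p > 9/10` (`ulim`, eventually in
`𝓝[>] 0`, together with `Ioo_mem_nhdsGT`), and by continuity of `u t_p` (`Smo_slice`) the same on a neighbourhood; `u` is
nonincreasing in `t` (`Smo_anti`), so it stays for `t ≤ t_p`; finitely many neighbourhoods cover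
(`IsCompact.induction_on` with the property `P S = ∃ t₀ ∈ Ioo 0 T, ∀ t ∈ Ioc 0 t₀, ∀ p ∈ S, 9/10 ≤ u t p`; for the empty set
`t₀ = T/2`).
-/

namespace RFO

open Set Filter Topology
open scoped ContDiff

theorem core_unif {T lam : ℝ} (hT : 0 < T) {u v : ℝ → ℝ → ℝ} (h : Sol T lam u v) {f ξ : ℝ → ℝ}
    (hi : InitData T f ξ u v) {γ δ : ℝ} (h1 : ∀ p ∈ Icc γ δ, f (ξ p) = 1) :
    ∃ t₀ ∈ Ioo 0 T, ∀ t ∈ Ioc 0 t₀, ∀ p ∈ Icc γ δ, 9 / 10 ≤ u t p := by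
  refine IsCompact.induction_on (p := fun S : Set ℝ => ∃ t₀ ∈ Ioo 0 T, ∀ t ∈ Ioc 0 t₀, ∀ p ∈ S, 9 / 10 ≤ u t p)
    (isCompact_Icc (a := γ) (b := δ)) ?_ ?_ ?_ ?_
  · exact ⟨T / 2, ⟨by linarith, by linarith⟩, fun t _ p hp => absurd hp (Set.notMem_empty p)⟩
  · rintro s t hst ⟨t₀, h0, h⟩
    exact ⟨t₀, h0, fun τ hτ p hp => h τ hτ p (hst hp)⟩
  · rintro s t ⟨t₀, h0, h⟩ ⟨t₁, h1, h'⟩
    refine ⟨min t₀ t₁, ⟨lt_min h0.1 h1.1, (min_le_left _ _).trans_lt h0.2⟩, fun τ hτ p hp => ?_⟩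
    rcases hp with hp | hp
    · exact h τ ⟨hτ.1, hτ.2.trans (min_le_left _ _)⟩ p hp
    · exact h' τ ⟨hτ.1, hτ.2.trans (min_le_right _ _)⟩ p hp
  · intro p hp
    have hl := hi.ulim p
    rw [h1 p hp] at hl
    have h2 : ∀ᶠ t in 𝓝[>] (0 : ℝ), 9 / 10 < u t p :=
      hl.eventually (lt_mem_nhds (by norm_num))
    obtain ⟨t, ht1, ht2⟩ := (h2.and (Ioo_mem_nhdsGT hT)).exists
    have hc : Continuous (u t) := (Smo_slice h.smu ht2).continuous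
    refine ⟨{q | 9 / 10 < u t q}, mem_nhdsWithin_of_mem_nhds ?_, t, ht2, ?_⟩
    · exact (isOpen_lt continuous_const hc).mem_nhds ht1
    · intro τ hτ q hq
      have ha := Smo_anti h.smu q (fun t ht => h.decu t ht q)
      have h3 := ha ⟨hτ.1, hτ.2.trans_lt ht2.2⟩ ht2 hτ.2
      exact (le_of_lt hq).trans h3

end RFO
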