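import Pool.Agent.Lib.MP_63b676_gt.JJ2
import Pool.Agent.Lib.MP_63b676_gt.Core

/-!
# Leaf Bulg: the bulges persist

`L = ξ β - ξ α`; the core `[c, d] ⊂ [ξ α, ξ β]` has labels `γ < δ` in `[α, β]`, `ξ γ = c`, `ξ δ = d` (`hsurj`, `hmono`), and
`f (ξ p) = 1` for `p ∈ [γ, δ]`. `u t α ≤ f (ξ α) ≤ 1/100`, `u t β ≤ 1/100` (`ule`), `u ≤ f ∘ ξ ≤ 1`.
Suppose `u t₁ p < 1/10` for all `p ∈ [α, β]`. Then `J t₁ ≤ (36/5) ∫ v t₁ ≤ (36/5) L` (`G_small`, `posu`, `posv`,
`lenle`). For small `t` (`core_unif`): `J t ≥ 87 ∫ in γ..δ, v t - 12 (∫ in α..β, v t - ∫ in γ..δ, v t)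
≥ 99 ∫ in γ..δ, v t - 12 L` (`G_large` on the core, `G_lower` elsewhere; split the integral at `γ`, `δ`; `G` is continuous,
`u t`, `v t` are continuous by `Smo_slice`). By `J_mono`, `J t₁ ≥ J t - (10^6 + 400 lam) L (t₁ - t) ≥ J t - 5 L`.
Let `t → 0` (`lenlim`: `∫ in γ..δ, v t → |d - c| ≥ L/4`; `ge_of_tendsto`): `J t₁ ≥ 99 L/4 - 12 L - 5 L = 7.75 L > 7.2 L`,
contradiction (`L > 0`).
-/

namespace RFO

open Set Filter Topology
open scoped ContDiff

theorem bulge {T lam : ℝ} {u v : ℝ → ℝ → ℝ} (h : Sol T lam u v) (hlam : 0 ≤ lam) {f ξ : ℝ → ℝ}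
    (hi : InitData T f ξ u v) (hf1 : ∀ x, f x ≤ 1) (hmono : StrictMono ξ)
    {t₁ : ℝ} (ht₁ : t₁ ∈ Ioo 0 T) (hsmall : (10 ^ 6 + 400 * lam) * t₁ ≤ 5)
    {α β : ℝ} (hαβ : α < β) (hsurj : ∀ z ∈ Icc (ξ α) (ξ β), ∃ p ∈ Icc α β, ξ p = z)
    (hb : Bulge f (1 / 100) (ξ α) (ξ β)) :
    ∃ p ∈ Icc α β, 1 / 10 ≤ u t₁ p := by
  by_contra hcon
  push Not at hcon
  obtain ⟨hna, hnb, c, d, hxc, hcd, hdy, hfc, hlong⟩ := hb
  have hT : 0 < T := ht₁.1.trans ht₁.2
  have hLpos : 0 < ξ β - ξ α := sub_pos.2 (hmono hαβ)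
  obtain ⟨γ, hγ, hγc⟩ := hsurj c ⟨hxc, hcd.le.trans hdy⟩
  obtain ⟨δ, hδ, hδd⟩ := hsurj d ⟨hxc.trans hcd.le, hdy⟩
  have hγδ : γ < δ := by
    rw [← hmono.lt_iff_lt, hγc, hδd]
    exact hcd
  have hone : ∀ p ∈ Icc γ δ, f (ξ p) = 1 := by
    intro p hp
    refine hfc _ ⟨?_, ?_⟩
    · rw [← hγc]
      exact hmono.le_iff_le.2 hp.1
    · rw [← hδd]
      exact hmono.le_iff_le.2 hp.2
  obtain ⟨t₀, ht₀, hcore⟩ := core_unif hT h hi hone
  have hle : ∀ t ∈ Ioo 0 T, ∀ p, u t p ≤ 1 := fun t ht p => (hi.ule t ht p).trans (hf1 _)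
  have hα : ∀ t ∈ Ioo 0 T, u t α ≤ 1 / 100 := fun t ht => (hi.ule t ht α).trans hna
  have hβ : ∀ t ∈ Ioo 0 T, u t β ≤ 1 / 100 := fun t ht => (hi.ule t ht β).trans hnb
  have hL : ∀ t ∈ Ioo 0 T, ∫ x in α..β, v t x ≤ ξ β - ξ α := by
    intro t ht
    have h1 := hi.lenle t ht α β hαβ.le
    rwa [abs_of_pos hLpos] at h1
  have cG : Continuous G := continuous_iff_continuousAt.2 fun y => (G_deriv y).continuousAt
  have cv : ∀ t ∈ Ioo 0 T, Continuous (v t) := fun t ht => (Smo_slice h.smv ht).continuous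
  have cu : ∀ t ∈ Ioo 0 T, Continuous (u t) := fun t ht => (Smo_slice h.smu ht).continuous
  have cI : ∀ t ∈ Ioo 0 T, Continuous (fun x => G (100 * u t x) * v t x) := fun t ht =>
    (cG.comp (continuous_const.mul (cu t ht))).mul (cv t ht)
  -- comparison of integrals
  have low : ∀ t ∈ Ioo 0 T, ∀ a b k : ℝ, a ≤ b → (∀ x ∈ Icc a b, k ≤ G (100 * u t x)) →
      k * ∫ x in a..b, v t x ≤ ∫ x in a..b, G (100 * u t x) * v t x := by
    intro t ht a b k hab hk
    rw [← intervalIntegral.integral_const_mul]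
    refine intervalIntegral.integral_mono_on hab ((continuous_const.mul (cv t ht)).intervalIntegrable _ _)
      ((cI t ht).intervalIntegrable _ _) fun x hx => ?_
    exact mul_le_mul_of_nonneg_right (hk x hx) (h.posv t ht x).le
  -- the upper bound at the time t₁
  have hup : ∫ x in α..β, G (100 * u t₁ x) * v t₁ x ≤ 36 / 5 * (ξ β - ξ α) := by
    have h1 : ∫ x in α..β, G (100 * u t₁ x) * v t₁ x ≤ ∫ x in α..β, 36 / 5 * v t₁ x := by
      refine intervalIntegral.integral_mono_on hαβ.le ((cI t₁ ht₁).intervalIntegrable _ _)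
        ((continuous_const.mul (cv t₁ ht₁)).intervalIntegrable _ _) fun x hx => ?_
      refine mul_le_mul_of_nonneg_right (G_small ?_ ?_) (h.posv t₁ ht₁ x).le
      · have := h.posu t₁ ht₁ x
        positivity
      · have := hcon x hx
        linarith
    rw [intervalIntegral.integral_const_mul] at h1
    have h2 := hL t₁ ht₁
    linarith
  -- the lower bound at small times
  have hsm : ∀ t ∈ Ioc 0 (min t₀ t₁), ∫ x in γ..δ, v t x ≤ (121 / 495) * (ξ β - ξ α) := by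
    intro t ht
    have ht0 : t ≤ t₀ := ht.2.trans (min_le_left _ _)
    have ht1 : t ≤ t₁ := ht.2.trans (min_le_right _ _)
    have htT : t ∈ Ioo 0 T := ⟨ht.1, ht1.trans_lt ht₁.2⟩
    have hpos : ∀ x, 0 < 100 * u t x := fun x => by
      have := h.posu t htT x
      positivity
    have b1 := low t htT α γ (-12) hγ.1 fun x _ => G_lower (hpos x)
    have b3 := low t htT δ β (-12) hδ.2 fun x _ => G_lower (hpos x)
    have b2 := low t htT γ δ 87 hγδ.le fun x hx => G_large (by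
      have := hcore t ⟨ht.1, ht0⟩ x hx
      linarith)
    have ii : ∀ a b : ℝ, IntervalIntegrable (fun x => G (100 * u t x) * v t x) MeasureTheory.volume a b :=
      fun a b => (cI t htT).intervalIntegrable _ _
    have iv : ∀ a b : ℝ, IntervalIntegrable (v t) MeasureTheory.volume a b :=
      fun a b => (cv t htT).intervalIntegrable _ _
    have e1 := intervalIntegral.integral_add_adjacent_intervals (ii α γ) (ii γ δ)
    have e2 := intervalIntegral.integral_add_adjacent_intervals (ii α δ) (ii δ β)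
    have e3 := intervalIntegral.integral_add_adjacent_intervals (iv α γ) (iv γ δ)
    have e4 := intervalIntegral.integral_add_adjacent_intervals (iv α δ) (iv δ β)
    have h5 := J_mono h hlam hle hαβ.le hα hβ hL ht.1 ht1 ht₁.2
    have h6 := hL t htT
    have h7 : (10 ^ 6 + 400 * lam) * (ξ β - ξ α) * (t₁ - t) ≤ 5 * (ξ β - ξ α) := by
      have h8 : (10 ^ 6 + 400 * lam) * (t₁ - t) ≤ 5 := by
        have h9 : 0 ≤ (10 ^ 6 + 400 * lam) * t := by
          have := ht.1.le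
          positivity
        linarith
      calc (10 ^ 6 + 400 * lam) * (ξ β - ξ α) * (t₁ - t)
          = (10 ^ 6 + 400 * lam) * (t₁ - t) * (ξ β - ξ α) := by ring
        _ ≤ 5 * (ξ β - ξ α) := mul_le_mul_of_nonneg_right h8 hLpos.le
    linarith
  have hev : ∀ᶠ t in 𝓝[>] (0 : ℝ), ∫ x in γ..δ, v t x ≤ (121 / 495) * (ξ β - ξ α) := by
    have hm : 0 < min t₀ t₁ := lt_min ht₀.1 ht₁.1
    filter_upwards [Ioc_mem_nhdsGT hm] with t ht
    exact hsm t ht
  have hlim := le_of_tendsto (hi.lenlim γ δ hγδ.le) hev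
  rw [hγc, hδd, abs_of_pos (sub_pos.2 hcd)] at hlim
  linarith

end RFO
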