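import Pool.Agent.Lib.MP_63b676_gt.Geo1

/-!
# Leaf CoA: short curves of `ℝ × S²`

(a) `exists_curve`: any two points of `ℝ × S²` are joined by a `C¹` curve (`IsCurve`). For unit vectors `w, w'` of `E3` there
are `θ ∈ [0, π]` and a unit vector `e ⟂ w` with `w' = cos θ w + sin θ e`: `w' - ⟪w, w'⟫ w = r e` with `r ≥ 0`
(if it is zero then `w' = ± w`, `r = 0`, and any unit `e ⟂ w` works; it exists since the dimension is `3`: for instance one of
two coordinate constructions, or `(ℝ ∙ w)ᗮ` is not trivial), `⟪w, w'⟫² + r² = 1`, `θ = arccos ⟪w, w'⟫`, `sin θ = r`.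
Curve: `p τ = x.1 + τ (y.1 - x.1)`, great circle `cos (τ θ) w + sin (τ θ) e`, which stays on the sphere, speed `θ`.
(b) `rdist_near`: the length of this curve for `φ = 1`, `ψ = f ≤ 1` is `≤ |x.1-y.1| + θ` (`√(A²+B²) ≤ |A| + |B|`,
`‖deriv w‖ = θ`) and `θ ≤ 2 ‖w - w'‖` since `‖w - w'‖ = 2 sin (θ/2)` (`2 - 2 cos θ = 4 sin²`) and
`sin (θ/2) ≥ (2/π)(θ/2)` (`Real.mul_le_sin`), `π ≤ 4`. Use `rdist_le_len`.
-/

namespace RFO

open Set Filter Topology
open scoped ContDiff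

private theorem CoA_perp (w : E3) (hw : ‖w‖ = 1) : ∃ e : E3, ‖e‖ = 1 ∧ inner ℝ w e = 0 := by
  have hw0 : w ≠ 0 := by
    intro h
    rw [h, norm_zero] at hw
    exact zero_ne_one hw
  have _ : Fact (Module.finrank ℝ E3 = 2 + 1) := ⟨by rw [finrank_euclideanSpace_fin]⟩
  have h1 : Module.finrank ℝ ((Submodule.span ℝ {w})ᗮ : Submodule ℝ E3) = 2 :=
    Submodule.finrank_orthogonal_span_singleton hw0
  have h2 : ((Submodule.span ℝ {w})ᗮ : Submodule ℝ E3) ≠ ⊥ := by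
    intro h
    rw [h, finrank_bot] at h1
    omega
  obtain ⟨v, hv, hv0⟩ := Submodule.exists_mem_ne_zero_of_ne_bot h2
  have h3 : inner ℝ w v = 0 := Submodule.mem_orthogonal_singleton_iff_inner_right.1 hv
  refine ⟨‖v‖⁻¹ • v, ?_, ?_⟩
  · rw [norm_smul, norm_inv, norm_norm, inv_mul_cancel₀ (norm_ne_zero_iff.2 hv0)]
  · rw [real_inner_smul_right, h3, mul_zero]

private theorem CoA_norm {w e : E3} (hw : ‖w‖ = 1) (he : ‖e‖ = 1) (hwe : inner ℝ w e = 0)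
    (a b : ℝ) : ‖a • w + b • e‖ ^ 2 = a ^ 2 + b ^ 2 := by
  rw [norm_add_sq_real, real_inner_smul_left, real_inner_smul_right, hwe, norm_smul, norm_smul, hw,
    he, mul_pow, mul_pow, Real.norm_eq_abs, Real.norm_eq_abs, sq_abs, sq_abs]
  ring

private theorem CoA_pol {w w' : E3} (hw : ‖w‖ = 1) (hw' : ‖w'‖ = 1) :
    ∃ (θ : ℝ) (e : E3), 0 ≤ θ ∧ θ ≤ Real.pi ∧ ‖e‖ = 1 ∧ inner ℝ w e = 0 ∧
      w' = Real.cos θ • w + Real.sin θ • e := by
  obtain ⟨c, hc⟩ : ∃ c : ℝ, c = inner ℝ w w' := ⟨_, rfl⟩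
  have hc1 : |c| ≤ 1 := by
    rw [hc]
    refine (abs_real_inner_le_norm w w').trans ?_
    rw [hw, hw', one_mul]
  rw [abs_le] at hc1
  obtain ⟨v, hv⟩ : ∃ v : E3, v = w' - c • w := ⟨_, rfl⟩
  have hv2 : ‖v‖ ^ 2 = 1 - c ^ 2 := by
    rw [hv, norm_sub_sq_real, real_inner_smul_right, real_inner_comm, ← hc, norm_smul, hw, hw',
      mul_one, Real.norm_eq_abs, sq_abs]
    ring
  have hwv : inner ℝ w v = 0 := by
    rw [hv, inner_sub_right, real_inner_smul_right, real_inner_self_eq_norm_sq, hw, ← hc]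
    ring
  have hsin : Real.sin (Real.arccos c) = ‖v‖ := by
    rw [Real.sin_arccos, ← hv2, Real.sqrt_sq (norm_nonneg v)]
  have hcos : Real.cos (Real.arccos c) = c := Real.cos_arccos hc1.1 hc1.2
  by_cases hv0 : v = 0
  · obtain ⟨e, he, hwe⟩ := CoA_perp w hw
    refine ⟨Real.arccos c, e, Real.arccos_nonneg c, Real.arccos_le_pi c, he, hwe, ?_⟩
    rw [hsin, hcos, hv0, norm_zero, zero_smul, add_zero]
    rw [hv] at hv0
    exact sub_eq_zero.1 hv0
  · refine ⟨Real.arccos c, ‖v‖⁻¹ • v, Real.arccos_nonneg c, Real.arccos_le_pi c, ?_, ?_, ?_⟩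
    · rw [norm_smul, norm_inv, norm_norm, inv_mul_cancel₀ (norm_ne_zero_iff.2 hv0)]
    · rw [real_inner_smul_right, hwv, mul_zero]
    · rw [hsin, hcos, smul_smul, mul_inv_cancel₀ (norm_ne_zero_iff.2 hv0), one_smul, hv]
      abel

private theorem CoA_curve (x y : ℝ × E3) (hx : ‖x.2‖ = 1) (hy : ‖y.2‖ = 1) :
    ∃ (p : ℝ → ℝ) (w : ℝ → E3) (θ : ℝ), IsCurve p w x y ∧ 0 ≤ θ ∧ θ ≤ 2 * ‖x.2 - y.2‖ ∧
      (∀ τ, deriv p τ = y.1 - x.1) ∧ (∀ τ, ‖deriv w τ‖ = θ) := by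
  obtain ⟨θ, e, hθ0, hθπ, he, hwe, hpol⟩ := CoA_pol hx hy
  refine ⟨fun τ => x.1 + τ * (y.1 - x.1),
    fun τ => Real.cos (τ * θ) • x.2 + Real.sin (τ * θ) • e, θ, ⟨?_, ?_, ?_, ?_, ?_⟩, hθ0, ?_, ?_, ?_⟩
  · fun_prop
  · fun_prop
  · intro τ _
    have h1 := CoA_norm hx he hwe (Real.cos (τ * θ)) (Real.sin (τ * θ))
    rw [Real.cos_sq_add_sin_sq] at h1
    exact (pow_eq_one_iff_of_nonneg (norm_nonneg _) two_ne_zero).1 h1
  · refine Prod.ext ?_ ?_
    · show x.1 + 0 * (y.1 - x.1) = x.1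
      ring
    · show Real.cos (0 * θ) • x.2 + Real.sin (0 * θ) • e = x.2
      rw [zero_mul, Real.cos_zero, Real.sin_zero, one_smul, zero_smul, add_zero]
  · refine Prod.ext ?_ ?_
    · show x.1 + 1 * (y.1 - x.1) = y.1
      ring
    · show Real.cos (1 * θ) • x.2 + Real.sin (1 * θ) • e = y.2
      rw [one_mul, ← hpol]
  · have h1 : ‖x.2 - y.2‖ ^ 2 = (2 * Real.sin (θ / 2)) ^ 2 := by
      have h2 : x.2 - y.2 = (1 - Real.cos θ) • x.2 + (-Real.sin θ) • e := by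
        rw [hpol, sub_smul, one_smul, neg_smul]
        abel
      rw [h2, CoA_norm hx he hwe]
      have h3 : Real.cos θ = 1 - 2 * Real.sin (θ / 2) ^ 2 := by
        have h4 := Real.cos_sq_add_sin_sq (θ / 2)
        have h5 := Real.cos_two_mul (θ / 2)
        rw [mul_div_cancel₀ θ (two_ne_zero' ℝ)] at h5
        linarith
      have h6 := Real.cos_sq_add_sin_sq θ
      rw [neg_sq]
      nlinarith [h3, h6]
    have hs : 0 ≤ Real.sin (θ / 2) := Real.sin_nonneg_of_nonneg_of_le_pi (by linarith)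
      (by linarith [Real.pi_pos])
    have h2 : ‖x.2 - y.2‖ = 2 * Real.sin (θ / 2) :=
      (pow_left_inj₀ (norm_nonneg _) (by positivity) two_ne_zero).1 h1
    have h3 : 2 / Real.pi * (θ / 2) ≤ Real.sin (θ / 2) :=
      Real.mul_le_sin (by linarith) (by linarith)
    have h4 : 1 / 4 ≤ 1 / Real.pi := one_div_le_one_div_of_le Real.pi_pos Real.pi_le_four
    have h5 : 1 / 4 * θ ≤ Real.sin (θ / 2) := by
      calc 1 / 4 * θ ≤ 1 / Real.pi * θ := mul_le_mul_of_nonneg_right h4 hθ0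
        _ = 2 / Real.pi * (θ / 2) := by ring
        _ ≤ _ := h3
    rw [h2]
    linarith
  · intro τ
    have h1 : HasDerivAt (fun τ : ℝ => x.1 + τ * (y.1 - x.1)) (1 * (y.1 - x.1)) τ :=
      ((hasDerivAt_id τ).mul_const _).const_add _
    rw [h1.deriv, one_mul]
  · intro τ
    have h0 : HasDerivAt (fun τ : ℝ => τ * θ) (1 * θ) τ := (hasDerivAt_id τ).mul_const θ
    have h1 : HasDerivAt (fun τ : ℝ => Real.cos (τ * θ) • x.2 + Real.sin (τ * θ) • e)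
        ((-Real.sin (τ * θ) * (1 * θ)) • x.2 + (Real.cos (τ * θ) * (1 * θ)) • e) τ :=
      (h0.cos.smul_const x.2).add (h0.sin.smul_const e)
    rw [h1.deriv]
    have h2 := CoA_norm hx he hwe (-Real.sin (τ * θ) * (1 * θ)) (Real.cos (τ * θ) * (1 * θ))
    have h3 : (-Real.sin (τ * θ) * (1 * θ)) ^ 2 + (Real.cos (τ * θ) * (1 * θ)) ^ 2 = θ ^ 2 := by
      have h4 := Real.cos_sq_add_sin_sq (τ * θ)
      linear_combination θ ^ 2 * h4
    rw [h3] at h2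
    exact (pow_left_inj₀ (norm_nonneg _) hθ0 two_ne_zero).1 h2

theorem exists_curve (x y : ℝ × E3) (hx : ‖x.2‖ = 1) (hy : ‖y.2‖ = 1) : ∃ p w, IsCurve p w x y := by
  obtain ⟨p, w, θ, h, -⟩ := CoA_curve x y hx hy
  exact ⟨p, w, h⟩

theorem rdist_near {f : ℝ → ℝ} (hf : Continuous f) (hf0 : ∀ x, 0 < f x) (hf1 : ∀ x, f x ≤ 1)
    (x y : ℝ × E3) (hx : ‖x.2‖ = 1) (hy : ‖y.2‖ = 1) :
    rdist (fun _ => 1) f x y ≤ |x.1 - y.1| + 2 * ‖x.2 - y.2‖ := by
  obtain ⟨p, w, θ, h, hθ0, hθ, hp, hw⟩ := CoA_curve x y hx hy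
  refine (rdist_le_len _ _ h).trans ?_
  have hint : ∀ τ : ℝ, Real.sqrt (((fun _ : ℝ => (1 : ℝ)) (p τ) * deriv p τ) ^ 2 +
      (f (p τ) * ‖deriv w τ‖) ^ 2) = Real.sqrt ((y.1 - x.1) ^ 2 + (f (p τ) * θ) ^ 2) := by
    intro τ
    rw [hp, hw]
    show Real.sqrt ((1 * (y.1 - x.1)) ^ 2 + (f (p τ) * θ) ^ 2) = _
    rw [one_mul]
  have hcont : Continuous fun τ : ℝ => Real.sqrt ((y.1 - x.1) ^ 2 + (f (p τ) * θ) ^ 2) := by
    have h1 : Continuous p := h.hp.continuous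
    have h2 : Continuous fun τ : ℝ => f (p τ) := hf.comp h1
    fun_prop
  have hle : len (fun _ => 1) f p w ≤ |x.1 - y.1| + θ := by
    unfold len
    simp only [hint]
    calc ∫ τ in (0:ℝ)..1, Real.sqrt ((y.1 - x.1) ^ 2 + (f (p τ) * θ) ^ 2)
        ≤ ∫ _ in (0:ℝ)..1, (|x.1 - y.1| + θ) := by
          refine intervalIntegral.integral_mono_on zero_le_one (hcont.intervalIntegrable 0 1)
            intervalIntegrable_const fun τ _ => ?_
          refine Real.sqrt_le_iff.2 ⟨by positivity, ?_⟩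
          have h1 : (f (p τ) * θ) ^ 2 ≤ θ ^ 2 := by
            have h2 : f (p τ) * θ ≤ θ := mul_le_of_le_one_left hθ0 (hf1 _)
            have h3 : 0 ≤ f (p τ) * θ := mul_nonneg (hf0 _).le hθ0
            exact pow_le_pow_left₀ h3 h2 2
          have h2 : (y.1 - x.1) ^ 2 = |x.1 - y.1| ^ 2 := by
            rw [sq_abs]
            ring
          have h3 : 0 ≤ |x.1 - y.1| * θ := mul_nonneg (abs_nonneg _) hθ0
          rw [h2]
          nlinarith
      _ = |x.1 - y.1| + θ := by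
          rw [intervalIntegral.integral_const, sub_zero, one_smul]
  linarith

end RFO
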