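import Pool.Agent.Lib.MP_63b676_gt.Geo1

/-!
# Leaf Geo2: distances of rotationally symmetric metrics, part 2 (Mathlib only, uses Geo1)

* `rdist_ge`: by `le_csInf` it is enough to bound the length of every curve `(p̂, w)` from `x` to `y`. If
  `p̂ τ ∈ [x.1-δ, x.1+δ]` for all `τ ∈ [0,1]`, the integrand is `≥ m ‖deriv w τ‖`, and
  `∫ ‖deriv w‖ ≥ ‖∫ deriv w‖ = ‖y.2 - x.2‖` (`intervalIntegral.norm_integral_le_integral_norm`,
  `intervalIntegral.integral_deriv_eq_sub'`). Otherwise some `τ₀ ∈ [0,1]` has `p̂ τ₀` outside; `len_ge` on `0..τ₀` gives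
  `len ≥ |∫ in x.1..(p̂ τ₀), φ| ≥ c` (`φ > 0`, split the integral at `x.1 ± δ`).
* `rdist_arc_ge`: special case `x = (p, arc 0)`, `y = (p, arc θ)`, nonempty by `arc_isCurve`.
-/

namespace RFO

open Set Filter Topology
open scoped ContDiff

/-- the curve stays in a strip -/
private theorem Geo2_in (φ ψ : ℝ → ℝ) (hφ : Continuous φ) (hψ : Continuous ψ) {p : ℝ → ℝ} {w : ℝ → E3}
    (hp : ContDiff ℝ 1 p) (hw : ContDiff ℝ 1 w) (m : ℝ) (hm : 0 ≤ m)
    (h : ∀ τ ∈ Icc (0 : ℝ) 1, m ≤ ψ (p τ)) : m * ‖w 1 - w 0‖ ≤ len φ ψ p w := by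
  have hp' : Continuous (deriv p) := hp.continuous_deriv le_rfl
  have hw' : Continuous (deriv w) := hw.continuous_deriv le_rfl
  have h1 : ∫ τ in (0 : ℝ)..1, deriv w τ = w 1 - w 0 :=
    intervalIntegral.integral_deriv_eq_sub (fun x _ => (hw.differentiable one_ne_zero) x)
      (hw'.intervalIntegrable _ _)
  have h2 : ‖w 1 - w 0‖ ≤ ∫ τ in (0 : ℝ)..1, ‖deriv w τ‖ := by
    rw [← h1]
    exact intervalIntegral.norm_integral_le_integral_norm zero_le_one
  have h3 : ∫ τ in (0 : ℝ)..1, m * ‖deriv w τ‖ ≤ len φ ψ p w := by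
    unfold len
    refine intervalIntegral.integral_mono_on zero_le_one ?_ ?_ ?_
    · exact (continuous_const.mul hw'.norm).intervalIntegrable _ _
    · refine Continuous.intervalIntegrable ?_ _ _
      exact Real.continuous_sqrt.comp ((((hφ.comp hp.continuous).mul hp').pow 2).add
        (((hψ.comp hp.continuous).mul hw'.norm).pow 2))
    · intro τ hτ
      have h4 : m * ‖deriv w τ‖ ≤ ψ (p τ) * ‖deriv w τ‖ :=
        mul_le_mul_of_nonneg_right (h τ hτ) (norm_nonneg _)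
      refine h4.trans (Real.le_sqrt_of_sq_le ?_)
      have := sq_nonneg (φ (p τ) * deriv p τ)
      linarith
  rw [intervalIntegral.integral_const_mul] at h3
  exact (mul_le_mul_of_nonneg_left h2 hm).trans h3

theorem rdist_ge (φ ψ : ℝ → ℝ) (hφ : Continuous φ) (hψ : Continuous ψ) (h0 : ∀ p, 0 < φ p)
    (x y : ℝ × E3) (hne : ∃ p w, IsCurve p w x y) (δ m c : ℝ) (hδ : 0 < δ) (hm : 0 ≤ m)
    (hmin : ∀ q ∈ Icc (x.1 - δ) (x.1 + δ), m ≤ ψ q)
    (hc1 : c ≤ ∫ z in (x.1 - δ)..x.1, φ z) (hc2 : c ≤ ∫ z in x.1..(x.1 + δ), φ z) :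
    min (m * ‖y.2 - x.2‖) c ≤ rdist φ ψ x y := by
  unfold rdist
  refine le_csInf ?_ ?_
  · obtain ⟨p, w, hpw⟩ := hne
    exact ⟨_, p, w, hpw, rfl⟩
  · rintro l ⟨p, w, hpw, rfl⟩
    have hp0 : p 0 = x.1 := congrArg Prod.fst hpw.start
    have hw0 : w 0 = x.2 := congrArg Prod.snd hpw.start
    have hw1 : w 1 = y.2 := congrArg Prod.snd hpw.finish
    have hii : ∀ a b : ℝ, IntervalIntegrable φ MeasureTheory.volume a b :=
      fun a b => hφ.intervalIntegrable a b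
    have hpos : ∀ a b : ℝ, a ≤ b → 0 ≤ ∫ z in a..b, φ z := fun a b hab =>
      intervalIntegral.integral_nonneg hab fun z _ => (h0 z).le
    by_cases hin : ∀ τ ∈ Icc (0 : ℝ) 1, p τ ∈ Icc (x.1 - δ) (x.1 + δ)
    · refine (min_le_left _ _).trans ?_
      have h1 := Geo2_in φ ψ hφ hψ hpw.hp hpw.hw m hm fun τ hτ => hmin _ (hin τ hτ)
      rw [hw0, hw1] at h1
      exact h1
    · push Not at hin
      obtain ⟨τ, hτ, hout⟩ := hin
      refine (min_le_right _ _).trans ?_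
      refine le_trans ?_ (len_ge φ ψ hφ hψ hpw.hp hpw.hw le_rfl hτ.1 hτ.2)
      rw [hp0]
      by_cases h2 : x.1 - δ ≤ p τ
      · have h3 : x.1 + δ < p τ := by
          by_contra h4
          exact hout ⟨h2, not_lt.1 h4⟩
        have h4 : ∫ z in x.1..(p τ), φ z =
            (∫ z in x.1..(x.1 + δ), φ z) + ∫ z in (x.1 + δ)..(p τ), φ z :=
          (intervalIntegral.integral_add_adjacent_intervals (hii _ _) (hii _ _)).symm
        have h5 := hpos _ _ h3.le
        refine le_trans ?_ (le_abs_self _)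
        rw [h4]
        linarith
      · push Not at h2
        have h4 : ∫ z in (p τ)..x.1, φ z =
            (∫ z in (p τ)..(x.1 - δ), φ z) + ∫ z in (x.1 - δ)..x.1, φ z :=
          (intervalIntegral.integral_add_adjacent_intervals (hii _ _) (hii _ _)).symm
        have h5 := hpos _ _ h2.le
        rw [intervalIntegral.integral_symm, abs_neg]
        refine le_trans ?_ (le_abs_self _)
        rw [h4]
        linarith

theorem rdist_arc_ge (φ ψ : ℝ → ℝ) (hφ : Continuous φ) (hψ : Continuous ψ) (h0 : ∀ p, 0 < φ p)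
    (p θ δ m c : ℝ) (hδ : 0 < δ) (hm : 0 ≤ m) (hmin : ∀ q ∈ Icc (p - δ) (p + δ), m ≤ ψ q)
    (hc1 : c ≤ ∫ x in (p - δ)..p, φ x) (hc2 : c ≤ ∫ x in p..(p + δ), φ x) :
    min (m * ‖arc θ - arc 0‖) c ≤ rdist φ ψ (p, arc 0) (p, arc θ) :=
  rdist_ge φ ψ hφ hψ h0 (p, arc 0) (p, arc θ) ⟨_, _, arc_isCurve p θ⟩ δ m c hδ hm hmin hc1 hc2

end RFO
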