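import Pool.Agent.Lib.MP_63b676_gt.CoA
import Pool.Agent.Lib.MP_63b676_gt.Geo2

/-!
# Leaf CoB: completeness of `X = (ℝ × S², dx² + f² g)`

Let `z n` be Cauchy. `|x_n - x_m| ≤ rdist` (`rdist_ge_radial` with `φ = 1`, `∫ 1 = x_m - x_n`), so `x_n → x`
(`cauchySeq_tendsto_of_complete`, `Metric.cauchySeq_iff`). Let `μ > 0` be the minimum of `f` on `[x-2, x+2]`. For `n` large
`|x_n - x| ≤ 1`, and `rdist_ge` (`δ = 1`, `c = 1`, `m = μ`) gives `min (μ ‖w_n - w_m‖) 1 ≤ rdist (z m) (z n)`, so `w_n` is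
Cauchy in `E3` (given `ε`, ask for `rdist < min (μ ε) 1`), `w_n → w`, `‖w‖ = 1` (the norm is continuous). By `rdist_near`
`rdist (z n) (x, w) ≤ |x_n - x| + 2 ‖w_n - w‖ → 0`, and it is `≥ 0` (`rdist_nonneg`). The curves exist by `exists_curve`.
-/

namespace RFO

open Set Filter Topology
open scoped ContDiff

theorem complete_example {f : ℝ → ℝ} (hf : Continuous f) (hf0 : ∀ x, 0 < f x) (hf1 : ∀ x, f x ≤ 1) :
    Complete f := by
  intro z hz hC
  have h1 : ∀ m n, |(z n).1 - (z m).1| ≤ rdist (fun _ => 1) f (z m) (z n) := by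
    intro m n
    have h := rdist_ge_radial (fun _ => (1:ℝ)) f continuous_const hf (z m) (z n)
      (exists_curve (z m) (z n) (hz m) (hz n))
    simpa using h
  have hc1 : CauchySeq (fun n => (z n).1) := by
    rw [Metric.cauchySeq_iff]
    intro ε hε
    obtain ⟨N, hN⟩ := hC ε hε
    refine ⟨N, fun m hm n hn => ?_⟩
    rw [Real.dist_eq, abs_sub_comm]
    exact lt_of_le_of_lt (h1 m n) (hN m n hm hn)
  obtain ⟨x, hx⟩ := cauchySeq_tendsto_of_complete hc1
  obtain ⟨q, hq, hqm⟩ := (isCompact_Icc (a := x - 2) (b := x + 2)).exists_isMinOn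
    ⟨x, by constructor <;> linarith⟩ hf.continuousOn
  have hmu : ∀ y ∈ Icc (x - 2) (x + 2), f q ≤ f y := fun y hy => hqm hy
  have hmu0 : 0 < f q := hf0 q
  obtain ⟨N₀, hN₀⟩ := (Metric.tendsto_atTop.1 hx) 1 one_pos
  have hc2 : CauchySeq (fun n => (z n).2) := by
    rw [Metric.cauchySeq_iff]
    intro ε hε
    obtain ⟨N, hN⟩ := hC (min (f q * ε) 1) (lt_min (mul_pos hmu0 hε) one_pos)
    refine ⟨max N N₀, fun m hm n hn => ?_⟩
    have hm1 := hN₀ m (le_trans (le_max_right _ _) hm)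
    have h2 := hN m n (le_trans (le_max_left _ _) hm) (le_trans (le_max_left _ _) hn)
    rw [Real.dist_eq, abs_lt] at hm1
    have h3 := rdist_ge (fun _ => (1:ℝ)) f continuous_const hf (fun _ => one_pos) (z m) (z n)
      (exists_curve (z m) (z n) (hz m) (hz n)) 1 (f q) 1 one_pos hmu0.le
      (fun y hy => hmu y ⟨by linarith [hy.1, hm1.1], by linarith [hy.2, hm1.2]⟩)
      (by simp) (by simp)
    have h4 : min (f q * ‖(z n).2 - (z m).2‖) 1 < min (f q * ε) 1 := lt_of_le_of_lt h3 h2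
    rw [dist_eq_norm, norm_sub_rev]
    by_contra h5
    push Not at h5
    have h6 : f q * ε ≤ f q * ‖(z n).2 - (z m).2‖ := mul_le_mul_of_nonneg_left h5 hmu0.le
    exact absurd h4 (not_lt.2 (min_le_min_right 1 h6))
  obtain ⟨w, hw⟩ := cauchySeq_tendsto_of_complete hc2
  have hw1 : ‖w‖ = 1 := by
    have h := hw.norm
    have h' : Tendsto (fun n => ‖(z n).2‖) atTop (𝓝 1) := by
      have : (fun n => ‖(z n).2‖) = fun _ => (1:ℝ) := funext hz
      rw [this]
      exact tendsto_const_nhds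
    exact tendsto_nhds_unique h h'
  refine ⟨(x, w), hw1, ?_⟩
  have hup : Tendsto (fun n => |(z n).1 - x| + 2 * ‖(z n).2 - w‖) atTop (𝓝 0) := by
    have a1 : Tendsto (fun n => |(z n).1 - x|) atTop (𝓝 0) := by
      have := (hx.sub_const x).abs
      simpa using this
    have a2 : Tendsto (fun n => ‖(z n).2 - w‖) atTop (𝓝 0) := by
      have := (hw.sub_const w).norm
      simpa using this
    have := a1.add (a2.const_mul 2)
    simpa using this
  exact squeeze_zero (fun n => rdist_nonneg _ _ _ _)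
    (fun n => rdist_near hf hf0 hf1 (z n) (x, w) (hz n) hw1) hup

end RFO
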