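import Pool.Agent.Lib.MP_63b676_gt.Base

/-!
Rotationally symmetric metrics on `ℝ × S²`, their lengths, distances, Ricci curvatures and Ricci flow.
`S²` is the unit sphere of Euclidean 3-space `E3`.
-/

namespace RFO

open Set Filter Topology
open scoped ContDiff

/-- Length of the curve `τ ↦ (p τ, w τ)`, `0 ≤ τ ≤ 1`, of `ℝ × S²` for the metric
`φ(p)² dp² + ψ(p)² g_{S²}`. -/
noncomputable def len (φ ψ : ℝ → ℝ) (p : ℝ → ℝ) (w : ℝ → E3) : ℝ :=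
  ∫ τ in (0:ℝ)..1, Real.sqrt ((φ (p τ) * deriv p τ) ^ 2 + (ψ (p τ) * ‖deriv w τ‖) ^ 2)

/-- `τ ↦ (p τ, w τ)`, `0 ≤ τ ≤ 1`, is a `C¹` curve of `ℝ × S²` from `x` to `y`. -/
structure IsCurve (p : ℝ → ℝ) (w : ℝ → E3) (x y : ℝ × E3) : Prop where
  hp : ContDiff ℝ 1 p
  hw : ContDiff ℝ 1 w
  sph : ∀ τ ∈ Icc (0:ℝ) 1, ‖w τ‖ = 1
  start : (p 0, w 0) = x
  finish : (p 1, w 1) = y

/-- Riemannian distance of the metric `φ(p)² dp² + ψ(p)² g_{S²}` on `ℝ × S²`: infimum of the lengths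
of the `C¹` curves. -/
noncomputable def rdist (φ ψ : ℝ → ℝ) (x y : ℝ × E3) : ℝ :=
  sInf {l : ℝ | ∃ (p : ℝ → ℝ) (w : ℝ → E3), IsCurve p w x y ∧ l = len φ ψ p w}

/-- Derivative with respect to arc length: `∂_s h = h' / φ`. -/
noncomputable def ds (φ h : ℝ → ℝ) (p : ℝ) : ℝ := deriv h p / φ p

/-- Ricci curvature of `φ² dp² + ψ² g_{S²}` in the direction of the unit vector `∂_s`:
`Ric(∂_s, ∂_s) = -2 ψ_ss / ψ`. -/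
noncomputable def ricR (φ ψ : ℝ → ℝ) (p : ℝ) : ℝ := -2 * ds φ (ds φ ψ) p / ψ p

/-- Ricci curvature of `φ² dp² + ψ² g_{S²}` in the direction of every unit vector tangent to the sphere:
`-ψ_ss / ψ + (1 - ψ_s²) / ψ²`. -/
noncomputable def ricT (φ ψ : ℝ → ℝ) (p : ℝ) : ℝ :=
  -(ds φ (ds φ ψ) p) / ψ p + (1 - ds φ ψ p ^ 2) / ψ p ^ 2

/-- `g(t) = φ(t,p)² dp² + ψ(t,p)² g_{S²}`, `0 < t < T`, is a smooth Ricci flow on `ℝ × S²`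
(complete or not): `∂_t g = -2 Ric`. The Ricci tensor is `ricR φ² dp² + ricT ψ² g_{S²}`. -/
structure IsRicciFlow (T : ℝ) (φ ψ : ℝ → ℝ → ℝ) : Prop where
  smφ : ContDiffOn ℝ ∞ (fun z : ℝ × ℝ => φ z.1 z.2) (Ioo 0 T ×ˢ univ)
  smψ : ContDiffOn ℝ ∞ (fun z : ℝ × ℝ => ψ z.1 z.2) (Ioo 0 T ×ˢ univ)
  posφ : ∀ t ∈ Ioo 0 T, ∀ p, 0 < φ t p
  posψ : ∀ t ∈ Ioo 0 T, ∀ p, 0 < ψ t p
  eqφ : ∀ t ∈ Ioo 0 T, ∀ p,
    deriv (fun τ => φ τ p ^ 2) t = -2 * (ricR (φ t) (ψ t) p * φ t p ^ 2)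
  eqψ : ∀ t ∈ Ioo 0 T, ∀ p,
    deriv (fun τ => ψ τ p ^ 2) t = -2 * (ricT (φ t) (ψ t) p * ψ t p ^ 2)

/-- `Ric(g(t)) ≥ -K² g(t)` for `0 < t < T`. -/
def RicGE (T K : ℝ) (φ ψ : ℝ → ℝ → ℝ) : Prop :=
  ∀ t ∈ Ioo 0 T, ∀ p, -K ^ 2 ≤ ricR (φ t) (ψ t) p ∧ -K ^ 2 ≤ ricT (φ t) (ψ t) p

/-- The distances of `g(t)` converge, as `t → 0`, pointwise on `(ℝ × S²)²` to the pull-back of the distance
of `X = (ℝ × S², dx² + f(x)² g_{S²})` under the homeomorphism `(p, w) ↦ (ξ p, w)`. -/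
def ComesOut (f ξ : ℝ → ℝ) (φ ψ : ℝ → ℝ → ℝ) : Prop :=
  ∀ x y : ℝ × E3, ‖x.2‖ = 1 → ‖y.2‖ = 1 →
    Tendsto (fun t => rdist (φ t) (ψ t) x y) (𝓝[>] 0)
      (𝓝 (rdist (fun _ => 1) f (ξ x.1, x.2) (ξ y.1, y.2)))

/-- Completeness of the metric space `X = (ℝ × S², dx² + f(x)² g_{S²})`. -/
def Complete (f : ℝ → ℝ) : Prop :=
  ∀ z : ℕ → ℝ × E3, (∀ n, ‖(z n).2‖ = 1) →
    (∀ ε > 0, ∃ N, ∀ m n, N ≤ m → N ≤ n → rdist (fun _ => 1) f (z m) (z n) < ε) →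
    ∃ x : ℝ × E3, ‖x.2‖ = 1 ∧ Tendsto (fun n => rdist (fun _ => 1) f (z n) x) atTop (𝓝 0)

/-- The normalised equations, for `u = e^{-lam t} ψ`, `v = e^{-lam t} φ`, `lam = K²`. -/
structure Sol (T lam : ℝ) (u v : ℝ → ℝ → ℝ) : Prop where
  smu : ContDiffOn ℝ ∞ (fun z : ℝ × ℝ => u z.1 z.2) (Ioo 0 T ×ˢ univ)
  smv : ContDiffOn ℝ ∞ (fun z : ℝ × ℝ => v z.1 z.2) (Ioo 0 T ×ˢ univ)
  posu : ∀ t ∈ Ioo 0 T, ∀ p, 0 < u t p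
  posv : ∀ t ∈ Ioo 0 T, ∀ p, 0 < v t p
  equ : ∀ t ∈ Ioo 0 T, ∀ p, deriv (fun τ => u τ p) t =
    Real.exp (-(2 * lam * t)) *
      (ds (v t) (ds (v t) (u t)) p - (1 - ds (v t) (u t) p ^ 2) / u t p) - lam * u t p
  eqv : ∀ t ∈ Ioo 0 T, ∀ p, deriv (fun τ => v τ p) t =
    2 * Real.exp (-(2 * lam * t)) * (ds (v t) (ds (v t) (u t)) p / u t p) * v t p - lam * v t p
  decu : ∀ t ∈ Ioo 0 T, ∀ p, deriv (fun τ => u τ p) t ≤ 0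
  decv : ∀ t ∈ Ioo 0 T, ∀ p, deriv (fun τ => v τ p) t ≤ 0

/-- What the convergence of the distances gives. -/
structure InitData (T : ℝ) (f ξ : ℝ → ℝ) (u v : ℝ → ℝ → ℝ) : Prop where
  lenlim : ∀ p q, p ≤ q → Tendsto (fun t => ∫ x in p..q, v t x) (𝓝[>] 0) (𝓝 |ξ q - ξ p|)
  lenle : ∀ t ∈ Ioo 0 T, ∀ p q, p ≤ q → ∫ x in p..q, v t x ≤ |ξ q - ξ p|
  ule : ∀ t ∈ Ioo 0 T, ∀ p, u t p ≤ f (ξ p)
  ulim : ∀ p, Tendsto (fun t => u t p) (𝓝[>] 0) (𝓝 (f (ξ p)))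

/-- Between two necks `x < y` (where `f ≤ a`) there is a long core `[c, d]` on which `f = 1`. -/
def Bulge (f : ℝ → ℝ) (a x y : ℝ) : Prop :=
  f x ≤ a ∧ f y ≤ a ∧ ∃ c d, x ≤ c ∧ c < d ∧ d ≤ y ∧ (∀ z ∈ Icc c d, f z = 1) ∧ y - x ≤ 4 * (d - c)

/-- the point of `S²` at angle `θ` on the equator -/
noncomputable def arc (θ : ℝ) : E3 := !₂[Real.cos θ, Real.sin θ, 0]

end RFO
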