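import Mathlib

/-!
# Leaf FA1: the auxiliary functions of one variable, derivatives (Mathlib only)

`G y = 40 y³ - 50 y²` for `y ≤ 1` and `((y-1)³ - 10)/y²` for `y > 1`; `A0 y = 3 (y-1)²/y²` for `y > 1`, `0` for `y ≤ 1`.
* `G_deriv`, `A0_deriv`: away from `1` by the formulas; at `1` both one-sided derivatives agree: for `G` the values
  `40 - 50 = -10 = (0 - 10)/1` and the derivatives `120 - 100 = 20 = 0 - 2 (-10)`; for `A0` both are `0`
  (`HasDerivWithinAt` on `Iic 1` and `Ici 1`, `HasDerivWithinAt.union`, `Iic_union_Ici`).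
* continuity: `Continuous.if_le`, both formulas agree at `1`; for `y > 1` the denominators are positive (replace `y` by
  `max y 1` in the denominators to have global continuity).
-/

namespace RFO

open Set Filter Topology

noncomputable def G (y : ℝ) : ℝ := if y ≤ 1 then 40 * y ^ 3 - 50 * y ^ 2 else ((y - 1) ^ 3 - 10) / y ^ 2

noncomputable def G' (y : ℝ) : ℝ :=
  if y ≤ 1 then 120 * y ^ 2 - 100 * y else 3 * (y - 1) ^ 2 / y ^ 2 - 2 * ((y - 1) ^ 3 - 10) / y ^ 3

noncomputable def A0 (y : ℝ) : ℝ := if y ≤ 1 then 0 else 3 * (y - 1) ^ 2 / y ^ 2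

noncomputable def A0' (y : ℝ) : ℝ := if y ≤ 1 then 0 else 6 * (y - 1) / y ^ 3

private theorem FA1_glue (p q p' q' : ℝ → ℝ) (hp : ∀ y, y ≤ 1 → HasDerivAt p (p' y) y)
    (hq : ∀ y, 1 ≤ y → HasDerivAt q (q' y) y) (h0 : p 1 = q 1) (h1 : p' 1 = q' 1) (y : ℝ) :
    HasDerivAt (fun y => if y ≤ 1 then p y else q y) (if y ≤ 1 then p' y else q' y) y := by
  rcases lt_trichotomy y 1 with hy | hy | hy
  · rw [if_pos hy.le]
    refine (hp y hy.le).congr_of_eventuallyEq ?_
    filter_upwards [Iio_mem_nhds hy] with z hz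
    rw [if_pos (le_of_lt hz)]
  · subst hy
    rw [if_pos le_rfl]
    have hl : HasDerivWithinAt (fun y => if y ≤ 1 then p y else q y) (p' 1) (Iic 1) 1 := by
      refine (hp 1 le_rfl).hasDerivWithinAt.congr (fun z hz => ?_) ?_
      · exact if_pos hz
      · exact if_pos le_rfl
    have hr : HasDerivWithinAt (fun y => if y ≤ 1 then p y else q y) (p' 1) (Ici 1) 1 := by
      rw [h1]
      refine (hq 1 le_rfl).hasDerivWithinAt.congr (fun z hz => ?_) ?_
      · rcases eq_or_lt_of_le (mem_Ici.1 hz) with h | h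
        · rw [← h, if_pos le_rfl, h0]
        · exact if_neg (not_le.2 h)
      · rw [if_pos le_rfl, h0]
    have h2 := hl.union hr
    rwa [Iic_union_Ici, hasDerivWithinAt_univ] at h2
  · rw [if_neg (not_le.2 hy)]
    refine (hq y hy.le).congr_of_eventuallyEq ?_
    filter_upwards [Ioi_mem_nhds hy] with z hz
    rw [if_neg (not_le.2 hz)]

private theorem FA1_cont (p q : ℝ → ℝ) (hp : Continuous p) (hq : Continuous fun y => q (max y 1))
    (h0 : p 1 = q 1) : Continuous fun y => if y ≤ 1 then p y else q y := by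
  have h1 : (fun y => if y ≤ 1 then p y else q y) =
      fun y => if y ≤ 1 then p y else q (max y 1) := by
    funext y
    by_cases hy : y ≤ 1
    · rw [if_pos hy, if_pos hy]
    · rw [if_neg hy, if_neg hy, max_eq_left (not_le.1 hy).le]
  rw [h1]
  refine Continuous.if_le hp hq continuous_id continuous_const ?_
  intro y hy
  have hy' : y = 1 := hy
  rw [hy', max_self, h0]

theorem G_deriv (y : ℝ) : HasDerivAt G (G' y) y := by
  refine FA1_glue (fun y => 40 * y ^ 3 - 50 * y ^ 2) (fun y => ((y - 1) ^ 3 - 10) / y ^ 2)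
    (fun y => 120 * y ^ 2 - 100 * y)
    (fun y => 3 * (y - 1) ^ 2 / y ^ 2 - 2 * ((y - 1) ^ 3 - 10) / y ^ 3) ?_ ?_ ?_ ?_ y
  · intro y _
    have h1 : HasDerivAt (fun y : ℝ => 40 * y ^ 3 - 50 * y ^ 2)
        (40 * (((3 : ℕ) : ℝ) * y ^ (3 - 1) * 1) - 50 * (((2 : ℕ) : ℝ) * y ^ (2 - 1) * 1)) y :=
      (((hasDerivAt_id y).pow 3).const_mul 40).sub (((hasDerivAt_id y).pow 2).const_mul 50)
    refine h1.congr_deriv ?_
    norm_num
    ring
  · intro y hy
    have hy0 : y ≠ 0 := (lt_of_lt_of_le one_pos hy).ne'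
    have h1 : HasDerivAt (fun y : ℝ => ((y - 1) ^ 3 - 10) / y ^ 2)
        (((((3 : ℕ) : ℝ) * (y - 1) ^ (3 - 1) * 1) * y ^ 2 -
          ((y - 1) ^ 3 - 10) * (((2 : ℕ) : ℝ) * y ^ (2 - 1) * 1)) / (y ^ 2) ^ 2) y :=
      ((((hasDerivAt_id y).sub_const 1).pow 3).sub_const 10).div ((hasDerivAt_id y).pow 2)
        (pow_ne_zero 2 hy0)
    refine h1.congr_deriv ?_
    norm_num
    field_simp
  · norm_num
  · norm_num

theorem A0_deriv (y : ℝ) : HasDerivAt A0 (A0' y) y := by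
  refine FA1_glue (fun _ => 0) (fun y => 3 * (y - 1) ^ 2 / y ^ 2) (fun _ => 0)
    (fun y => 6 * (y - 1) / y ^ 3) ?_ ?_ ?_ ?_ y
  · intro y _
    exact hasDerivAt_const y 0
  · intro y hy
    have hy0 : y ≠ 0 := (lt_of_lt_of_le one_pos hy).ne'
    have h1 : HasDerivAt (fun y : ℝ => 3 * (y - 1) ^ 2 / y ^ 2)
        (((3 * (((2 : ℕ) : ℝ) * (y - 1) ^ (2 - 1) * 1)) * y ^ 2 -
          (3 * (y - 1) ^ 2) * (((2 : ℕ) : ℝ) * y ^ (2 - 1) * 1)) / (y ^ 2) ^ 2) y :=
      ((((hasDerivAt_id y).sub_const 1).pow 2).const_mul 3).div ((hasDerivAt_id y).pow 2)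
        (pow_ne_zero 2 hy0)
    refine h1.congr_deriv ?_
    norm_num
    field_simp
    ring
  · norm_num
  · norm_num

theorem G'_cont : Continuous G' := by
  refine FA1_cont (fun y => 120 * y ^ 2 - 100 * y)
    (fun y => 3 * (y - 1) ^ 2 / y ^ 2 - 2 * ((y - 1) ^ 3 - 10) / y ^ 3) (by fun_prop) ?_ (by norm_num)
  have h0 : ∀ y : ℝ, max y 1 ≠ 0 := fun y => (lt_of_lt_of_le one_pos (le_max_right y 1)).ne'
  refine Continuous.sub ?_ ?_
  · exact Continuous.div (by fun_prop) (by fun_prop) fun y => pow_ne_zero 2 (h0 y)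
  · exact Continuous.div (by fun_prop) (by fun_prop) fun y => pow_ne_zero 3 (h0 y)

theorem A0'_cont : Continuous A0' := by
  refine FA1_cont (fun _ => 0) (fun y => 6 * (y - 1) / y ^ 3) (by fun_prop) ?_ (by norm_num)
  have h0 : ∀ y : ℝ, max y 1 ≠ 0 := fun y => (lt_of_lt_of_le one_pos (le_max_right y 1)).ne'
  exact Continuous.div (by fun_prop) (by fun_prop) fun y => pow_ne_zero 3 (h0 y)

theorem A0_zero {y : ℝ} (hy : y ≤ 1) : A0 y = 0 := by
  simp [A0, hy]

end RFO
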