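import Pool.Agent.Lib.MP_63b676_gt.Smo
import Pool.Agent.Lib.MP_63b676_gt.FA1

/-!
# Leaf Ev1: two derivatives

* `flux_diff`, `flux_deriv`: `deriv (fun x => 100 * (A0 (100 * u t x) * ds (v t) (u t) x)) p
   = v * (10000 * A0' y * u_s ^ 2 + 100 * A0 y * u_ss)` (chain and product rule: `deriv (u t) p = v u_s`,
  `deriv (ds (v t) (u t)) p = v u_ss`, because `ds φ h p = deriv h p / φ p`, `v ≠ 0`; `Smo_slice` of `smu` and of `Smo_ds`).
* `time_deriv`: `deriv (fun τ => G (100 * u τ p) * v τ p) t = 100 * G' y * u_t * v + G y * v_t` (`Smo_diffAt`).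
-/

namespace RFO

open Set Filter Topology
open scoped ContDiff

theorem flux_hasDeriv {T lam : ℝ} {u v : ℝ → ℝ → ℝ} (h : Sol T lam u v) {t : ℝ} (ht : t ∈ Ioo 0 T)
    (p : ℝ) :
    HasDerivAt (fun x => 100 * (A0 (100 * u t x) * ds (v t) (u t) x))
      (v t p * (10000 * A0' (100 * u t p) * ds (v t) (u t) p ^ 2 +
        100 * A0 (100 * u t p) * ds (v t) (ds (v t) (u t)) p)) p := by
  have hv : v t p ≠ 0 := (h.posv t ht p).ne'
  have hu1 : HasDerivAt (u t) (deriv (u t) p) p :=
    ((Smo_slice h.smu ht).differentiable (by simp)).differentiableAt.hasDerivAt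
  have hw : ContDiff ℝ ∞ (ds (v t) (u t)) :=
    Smo_slice (W := fun τ => ds (v τ) (u τ)) (Smo_ds h.smv h.smu h.posv) ht
  have hw1 : HasDerivAt (ds (v t) (u t)) (deriv (ds (v t) (u t)) p) p :=
    (hw.differentiable (by simp)).differentiableAt.hasDerivAt
  have hA : HasDerivAt (fun x => A0 (100 * u t x)) (A0' (100 * u t p) * (100 * deriv (u t) p)) p :=
    HasDerivAt.comp (h₂ := A0) (h := fun x => 100 * u t x) p (A0_deriv (100 * u t p)) (hu1.const_mul 100)
  have h1 := (hA.const_mul 100).mul hw1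
  have e1 : deriv (u t) p = v t p * ds (v t) (u t) p := by
    show deriv (u t) p = v t p * (deriv (u t) p / v t p)
    field_simp
  have e2 : deriv (ds (v t) (u t)) p = v t p * ds (v t) (ds (v t) (u t)) p := by
    show deriv (ds (v t) (u t)) p = v t p * (deriv (ds (v t) (u t)) p / v t p)
    field_simp
  rw [e2] at h1
  rw [show 100 * (A0' (100 * u t p) * (100 * deriv (u t) p)) * ds (v t) (u t) p +
      100 * A0 (100 * u t p) * (v t p * ds (v t) (ds (v t) (u t)) p) =
      v t p * (10000 * A0' (100 * u t p) * ds (v t) (u t) p ^ 2 +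
        100 * A0 (100 * u t p) * ds (v t) (ds (v t) (u t)) p) by
    rw [e1]
    ring] at h1
  refine h1.congr_of_eventuallyEq (Filter.Eventually.of_forall fun x => ?_)
  show 100 * (A0 (100 * u t x) * ds (v t) (u t) x) = 100 * A0 (100 * u t x) * ds (v t) (u t) x
  ring

theorem time_hasDeriv {T lam : ℝ} {u v : ℝ → ℝ → ℝ} (h : Sol T lam u v) {t : ℝ} (ht : t ∈ Ioo 0 T)
    (p : ℝ) :
    HasDerivAt (fun τ => G (100 * u τ p) * v τ p)
      (100 * G' (100 * u t p) * deriv (fun τ => u τ p) t * v t p +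
        G (100 * u t p) * deriv (fun τ => v τ p) t) t := by
  have hu : HasDerivAt (fun τ => u τ p) (deriv (fun τ => u τ p) t) t := (Smo_diffAt h.smu p ht).hasDerivAt
  have hv : HasDerivAt (fun τ => v τ p) (deriv (fun τ => v τ p) t) t := (Smo_diffAt h.smv p ht).hasDerivAt
  have hG : HasDerivAt (fun τ => G (100 * u τ p)) (G' (100 * u t p) * (100 * deriv (fun τ => u τ p) t)) t :=
    HasDerivAt.comp (h₂ := G) (h := fun τ => 100 * u τ p) t (G_deriv (100 * u t p)) (hu.const_mul 100)
  have h1 := hG.mul hv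
  rw [show G' (100 * u t p) * (100 * deriv (fun τ => u τ p) t) * v t p +
      G (100 * u t p) * deriv (fun τ => v τ p) t =
      100 * G' (100 * u t p) * deriv (fun τ => u τ p) t * v t p +
        G (100 * u t p) * deriv (fun τ => v τ p) t by ring] at h1
  exact h1

end RFO
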