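import Pool.Agent.Lib.MP_63b676_gt.FA1

/-!
# Leaf FA2: the auxiliary functions of one variable, inequalities (only the definitions of FA1)

* `ineq1` (`A0' ≤ A0/y - 2G/y²`): `y ≤ 1`: `0 ≤ -2G/y² = 100 - 80 y`. `y > 1`: multiply by `y⁴`:
  `y³ - 6y² + 3y + 22 ≥ 0` for `y ≥ 1` (minimum about `1.6` at `y = 2 + √3`; nlinarith with
  `(y + 1.46) * (y - 3.73)² ≥ 0`).
* `ineq2` (`G' + 2G/y ≤ A0`): `y > 1`: equality. `y ≤ 1`: `200 y (y - 1) ≤ 0`.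
* `G_lower`: `y ≤ 1`: `-G = 50 y² - 40 y³ ≤ 12` on `[0,1]` (maximum `11.58` at `5/6`). `y > 1`: `(y-1)³ - 10 ≥ -12 y²`.
* `G_large`: `y ≥ 90`: `(y-1)³ - 10 ≥ 87 y²`. `G_small`: `0 < y ≤ 10`: `G y ≤ 36/5`: for `y > 1`,
  `(y-1)³ - 10 ≤ 7.2 y²` on `[1,10]` (`719 ≤ 720` at `10`); for `y ≤ 1`: `G ≤ 0`.
* `H_bound`: `(A0 y - 2 G y / y)/y ≤ 100`: `y ≤ 1`: `100 - 80 y`. `y > 1`: `(3(y-1)²/y² - 2((y-1)³-10)/y³)/y ≤ 23`.
* `I_bound`: `A0 y * y - G y ≤ 400` for `0 < y ≤ 100` (`A0 y * y ≤ 3 y`, `-G ≤ 12`).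
-/

namespace RFO

open Set Filter Topology

theorem ineq1 {y : ℝ} (hy : 0 < y) : A0' y ≤ A0 y / y - 2 * G y / y ^ 2 := by
  rcases le_or_gt y 1 with h | h
  · have h1 : A0' y = 0 := by simp [A0', h]
    have h2 : A0 y = 0 := by simp [A0, h]
    have h3 : G y = 40 * y ^ 3 - 50 * y ^ 2 := by simp [G, h]
    rw [h1, h2, h3]
    have h4 : (0:ℝ) / y - 2 * (40 * y ^ 3 - 50 * y ^ 2) / y ^ 2 = 100 - 80 * y := by
      field_simp
      ring
    rw [h4]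
    linarith
  · have hn : ¬ y ≤ 1 := not_le.mpr h
    have h1 : A0' y = 6 * (y - 1) / y ^ 3 := by simp [A0', hn]
    have h2 : A0 y = 3 * (y - 1) ^ 2 / y ^ 2 := by simp [A0, hn]
    have h3 : G y = ((y - 1) ^ 3 - 10) / y ^ 2 := by simp [G, hn]
    rw [h1, h2, h3]
    have key : 0 ≤ y ^ 3 - 6 * y ^ 2 + 3 * y + 22 := by
      nlinarith [mul_nonneg (show (0:ℝ) ≤ y + 146 / 100 by linarith) (sq_nonneg (y - 373 / 100))]
    have h4 : 3 * (y - 1) ^ 2 / y ^ 2 / y - 2 * (((y - 1) ^ 3 - 10) / y ^ 2) / y ^ 2 - 6 * (y - 1) / y ^ 3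
        = (y ^ 3 - 6 * y ^ 2 + 3 * y + 22) / y ^ 4 := by
      field_simp
      ring
    have h5 : 0 ≤ (y ^ 3 - 6 * y ^ 2 + 3 * y + 22) / y ^ 4 := div_nonneg key (by positivity)
    linarith

theorem ineq2 {y : ℝ} (hy : 0 < y) : G' y + 2 * G y / y ≤ A0 y := by
  rcases le_or_gt y 1 with h | h
  · have h1 : G' y = 120 * y ^ 2 - 100 * y := by simp [G', h]
    have h2 : A0 y = 0 := by simp [A0, h]
    have h3 : G y = 40 * y ^ 3 - 50 * y ^ 2 := by simp [G, h]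
    rw [h1, h2, h3]
    have h4 : 120 * y ^ 2 - 100 * y + 2 * (40 * y ^ 3 - 50 * y ^ 2) / y = 200 * (y * (y - 1)) := by
      field_simp
      ring
    rw [h4]
    nlinarith
  · have hn : ¬ y ≤ 1 := not_le.mpr h
    have h1 : G' y = 3 * (y - 1) ^ 2 / y ^ 2 - 2 * ((y - 1) ^ 3 - 10) / y ^ 3 := by simp [G', hn]
    have h2 : A0 y = 3 * (y - 1) ^ 2 / y ^ 2 := by simp [A0, hn]
    have h3 : G y = ((y - 1) ^ 3 - 10) / y ^ 2 := by simp [G, hn]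
    rw [h1, h2, h3]
    apply le_of_eq
    field_simp
    ring

theorem G_lower {y : ℝ} (hy : 0 < y) : -12 ≤ G y := by
  rcases le_or_gt y 1 with h | h
  · have h3 : G y = 40 * y ^ 3 - 50 * y ^ 2 := by simp [G, h]
    rw [h3]
    nlinarith [mul_nonneg hy.le (sq_nonneg (y - 5 / 6)), sq_nonneg (y - 5 / 6)]
  · have hn : ¬ y ≤ 1 := not_le.mpr h
    have h3 : G y = ((y - 1) ^ 3 - 10) / y ^ 2 := by simp [G, hn]
    rw [h3, le_div_iff₀ (by positivity)]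
    have : 0 ≤ (y - 1) ^ 3 := pow_nonneg (by linarith) 3
    nlinarith

theorem G_large {y : ℝ} (hy : 90 ≤ y) : 87 ≤ G y := by
  have hn : ¬ y ≤ 1 := not_le.mpr (by linarith)
  have h3 : G y = ((y - 1) ^ 3 - 10) / y ^ 2 := by simp [G, hn]
  rw [h3, le_div_iff₀ (by positivity)]
  have h4 : 0 ≤ y ^ 2 * (y - 90) := mul_nonneg (sq_nonneg y) (by linarith)
  nlinarith

theorem G_small {y : ℝ} (hy : 0 < y) (hy' : y ≤ 10) : G y ≤ 36 / 5 := by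
  rcases le_or_gt y 1 with h | h
  · have h3 : G y = 40 * y ^ 3 - 50 * y ^ 2 := by simp [G, h]
    rw [h3]
    nlinarith [mul_nonneg (sq_nonneg y) (show (0:ℝ) ≤ 1 - y by linarith), sq_nonneg y]
  · have hn : ¬ y ≤ 1 := not_le.mpr h
    have h3 : G y = ((y - 1) ^ 3 - 10) / y ^ 2 := by simp [G, hn]
    rw [h3, div_le_iff₀ (by positivity)]
    nlinarith [mul_nonneg (mul_nonneg (show (0:ℝ) ≤ y - 1 by linarith) (show (0:ℝ) ≤ 10 - y by linarith)) hy.le]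

theorem H_bound {y : ℝ} (hy : 0 < y) : (A0 y - 2 * G y / y) / y ≤ 100 := by
  rcases le_or_gt y 1 with h | h
  · have h2 : A0 y = 0 := by simp [A0, h]
    have h3 : G y = 40 * y ^ 3 - 50 * y ^ 2 := by simp [G, h]
    rw [h2, h3]
    have h4 : ((0:ℝ) - 2 * (40 * y ^ 3 - 50 * y ^ 2) / y) / y = 100 - 80 * y := by
      field_simp
      ring
    rw [h4]
    linarith
  · have hn : ¬ y ≤ 1 := not_le.mpr h
    have h2 : A0 y = 3 * (y - 1) ^ 2 / y ^ 2 := by simp [A0, hn]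
    have h3 : G y = ((y - 1) ^ 3 - 10) / y ^ 2 := by simp [G, hn]
    rw [h2, h3]
    have h4 : (3 * (y - 1) ^ 2 / y ^ 2 - 2 * (((y - 1) ^ 3 - 10) / y ^ 2) / y) / y
        = (3 * y * (y - 1) ^ 2 - 2 * ((y - 1) ^ 3 - 10)) / y ^ 4 := by
      field_simp
    rw [h4, div_le_iff₀ (by positivity)]
    have h5 : (1:ℝ) ≤ y ^ 3 := one_le_pow₀ h.le
    have h6 : y ^ 3 ≤ y ^ 4 := pow_le_pow_right₀ h.le (by norm_num)
    nlinarith [sq_nonneg y]

theorem I_bound {y : ℝ} (hy : 0 < y) (hy' : y ≤ 100) : A0 y * y - G y ≤ 400 := by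
  have hG := G_lower hy
  have hA : A0 y * y ≤ 3 * y := by
    rcases le_or_gt y 1 with h | h
    · have h2 : A0 y = 0 := by simp [A0, h]
      rw [h2]
      linarith
    · have hn : ¬ y ≤ 1 := not_le.mpr h
      have h2 : A0 y = 3 * (y - 1) ^ 2 / y ^ 2 := by simp [A0, hn]
      apply mul_le_mul_of_nonneg_right _ hy.le
      rw [h2, div_le_iff₀ (by positivity)]
      nlinarith
  linarith

end RFO
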