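import Pool.Agent.Lib.MP_63b676_gt.Ev1
import Pool.Agent.Lib.MP_63b676_gt.FA2

/-!
# Leaf Ev2: the pointwise evolution inequality
-/

namespace RFO

open Set Filter Topology
open scoped ContDiff

private lemma Ev2_alg (k lam u v us uss X g a' G1 ut vt : ℝ) (hk0 : 0 ≤ k) (hk1 : k ≤ 1)
    (hlam : 0 ≤ lam) (hu : 0 < u) (hv : 0 < v)
    (i1 : 10000 * a' ≤ (100 * X - 2 * g / u) / u) (i2 : 100 * G1 ≤ 100 * X - 2 * g / u)
    (hb : (100 * X - 2 * g / u) / u ≤ 10 ^ 6) (ib : X * (100 * u) - g ≤ 400) (hut : ut ≤ 0)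
    (eut : ut = k * (uss - (1 - us ^ 2) / u) - lam * u)
    (evt : vt = 2 * k * (uss / u) * v - lam * v) :
    k * (v * (10000 * a' * us ^ 2 + 100 * X * uss)) - (10 ^ 6 + 400 * lam) * v ≤
      100 * G1 * ut * v + g * vt := by
  have h1 : (100 * X - 2 * g / u) * ut * v ≤ 100 * G1 * ut * v := by
    nlinarith [mul_nonneg (sub_nonneg.2 i2) (mul_nonneg (neg_nonneg.2 hut) hv.le)]
  have h2 : (100 * X - 2 * g / u) * ut * v + g * vt =
      v * (k * (100 * X * uss) + k * ((100 * X - 2 * g / u) / u) * us ^ 2 -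
        k * ((100 * X - 2 * g / u) / u) - lam * (X * (100 * u) - g)) := by
    rw [eut, evt]
    field_simp
    ring
  generalize (100 * X - 2 * g / u) / u = Q at i1 hb h2
  have h3 : k * (10000 * a' * us ^ 2) ≤ k * Q * us ^ 2 := by
    have := mul_le_mul_of_nonneg_left (mul_le_mul_of_nonneg_right i1 (sq_nonneg us)) hk0
    linarith [this]
  have h4 : k * Q ≤ 10 ^ 6 := by
    rcases le_or_gt 0 Q with hq | hq
    · nlinarith [mul_le_mul_of_nonneg_right hk1 hq]
    · nlinarith [mul_nonneg hk0 (neg_nonneg.2 hq.le)]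
  have h5 : lam * (X * (100 * u) - g) ≤ lam * 400 := mul_le_mul_of_nonneg_left ib hlam
  have h6 : v * (k * (100 * X * uss) + k * (10000 * a' * us ^ 2) - 10 ^ 6 - lam * 400) ≤
      v * (k * (100 * X * uss) + k * Q * us ^ 2 - k * Q - lam * (X * (100 * u) - g)) :=
    mul_le_mul_of_nonneg_left (by linarith) hv.le
  nlinarith [h1, h2, h6]

theorem ev {T lam : ℝ} {u v : ℝ → ℝ → ℝ} (h : Sol T lam u v) (hlam : 0 ≤ lam)
    (hle : ∀ t ∈ Ioo 0 T, ∀ p, u t p ≤ 1) {t : ℝ} (ht : t ∈ Ioo 0 T) (p : ℝ) :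
    Real.exp (-(2 * lam * t)) *
        deriv (fun x => 100 * (A0 (100 * u t x) * ds (v t) (u t) x)) p -
      (10 ^ 6 + 400 * lam) * v t p ≤
    deriv (fun τ => G (100 * u τ p) * v τ p) t := by
  have hu := h.posu t ht p
  have hv := h.posv t ht p
  have hu1 := hle t ht p
  have hy : 0 < 100 * u t p := by positivity
  have hy' : 100 * u t p ≤ 100 := by linarith
  rw [(flux_hasDeriv h ht p).deriv, (time_hasDeriv h ht p).deriv]
  have e0 : 100 * A0 (100 * u t p) - 2 * G (100 * u t p) / u t p =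
      100 * (A0 (100 * u t p) - 2 * G (100 * u t p) / (100 * u t p)) := by
    field_simp
  refine Ev2_alg (Real.exp (-(2 * lam * t))) lam (u t p) (v t p) _ _ _ _ _ _ _ _
    (Real.exp_pos _).le ?_ hlam hu hv ?_ ?_ ?_ ?_ (h.decu t ht p) (h.equ t ht p) (h.eqv t ht p)
  · rw [Real.exp_le_one_iff]
    have := mul_nonneg hlam ht.1.le
    linarith
  · have := ineq1 hy
    have e1 : (100 * A0 (100 * u t p) - 2 * G (100 * u t p) / u t p) / u t p =
        10000 * (A0 (100 * u t p) / (100 * u t p) -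
          2 * G (100 * u t p) / (100 * u t p) ^ 2) := by
      field_simp
      ring
    rw [e1]
    linarith
  · have := ineq2 hy
    rw [e0]
    have e2 : G' (100 * u t p) ≤ A0 (100 * u t p) - 2 * G (100 * u t p) / (100 * u t p) := by
      linarith
    linarith
  · have := H_bound hy
    have e3 : (100 * A0 (100 * u t p) - 2 * G (100 * u t p) / u t p) / u t p =
        10000 * ((A0 (100 * u t p) - 2 * G (100 * u t p) / (100 * u t p)) / (100 * u t p)) := by
      field_simp
      ring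
    rw [e3]
    linarith
  · exact I_bound hy hy'

end RFO
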