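import Pool.Agent.Lib.MP_63b676_gt.Defs

/-!
# Leaf Ex1: the exponent `hh` of the example (Mathlib only)

`hh x = √(1+x²) * S (-cos (β log (1+x²)))`, `S = Real.smoothTransition`, `β = π / log 4`.
Proofs.
* `Qf θ = S (-cos θ)` is `C^∞` and `2π`-periodic, so `Qf`, `deriv Qf`, `deriv (deriv Qf)` are continuous and periodic, hence
  bounded by some `B` (compactness of `[0, 2π]`, `Function.Periodic.exists_mem_Ico₀`).
* `ρ = √(1+x²) ≥ 1`, `ρ' = x/ρ`, `|ρ'| ≤ 1`, `ρ'' = 1/ρ³ ≤ 1`; `θ = β log (1+x²)`, `θ' = 2 β x/(1+x²)`, `|θ'| ≤ 2 β/ρ`,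
  `θ'' = 2 β (1-x²)/(1+x²)²`, `|θ''| ≤ 2 β/ρ²`.
* `hh' = ρ' Q(θ) + ρ Q'(θ) θ'`, `hh'' = ρ'' Q + 2 ρ' Q' θ' + ρ (Q'' θ'² + Q' θ'')`: bounded by
  `B (1 + 2β)` and `B (1 + 4β + 4β² + 2β)`.
* Alternative for the bounds: a function `g` with `g x = ρ(x) Q(θ(x))`; everything is explicit, `field_simp`.
-/

namespace RFO

open Set Filter Topology
open scoped ContDiff

noncomputable def hh (x : ℝ) : ℝ :=
  Real.sqrt (1 + x ^ 2) *
    Real.smoothTransition (-(Real.cos (Real.pi / Real.log 4 * Real.log (1 + x ^ 2))))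

theorem hh_smooth : ContDiff ℝ ∞ hh := by
  have h1 : ContDiff ℝ ∞ fun x : ℝ => 1 + x ^ 2 := by fun_prop
  have h0 : ∀ x : ℝ, 1 + x ^ 2 ≠ 0 := fun x => by positivity
  have h2 : ContDiff ℝ ∞ fun x : ℝ => Real.sqrt (1 + x ^ 2) := h1.sqrt h0
  have h3 : ContDiff ℝ ∞ fun x : ℝ => Real.log (1 + x ^ 2) := h1.log h0
  have h4 : ContDiff ℝ ∞ fun x : ℝ =>
      -(Real.cos (Real.pi / Real.log 4 * Real.log (1 + x ^ 2))) :=
    (Real.contDiff_cos.comp (contDiff_const.mul h3)).neg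
  exact h2.mul (Real.smoothTransition.contDiff.comp h4)

theorem hh_nonneg (x : ℝ) : 0 ≤ hh x :=
  mul_nonneg (Real.sqrt_nonneg _) (Real.smoothTransition.nonneg _)

private theorem Ex1_bdd {f : ℝ → ℝ} (hf : Continuous f) (hp : Function.Periodic f (2 * Real.pi)) :
    ∃ B : ℝ, 0 ≤ B ∧ ∀ x, |f x| ≤ B := by
  obtain ⟨B, hB⟩ := (isCompact_Icc (a := (0 : ℝ)) (b := 2 * Real.pi)).exists_bound_of_continuousOn
    hf.continuousOn
  have hpos : (0 : ℝ) < 2 * Real.pi := by positivity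
  refine ⟨|B|, abs_nonneg B, fun x => ?_⟩
  obtain ⟨y, hy, hxy⟩ := hp.exists_mem_Ico₀ hpos x
  rw [hxy]
  exact (hB y ⟨hy.1, hy.2.le⟩).trans (le_abs_self B)

private theorem Ex1_per {f : ℝ → ℝ} (hp : Function.Periodic f (2 * Real.pi)) :
    Function.Periodic (deriv f) (2 * Real.pi) := by
  intro x
  have h : (fun y => f (y + 2 * Real.pi)) = f := funext fun y => hp y
  have h2 := deriv_comp_add_const f (2 * Real.pi) x
  rw [h] at h2
  exact h2.symm

theorem hh_bound : ∃ M : ℝ, 0 < M ∧ ∀ x, |deriv hh x| ≤ M ∧ |deriv (deriv hh) x| ≤ M := by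
  set c : ℝ := Real.pi / Real.log 4 with hc
  have hc0 : 0 < c := by
    have : 0 < Real.log 4 := Real.log_pos (by norm_num)
    positivity
  set Q : ℝ → ℝ := fun θ => Real.smoothTransition (-(Real.cos θ)) with hQ
  have hQs : ContDiff ℝ ∞ Q := Real.smoothTransition.contDiff.comp Real.contDiff_cos.neg
  have hQp : Function.Periodic Q (2 * Real.pi) := by
    intro x
    simp only [hQ, Real.cos_add_two_pi]
  have hQ' : ContDiff ℝ ∞ (deriv Q) := (contDiff_infty_iff_deriv.mp hQs).2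
  set R : ℝ → ℝ := fun θ => Q θ + 2 * c * deriv Q θ with hR
  have hRs : ContDiff ℝ ∞ R := hQs.add (contDiff_const.mul hQ')
  have hRp : Function.Periodic R (2 * Real.pi) := by
    intro x
    simp only [hR, hQp x, Ex1_per hQp x]
  have hR' : ContDiff ℝ ∞ (deriv R) := (contDiff_infty_iff_deriv.mp hRs).2
  obtain ⟨B, hB0, hB⟩ := Ex1_bdd hRs.continuous hRp
  obtain ⟨B', hB'0, hB'⟩ := Ex1_bdd hR'.continuous (Ex1_per hRp)
  set ρ : ℝ → ℝ := fun x => Real.sqrt (1 + x ^ 2) with hρ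
  set θ : ℝ → ℝ := fun x => c * Real.log (1 + x ^ 2) with hθ
  have hpos : ∀ x : ℝ, 0 < 1 + x ^ 2 := fun x => by positivity
  have hρ0 : ∀ x, 0 < ρ x := fun x => Real.sqrt_pos.mpr (hpos x)
  have hρ2 : ∀ x, ρ x ^ 2 = 1 + x ^ 2 := fun x => Real.sq_sqrt (hpos x).le
  have hρ1 : ∀ x, 1 ≤ ρ x := fun x => by
    have := hρ2 x
    nlinarith [hρ0 x, sq_nonneg x]
  have hdin : ∀ x : ℝ, HasDerivAt (fun x : ℝ => 1 + x ^ 2) (2 * x) x := fun x => by
    simpa using (hasDerivAt_pow 2 x).const_add 1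
  have hdρ : ∀ x, HasDerivAt ρ (x / ρ x) x := fun x => by
    have := (hdin x).sqrt (hpos x).ne'
    refine this.congr_deriv ?_
    have h := (hρ0 x).ne'
    change 2 * x / (2 * ρ x) = x / ρ x
    field_simp
  have hdθ : ∀ x, HasDerivAt θ (c * (2 * x / ρ x ^ 2)) x := fun x => by
    have := ((hdin x).log (hpos x).ne').const_mul c
    rw [hρ2]
    exact this
  have hhh : hh = fun x => ρ x * Q (θ x) := rfl
  have hd1 : ∀ x, HasDerivAt hh (x / ρ x * R (θ x)) x := fun x => by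
    have hQd : HasDerivAt Q (deriv Q (θ x)) (θ x) :=
      (hQs.differentiable (by simp)).differentiableAt.hasDerivAt
    have := (hdρ x).mul (hQd.comp x (hdθ x))
    rw [hhh]
    refine this.congr_deriv ?_
    have h := (hρ0 x).ne'
    simp only [hR, Function.comp]
    field_simp
  have hderiv : deriv hh = fun x => x / ρ x * R (θ x) := funext fun x => (hd1 x).deriv
  have hd2 : ∀ x, HasDerivAt (deriv hh)
      (1 / ρ x ^ 3 * R (θ x) + x / ρ x * (deriv R (θ x) * (c * (2 * x / ρ x ^ 2)))) x := fun x => by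
    have hRd : HasDerivAt R (deriv R (θ x)) (θ x) :=
      (hRs.differentiable (by simp)).differentiableAt.hasDerivAt
    have hq : HasDerivAt (fun x => x / ρ x) (1 / ρ x ^ 3) x := by
      refine ((hasDerivAt_id x).div (hdρ x) (hρ0 x).ne').congr_deriv ?_
      have h := (hρ0 x).ne'
      have h2 := hρ2 x
      simp only [id]
      field_simp
      linarith
    rw [hderiv]
    exact hq.mul (hRd.comp x (hdθ x))
  have habs : ∀ x, |x / ρ x| ≤ 1 := fun x => by
    rw [abs_div, abs_of_pos (hρ0 x), div_le_one (hρ0 x)]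
    apply abs_le_of_sq_le_sq _ (hρ0 x).le |> le_of_eq_of_le rfl
    rw [hρ2]
    linarith
  refine ⟨B + 2 * c * B' + 1, by positivity, fun x => ⟨?_, ?_⟩⟩
  · rw [(hd1 x).deriv, abs_mul]
    have := mul_le_mul (habs x) (hB (θ x)) (abs_nonneg _) zero_le_one
    nlinarith [mul_nonneg (mul_nonneg (by norm_num : (0:ℝ) ≤ 2) hc0.le) hB'0]
  · rw [(hd2 x).deriv]
    refine (abs_add_le _ _).trans ?_
    have h1 : |1 / ρ x ^ 3 * R (θ x)| ≤ B := by
      rw [abs_mul]
      have h3 : |1 / ρ x ^ 3| ≤ 1 := by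
        rw [abs_of_pos (by have := hρ0 x; positivity), div_le_one (by have := hρ0 x; positivity)]
        exact one_le_pow₀ (hρ1 x)
      have := mul_le_mul h3 (hB (θ x)) (abs_nonneg _) zero_le_one
      linarith
    have h2 : |x / ρ x * (deriv R (θ x) * (c * (2 * x / ρ x ^ 2)))| ≤ 2 * c * B' := by
      have h4 : |x / ρ x ^ 2| ≤ 1 := by
        have h5 : x / ρ x ^ 2 = x / ρ x * (1 / ρ x) := by
          have h := (hρ0 x).ne'
          field_simp
        rw [h5, abs_mul]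
        have h6 : |1 / ρ x| ≤ 1 := by
          rw [abs_of_pos (by have := hρ0 x; positivity), div_le_one (hρ0 x)]
          exact hρ1 x
        have := mul_le_mul (habs x) h6 (abs_nonneg _) zero_le_one
        linarith
      have h7 : x / ρ x * (deriv R (θ x) * (c * (2 * x / ρ x ^ 2))) =
          2 * c * ((x / ρ x) * ((x / ρ x ^ 2) * deriv R (θ x))) := by ring
      rw [h7, abs_mul, abs_of_pos (by positivity : (0:ℝ) < 2 * c)]
      refine mul_le_mul_of_nonneg_left ?_ (by positivity)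
      rw [abs_mul, abs_mul]
      have h8 := mul_le_mul h4 (hB' (θ x)) (abs_nonneg _) zero_le_one
      have h9 := mul_le_mul (habs x) h8 (by positivity) zero_le_one
      linarith
    linarith

end RFO
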