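import Pool.Agent.Lib.MP_63b676_gt.Defs

/-!
# Leaf Ex2: Ricci curvature at least -1 for `f = exp (-(ε h))` (Mathlib only)

Proof. `ds 1 g = deriv g` (`ds φ h p = deriv h p / φ p`, `φ = 1`). `f' = -ε h' f`, `f'' = ((ε h')² - ε h'') f` with
`|ε h'| ≤ 1/4`, `|ε h''| ≤ 1/4`, so `f''/f ≤ 1/16 + 1/4 < 1/2` and `f''/f ≥ ...` is not needed; `f ≤ 1` (`h ≥ 0`), so
`|f'| ≤ 1/4 < 1`. `ricR = -2 f''/f ≥ -1`; `ricT = -f''/f + (1 - f'²)/f² ≥ -1/2 + 0`.
-/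

namespace RFO

open Set Filter Topology
open scoped ContDiff

theorem ric_example {h : ℝ → ℝ} (hs : ContDiff ℝ ∞ h) (h0 : ∀ x, 0 ≤ h x) {M ε : ℝ} (hε : 0 < ε)
    (hM : ε * M ≤ 1 / 4) (hb : ∀ x, |deriv h x| ≤ M ∧ |deriv (deriv h) x| ≤ M) (x : ℝ) :
    -1 ≤ ricR (fun _ => 1) (fun x => Real.exp (-(ε * h x))) x ∧
      -1 ≤ ricT (fun _ => 1) (fun x => Real.exp (-(ε * h x))) x := by
  have hd1 : Differentiable ℝ h := (contDiff_infty_iff_deriv.1 hs).1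
  have hd2 : Differentiable ℝ (deriv h) := (contDiff_infty_iff_deriv.1 (contDiff_infty_iff_deriv.1 hs).2).1
  have e1 : ∀ y, HasDerivAt (fun x => Real.exp (-(ε * h x))) (Real.exp (-(ε * h y)) * -(ε * deriv h y)) y :=
    fun y => (((hd1 y).hasDerivAt.const_mul ε).neg).exp
  have e2 : ds (fun _ => 1) (fun x => Real.exp (-(ε * h x))) = fun y => Real.exp (-(ε * h y)) * -(ε * deriv h y) := by
    funext y
    unfold ds
    rw [(e1 y).deriv, div_one]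
  have e3 : HasDerivAt (fun y => Real.exp (-(ε * h y)) * -(ε * deriv h y))
      (Real.exp (-(ε * h x)) * -(ε * deriv h x) * -(ε * deriv h x) +
        Real.exp (-(ε * h x)) * -(ε * deriv (deriv h) x)) x :=
    (e1 x).mul (((hd2 x).hasDerivAt.const_mul ε).neg)
  have e4 : ds (fun _ => 1) (ds (fun _ => 1) (fun x => Real.exp (-(ε * h x)))) x =
      Real.exp (-(ε * h x)) * ((ε * deriv h x) ^ 2 - ε * deriv (deriv h) x) := by
    rw [e2]
    unfold ds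
    rw [e3.deriv, div_one]
    ring
  obtain ⟨a, ha⟩ : ∃ a : ℝ, a = ε * deriv h x := ⟨_, rfl⟩
  obtain ⟨b, hb'⟩ : ∃ b : ℝ, b = ε * deriv (deriv h) x := ⟨_, rfl⟩
  obtain ⟨f, hf⟩ : ∃ f : ℝ, f = Real.exp (-(ε * h x)) := ⟨_, rfl⟩
  have ha1 : |a| ≤ 1 / 4 := by
    rw [ha, abs_mul, abs_of_pos hε]
    exact (mul_le_mul_of_nonneg_left (hb x).1 hε.le).trans hM
  have hb1 : |b| ≤ 1 / 4 := by
    rw [hb', abs_mul, abs_of_pos hε]
    exact (mul_le_mul_of_nonneg_left (hb x).2 hε.le).trans hM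
  have hf0 : 0 < f := by rw [hf]; exact Real.exp_pos _
  have hf1 : f ≤ 1 := by
    rw [hf]
    exact Real.exp_le_one_iff.2 (neg_nonpos.2 (mul_nonneg hε.le (h0 x)))
  have ha2 := abs_le.1 ha1
  have hb2 := abs_le.1 hb1
  have ha3 : a ^ 2 ≤ 1 / 16 := by nlinarith
  unfold ricR ricT
  rw [e4, e2]
  beta_reduce
  rw [← ha, ← hb', ← hf]
  have hq : f * (a ^ 2 - b) / f = a ^ 2 - b := by
    rw [mul_div_assoc, mul_comm, div_mul_cancel₀ _ hf0.ne']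
  constructor
  · rw [mul_div_assoc, hq]
    linarith
  · rw [neg_div, hq]
    have h1 : 0 ≤ (1 - (f * -a) ^ 2) / f ^ 2 := by
      refine div_nonneg ?_ (sq_nonneg f)
      have h2 : (f * -a) ^ 2 = f ^ 2 * a ^ 2 := by ring
      rw [h2]
      have h3 : f ^ 2 ≤ 1 := by nlinarith
      nlinarith [sq_nonneg a, sq_nonneg f]
    linarith

end RFO
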