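import Pool.Agent.Lib.MP_63b676_gt.Ex1

/-!
# Leaf Ex3: necks and cores of the example

Proof. Put `n = j` large. For `1 + x² = 4 * 16^n` (`x_n = √(4 * 16^n - 1)`): `log (1+x²) = (2n+1) log 4`, so the angle is
`(2n+1) π`, `cos = -1`, `S (1) = 1`, `hh x_n = √(4 * 16^n) = 2 * 4^n`. So `exp (-(ε hh x_n)) ≤ a` for `n` large.
For `16^n / 2 ≤ 1 + x² ≤ 2 * 16^n`: `log (1+x²)/log 4 ∈ [2n - 1/2, 2n + 1/2]`, the angle lies in `[2πn - π/2, 2πn + π/2]`,
`cos ≥ 0`, `S (-cos) = 0` (`Real.smoothTransition.zero_of_nonpos`), so `f = 1`. For the bulge between `x_(n-1)` and `x_n`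
(`n ≥ 1`): core `[c, d]` with `c = √(16^n/2 - 1)`, `d = √(2 * 16^n - 1)`: `x_(n-1) = √(16^n/4 - 1) ≤ c < d ≤ x_n`
and `x_n - x_(n-1) ≤ 2 * 4^n`, `c ≤ (3/4) 4^n` (`1/2 ≤ 9/16`), `d ≥ (5/4) 4^n` (`2 * 16^n - 1 ≥ (25/16) 16^n`,
since `16^n ≥ 16`), so `4 (d - c) ≥ 2 * 4^n`. Take `x = x_n`, `y = x_(n+1)`, `z = x_(n+2)`.
-/

namespace RFO

open Set Filter Topology
open scoped ContDiff

private theorem Ex3_log (m : ℕ) : Real.log ((16:ℝ) ^ m) = 2 * m * Real.log 4 := by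
  rw [Real.log_pow, show (16:ℝ) = 4 ^ 2 by norm_num, Real.log_pow]
  push_cast
  ring

private theorem Ex3_log4 : 0 < Real.log 4 := Real.log_pos (by norm_num)

private theorem Ex3_log2 : Real.log 4 = 2 * Real.log 2 := by
  rw [show (4:ℝ) = 2 ^ 2 by norm_num, Real.log_pow]
  norm_num

private theorem Ex3_pow (n : ℕ) : (16:ℝ) ^ n = ((4:ℝ) ^ n) ^ 2 := by
  rw [← pow_mul, mul_comm, pow_mul]
  norm_num

private theorem Ex3_neck (n : ℕ) : hh (Real.sqrt (4 * 16 ^ n - 1)) = 2 * 4 ^ n := by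
  have h1 : (1:ℝ) ≤ 16 ^ n := one_le_pow₀ (by norm_num)
  have h2 : 1 + Real.sqrt (4 * 16 ^ n - 1) ^ 2 = 4 * 16 ^ n := by
    rw [Real.sq_sqrt (by linarith)]
    ring
  have h3 : Real.log (4 * 16 ^ n) = (2 * n + 1) * Real.log 4 := by
    rw [Real.log_mul (by norm_num) (by positivity), Ex3_log]
    ring
  have h4 : Real.pi / Real.log 4 * ((2 * n + 1) * Real.log 4) = n * (2 * Real.pi) + Real.pi := by
    have := Ex3_log4.ne'
    field_simp
    try ring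
  have h5 : Real.sqrt (4 * 16 ^ n) = 2 * 4 ^ n := by
    rw [Ex3_pow, show (4:ℝ) * (4 ^ n) ^ 2 = (2 * 4 ^ n) ^ 2 by ring]
    exact Real.sqrt_sq (by positivity)
  unfold hh
  rw [h2, h3, h4, Real.cos_nat_mul_two_pi_add_pi, neg_neg, Real.smoothTransition.one, h5, mul_one]

private theorem Ex3_core (m : ℕ) (z : ℝ) (h1 : (16:ℝ) ^ m / 2 ≤ 1 + z ^ 2) (h2 : 1 + z ^ 2 ≤ 2 * 16 ^ m) :
    hh z = 0 := by
  have hp : (0:ℝ) < 16 ^ m := by positivity
  have hl := Ex3_log4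
  have h3 : 2 * m * Real.log 4 - Real.log 4 / 2 ≤ Real.log (1 + z ^ 2) := by
    have h4 := Real.log_le_log (by positivity) h1
    rw [Real.log_div hp.ne' (by norm_num), Ex3_log] at h4
    rw [Ex3_log2] at h4 ⊢
    linarith
  have h5 : Real.log (1 + z ^ 2) ≤ 2 * m * Real.log 4 + Real.log 4 / 2 := by
    have h4 := Real.log_le_log (by positivity) h2
    rw [Real.log_mul (by norm_num) hp.ne', Ex3_log] at h4
    rw [Ex3_log2] at h4 ⊢
    linarith
  have hq : 0 < Real.pi / Real.log 4 := div_pos Real.pi_pos hl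
  have h6 : -(Real.pi / 2) ≤ Real.pi / Real.log 4 * Real.log (1 + z ^ 2) - m * (2 * Real.pi) := by
    have h7 := mul_le_mul_of_nonneg_left h3 hq.le
    have h8 : Real.pi / Real.log 4 * (2 * m * Real.log 4 - Real.log 4 / 2) =
        m * (2 * Real.pi) - Real.pi / 2 := by
      have := hl.ne'
      field_simp
    linarith
  have h9 : Real.pi / Real.log 4 * Real.log (1 + z ^ 2) - m * (2 * Real.pi) ≤ Real.pi / 2 := by
    have h7 := mul_le_mul_of_nonneg_left h5 hq.le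
    have h8 : Real.pi / Real.log 4 * (2 * m * Real.log 4 + Real.log 4 / 2) =
        m * (2 * Real.pi) + Real.pi / 2 := by
      have := hl.ne'
      field_simp
    linarith
  have h10 := Real.cos_nonneg_of_neg_pi_div_two_le_of_le h6 h9
  rw [Real.cos_sub_nat_mul_two_pi] at h10
  unfold hh
  rw [Real.smoothTransition.zero_of_nonpos (by linarith), mul_zero]

private theorem Ex3_bulge {ε a : ℝ} (n : ℕ) (h0 : ∀ k, n ≤ k → Real.exp (-(ε * (2 * 4 ^ k))) ≤ a) :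
    Bulge (fun x => Real.exp (-(ε * hh x))) a (Real.sqrt (4 * 16 ^ n - 1))
      (Real.sqrt (4 * 16 ^ (n + 1) - 1)) := by
  have hn : (1:ℝ) ≤ 16 ^ n := one_le_pow₀ (by norm_num)
  have h4 : (0:ℝ) < 4 ^ n := by positivity
  have hs : (16:ℝ) ^ (n + 1) = 16 * 16 ^ n := by ring
  have hs4 : (4:ℝ) ^ (n + 1) = 4 * 4 ^ n := by ring
  have he := Ex3_pow n
  refine ⟨?_, ?_, Real.sqrt (16 ^ (n + 1) / 2 - 1), Real.sqrt (2 * 16 ^ (n + 1) - 1), ?_, ?_, ?_, ?_, ?_⟩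
  · show Real.exp (-(ε * hh _)) ≤ a
    rw [Ex3_neck]
    exact h0 n le_rfl
  · show Real.exp (-(ε * hh _)) ≤ a
    rw [Ex3_neck]
    exact h0 (n + 1) (Nat.le_succ n)
  · exact Real.sqrt_le_sqrt (by rw [hs]; linarith)
  · exact Real.sqrt_lt_sqrt (by rw [hs]; linarith) (by rw [hs]; linarith)
  · exact Real.sqrt_le_sqrt (by rw [hs]; linarith)
  · intro z hz
    have hz0 : 0 ≤ z := le_trans (Real.sqrt_nonneg _) hz.1
    have h1 : (16:ℝ) ^ (n + 1) / 2 - 1 ≤ z ^ 2 := (Real.sqrt_le_left hz0).1 hz.1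
    have h2 : z ^ 2 ≤ 2 * 16 ^ (n + 1) - 1 :=
      (Real.le_sqrt hz0 (by rw [hs]; linarith)).1 hz.2
    show Real.exp (-(ε * hh z)) = 1
    rw [Ex3_core (n + 1) z (by linarith) (by linarith), mul_zero, neg_zero, Real.exp_zero]
  · have h1 : Real.sqrt (4 * 16 ^ (n + 1) - 1) ≤ 2 * 4 ^ (n + 1) := by
      rw [Real.sqrt_le_left (by positivity), hs, hs4, he]
      nlinarith
    have h2 : Real.sqrt (16 ^ (n + 1) / 2 - 1) ≤ 3 / 4 * 4 ^ (n + 1) := by
      rw [Real.sqrt_le_left (by positivity), hs, hs4, he]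
      nlinarith
    have h3 : 5 / 4 * 4 ^ (n + 1) ≤ Real.sqrt (2 * 16 ^ (n + 1) - 1) := by
      refine Real.le_sqrt_of_sq_le ?_
      rw [hs, hs4]
      rw [he] at hn ⊢
      nlinarith
    have h5 := Real.sqrt_nonneg (4 * 16 ^ n - 1)
    linarith

theorem bulges_example {ε a : ℝ} (hε : 0 < ε) (ha : 0 < a) :
    ∃ x y z : ℝ, Bulge (fun x => Real.exp (-(ε * hh x))) a x y ∧
      Bulge (fun x => Real.exp (-(ε * hh x))) a y z := by
  have h1 : ∃ n : ℕ, ∀ k, n ≤ k → Real.exp (-(ε * (2 * 4 ^ k))) ≤ a := by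
    obtain ⟨n, hn⟩ := exists_nat_gt (-Real.log a / (2 * ε))
    refine ⟨n, fun k hk => ?_⟩
    refine (Real.le_log_iff_exp_le ha).1 ?_
    rw [div_lt_iff₀ (by positivity)] at hn
    have h2 : (n:ℝ) ≤ 4 ^ k := by
      have h3 : k < 4 ^ k := Nat.lt_pow_self (by norm_num)
      have h4 : (n:ℝ) ≤ k := by exact_mod_cast hk
      have h5 : (k:ℝ) ≤ 4 ^ k := by exact_mod_cast h3.le
      linarith
    nlinarith
  obtain ⟨n, hn⟩ := h1
  exact ⟨_, _, _, Ex3_bulge n hn, Ex3_bulge (n + 1) fun k hk => hn k (by omega)⟩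

end RFO
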