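import Pool.Agent.Lib.MP_63b676_gt.Defs

/-!
# Leaf Geo0: the equator (Mathlib only)

* `arc_norm`, `arc_chord`: `EuclideanSpace.norm_eq`, `Fin.sum_univ_three`; `‖arc θ - arc 0‖² = (cos θ - 1)² + sin² θ
  = 2 - 2 cos θ = 4 sin² (θ/2)`.
* `arc_lim`: `2 |sin (θ/2)| / θ → 1` (`Real.hasDerivAt_sin` at `0`, slope; `sin (θ/2) ≥ 0` for small `θ > 0`).
* `arc_curve`: `τ ↦ arc (τ θ)` is smooth with derivative of norm `|θ|` (`(-sin, cos, 0)` times `θ`).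
-/

namespace RFO

open Set Filter Topology
open scoped ContDiff

theorem arc_norm (θ : ℝ) : ‖arc θ‖ = 1 := by
  rw [EuclideanSpace.norm_eq, Fin.sum_univ_three]
  have h0 : (arc θ) 0 = Real.cos θ := rfl
  have h1 : (arc θ) 1 = Real.sin θ := rfl
  have h2 : (arc θ) 2 = 0 := rfl
  rw [h0, h1, h2, Real.norm_eq_abs, Real.norm_eq_abs, sq_abs, sq_abs, Real.cos_sq_add_sin_sq]
  simp

theorem arc_chord (θ : ℝ) : ‖arc θ - arc 0‖ = 2 * |Real.sin (θ / 2)| := by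
  rw [EuclideanSpace.norm_eq, Fin.sum_univ_three]
  have h0 : (arc θ - arc 0) 0 = Real.cos θ - Real.cos 0 := rfl
  have h1 : (arc θ - arc 0) 1 = Real.sin θ - Real.sin 0 := rfl
  have h2 : (arc θ - arc 0) 2 = 0 - 0 := rfl
  rw [h0, h1, h2, Real.norm_eq_abs, Real.norm_eq_abs, Real.norm_eq_abs, sq_abs, sq_abs, sq_abs, Real.cos_zero,
    Real.sin_zero]
  have h3 : Real.cos θ = 1 - 2 * Real.sin (θ / 2) ^ 2 := by
    have h4 := Real.cos_two_mul (θ / 2)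
    rw [mul_div_cancel₀ θ (two_ne_zero)] at h4
    have h5 := Real.sin_sq_add_cos_sq (θ / 2)
    linarith
  have h6 := Real.sin_sq_add_cos_sq θ
  have h7 : (Real.cos θ - 1) ^ 2 + (Real.sin θ - 0) ^ 2 + (0 - 0) ^ 2 = (2 * |Real.sin (θ / 2)|) ^ 2 := by
    rw [mul_pow, sq_abs]
    have h8 : (Real.cos θ - 1) ^ 2 + (Real.sin θ - 0) ^ 2 + (0 - 0) ^ 2 = 2 - 2 * Real.cos θ := by
      linarith [h6]
    rw [h8, h3]
    ring
  rw [h7, Real.sqrt_sq (by positivity)]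

theorem arc_lim : Tendsto (fun θ : ℝ => ‖arc θ - arc 0‖ / θ) (𝓝[>] 0) (𝓝 1) := by
  have h1 : Tendsto (fun θ : ℝ => Real.sinc (θ / 2)) (𝓝[>] 0) (𝓝 1) := by
    have h2 : ContinuousAt (fun θ : ℝ => Real.sinc (θ / 2)) 0 :=
      (Real.continuous_sinc.comp (continuous_id.div_const 2)).continuousAt
    have h3 : Tendsto (fun θ : ℝ => Real.sinc (θ / 2)) (𝓝 0) (𝓝 (Real.sinc (0 / 2))) := h2
    rw [zero_div, Real.sinc_zero] at h3
    exact h3.mono_left nhdsWithin_le_nhds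
  refine h1.congr' ?_
  have h4 : ∀ᶠ θ : ℝ in 𝓝[>] 0, θ < Real.pi :=
    nhdsWithin_le_nhds (Iio_mem_nhds Real.pi_pos)
  filter_upwards [h4, self_mem_nhdsWithin] with θ hθ1 hθ0
  have hθ0' : 0 < θ := hθ0
  rw [arc_chord, abs_of_nonneg (Real.sin_nonneg_of_nonneg_of_le_pi (by linarith) (by linarith)),
    Real.sinc_of_ne_zero (by positivity)]
  field_simp

theorem arc_smooth (θ : ℝ) : ContDiff ℝ 1 (fun τ : ℝ => arc (τ * θ)) := by
  rw [contDiff_euclidean]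
  intro i
  fin_cases i
  · exact Real.contDiff_cos.comp (contDiff_id.mul contDiff_const)
  · exact Real.contDiff_sin.comp (contDiff_id.mul contDiff_const)
  · exact contDiff_const

theorem arc_speed (θ τ : ℝ) : ‖deriv (fun τ : ℝ => arc (τ * θ)) τ‖ = |θ| := by
  have hd : DifferentiableAt ℝ (fun τ : ℝ => arc (τ * θ)) τ :=
    (arc_smooth θ).differentiable one_ne_zero τ
  have hc : ∀ i : Fin 3, (deriv (fun τ : ℝ => arc (τ * θ)) τ) i = deriv (fun τ : ℝ => (arc (τ * θ)) i) τ := by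
    intro i
    have h := ((EuclideanSpace.proj (𝕜 := ℝ) i : E3 →L[ℝ] ℝ).hasFDerivAt.comp_hasDerivAt τ hd.hasDerivAt).deriv
    exact h.symm
  have hm : HasDerivAt (fun τ : ℝ => τ * θ) θ τ := by
    simpa using (hasDerivAt_id τ).mul_const θ
  have e0 : deriv (fun τ : ℝ => (arc (τ * θ)) 0) τ = -Real.sin (τ * θ) * θ := by
    have h0 : (fun τ : ℝ => (arc (τ * θ)) 0) = fun τ : ℝ => Real.cos (τ * θ) := rfl
    rw [h0]
    exact hm.cos.deriv
  have e1 : deriv (fun τ : ℝ => (arc (τ * θ)) 1) τ = Real.cos (τ * θ) * θ := by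
    have h0 : (fun τ : ℝ => (arc (τ * θ)) 1) = fun τ : ℝ => Real.sin (τ * θ) := rfl
    rw [h0]
    exact hm.sin.deriv
  have e2 : deriv (fun τ : ℝ => (arc (τ * θ)) 2) τ = 0 := by
    have : (fun τ : ℝ => (arc (τ * θ)) 2) = fun _ => (0 : ℝ) := rfl
    rw [this, deriv_const]
  rw [EuclideanSpace.norm_eq, Fin.sum_univ_three, hc, hc, hc, e0, e1, e2, Real.norm_eq_abs, Real.norm_eq_abs,
    sq_abs, sq_abs]
  have h := Real.sin_sq_add_cos_sq (τ * θ)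
  have h9 : (-Real.sin (τ * θ) * θ) ^ 2 + (Real.cos (τ * θ) * θ) ^ 2 + ‖(0 : ℝ)‖ ^ 2 = θ ^ 2 := by
    rw [norm_zero]
    linear_combination θ ^ 2 * h
  rw [h9, Real.sqrt_sq_eq_abs]

end RFO
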