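import Pool.Agent.Lib.MP_63b676_gt.GAux
import Pool.Agent.Lib.MP_63b676_gt.Geo0

/-!
# Leaf GA: an `O(3)`-invariant metric of `ℝ × S²` is `a(p) dp² + b(p) g_{S²}` (Mathlib only)

`fa g p = g_(p,e)((1,0),(1,0))`, `fb g p = g_(p,e)((0,e'),(0,e'))` with `e = arc 0`, `e' = arc (π/2)` (orthonormal).
Proof. Let `z = (p, ω)`, `‖ω‖ = 1`, `η, ζ ⟂ ω`.
* `g_z((1,0),(0,η)) = 0` and `g_z((0,η),(1,0)) = 0`: the reflection `R` in the hyperplane `η^⊥`
  (`Submodule.reflection`, or for `η = 0` trivial) fixes `ω` (`ω ⟂ η`) and maps `η` to `-η`; invariance and bilinearity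
  (`map_neg`) give `c = -c`.
* `g_z((1,0),(1,0)) = fa g p`: some `R` maps `arc 0` to `ω`: if `ω = arc 0` the identity, else the reflection in
  `(ω - arc 0)^⊥` (it swaps two vectors of the same norm: `Submodule.reflection_sub` or
  `EuclideanGeometry`/`LinearIsometryEquiv` lemmas).
* `g_z((0,η),(0,η)) = fb g p ‖η‖²`: there is `R` with `R (arc 0) = ω` and `R e' = η/‖η‖`: first `R₁` with `R₁ (arc 0) = ω`;
  then `R₁ e' ⟂ ω` is a unit vector; if it is not `η/‖η‖ =: n`, the reflection `R₂` in `(n - R₁ e')^⊥` maps `R₁ e'` to `n` and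
  fixes `ω` (which is orthogonal to both). `R = R₂ ∘ R₁`.
* polarisation (symmetry of `g_z` on tangent vectors): `g_z((0,η),(0,ζ)) = fb g p ⟪η, ζ⟫`.
* bilinearity: `X = (X.1, X.2) = X.1 • (1,0) + (0, X.2)`.
`fa_pos`, `fb_pos`: `IsMetric.pos` (the vectors are tangent and not zero).
-/

namespace RFO

open Set Filter Topology
open scoped ContDiff

noncomputable def fa (g : Form) (p : ℝ) : ℝ := g (p, arc 0) (1, 0) (1, 0)

noncomputable def fb (g : Form) (p : ℝ) : ℝ :=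
  g (p, arc 0) (0, arc (Real.pi / 2)) (0, arc (Real.pi / 2))

private theorem GA_swap (u v : E3) (h : ‖u‖ = ‖v‖) :
    ∃ R : E3 ≃ₗᵢ[ℝ] E3, R u = v ∧ ∀ w, inner ℝ (u - v) w = 0 → R w = w :=
  ⟨(ℝ ∙ (u - v))ᗮ.reflection, Submodule.reflection_sub h, fun _ hw =>
    Submodule.reflection_mem_subspace_eq_self
      (Submodule.mem_orthogonal_singleton_iff_inner_right.2 hw)⟩

private theorem GA_neg (u : E3) :
    ∃ R : E3 ≃ₗᵢ[ℝ] E3, R u = -u ∧ ∀ w, inner ℝ u w = 0 → R w = w :=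
  ⟨(ℝ ∙ u)ᗮ.reflection, Submodule.reflection_orthogonalComplement_singleton_eq_neg u, fun _ hw =>
    Submodule.reflection_mem_subspace_eq_self
      (Submodule.mem_orthogonal_singleton_iff_inner_right.2 hw)⟩

private theorem GA_orth : inner ℝ (arc 0) (arc (Real.pi / 2)) = 0 := by
  have h := PiLp.inner_apply (𝕜 := ℝ) (arc 0) (arc (Real.pi / 2))
  rw [Fin.sum_univ_three] at h
  have a0 : (arc 0) 0 = Real.cos 0 := rfl
  have a1 : (arc 0) 1 = Real.sin 0 := rfl
  have a2 : (arc 0) 2 = 0 := rfl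
  have b0 : (arc (Real.pi / 2)) 0 = Real.cos (Real.pi / 2) := rfl
  have b1 : (arc (Real.pi / 2)) 1 = Real.sin (Real.pi / 2) := rfl
  have b2 : (arc (Real.pi / 2)) 2 = 0 := rfl
  rw [h, a0, a1, a2, b0, b1, b2, Real.cos_pi_div_two, Real.sin_zero]
  simp

private theorem GA_tan1 (z : V) (a : ℝ) : Tan z (a, 0) := by
  unfold Tan
  exact inner_zero_right _

private theorem GA_mem (p : ℝ) : (p, arc 0) ∈ MS := arc_norm 0

theorem fa_pos {g : Form} (hg : IsMetric g) (p : ℝ) : 0 < fa g p := by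
  refine hg.pos (p, arc 0) (GA_mem p) (1, 0) (GA_tan1 _ _) fun h => ?_
  exact one_ne_zero (congrArg Prod.fst h)

theorem fb_pos {g : Form} (hg : IsMetric g) (p : ℝ) : 0 < fb g p := by
  refine hg.pos (p, arc 0) (GA_mem p) (0, arc (Real.pi / 2)) GA_orth fun h => ?_
  have h1 : arc (Real.pi / 2) = 0 := congrArg Prod.snd h
  have h2 := arc_norm (Real.pi / 2)
  rw [h1, norm_zero] at h2
  exact zero_ne_one h2

private theorem GA_add2 {g : Form} (hg : IsMetric g) (z X Y Z : V) :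
    g z X (Y + Z) = g z X Y + g z X Z := by
  rw [hg.symm z X (Y + Z), hg.add, hg.symm z Y X, hg.symm z Z X]

private theorem GA_smul2 {g : Form} (hg : IsMetric g) (z : V) (r : ℝ) (X Y : V) :
    g z X (r • Y) = r * g z X Y := by
  rw [hg.symm z X (r • Y), hg.smul, hg.symm z Y X]

private theorem GA_neg1 {g : Form} (hg : IsMetric g) (z X Y : V) : g z (-X) Y = -g z X Y := by
  rw [← neg_one_smul ℝ X, hg.smul, neg_one_mul]

private theorem GA_neg2 {g : Form} (hg : IsMetric g) (z X Y : V) : g z X (-Y) = -g z X Y := by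
  rw [← neg_one_smul ℝ Y, GA_smul2 hg, neg_one_mul]

private theorem GA_cross {g : Form} (hg : IsMetric g) (hi : Invariant g) (z : V) (hz : z ∈ MS) (η : E3)
    (hη : inner ℝ z.2 η = 0) : g z (1, 0) (0, η) = 0 ∧ g z (0, η) (1, 0) = 0 := by
  obtain ⟨R, h1, h2⟩ := GA_neg η
  have h3 : R z.2 = z.2 := h2 _ (by rw [real_inner_comm]; exact hη)
  have hz' : act R z = z := by
    unfold act
    rw [h3]
  have ha : act R ((1, 0) : V) = (1, 0) := by
    unfold act
    show ((1 : ℝ), R (0 : E3)) = (1, 0)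
    rw [map_zero]
  have hb : act R ((0, η) : V) = -(0, η) := by
    unfold act
    show ((0 : ℝ), R η) = -((0, η) : V)
    rw [h1, Prod.neg_mk, neg_zero]
  have h4 := hi R z hz (1, 0) (0, η) (GA_tan1 _ _) hη
  have h5 := hi R z hz (0, η) (1, 0) hη (GA_tan1 _ _)
  rw [hz', ha, hb, GA_neg2 hg] at h4
  rw [hz', ha, hb, GA_neg1 hg] at h5
  constructor
  · linarith
  · linarith

private theorem GA_radial {g : Form} (hi : Invariant g) (z : V) (hz : z ∈ MS) :
    g z (1, 0) (1, 0) = fa g z.1 := by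
  obtain ⟨R, h1, -⟩ := GA_swap (arc 0) z.2 (by rw [arc_norm]; exact hz.symm)
  have h2 := hi R (z.1, arc 0) (GA_mem z.1) (1, 0) (1, 0) (GA_tan1 _ _) (GA_tan1 _ _)
  have hz' : act R (z.1, arc 0) = z := by
    unfold act
    show (z.1, R (arc 0)) = z
    rw [h1]
  have ha : act R ((1, 0) : V) = (1, 0) := by
    unfold act
    show ((1 : ℝ), R (0 : E3)) = (1, 0)
    rw [map_zero]
  rw [hz', ha] at h2
  exact h2

private theorem GA_unit {g : Form} (hi : Invariant g) (z : V) (hz : z ∈ MS) (n : E3) (hn : ‖n‖ = 1)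
    (ho : inner ℝ z.2 n = 0) : g z (0, n) (0, n) = fb g z.1 := by
  obtain ⟨R, h1, -⟩ := GA_swap (arc 0) z.2 (by rw [arc_norm]; exact hz.symm)
  have h2 := hi R (z.1, arc 0) (GA_mem z.1) (0, arc (Real.pi / 2)) (0, arc (Real.pi / 2))
    GA_orth GA_orth
  have hz' : act R (z.1, arc 0) = z := by
    unfold act
    show (z.1, R (arc 0)) = z
    rw [h1]
  obtain ⟨m, hm⟩ : ∃ m, m = R (arc (Real.pi / 2)) := ⟨_, rfl⟩
  have ha : act R ((0, arc (Real.pi / 2)) : V) = (0, m) := by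
    rw [hm]
    rfl
  rw [hz', ha] at h2
  have hm1 : ‖m‖ = 1 := by rw [hm, R.norm_map, arc_norm]
  have hmo : inner ℝ m z.2 = 0 := by
    rw [hm, ← h1, R.inner_map_map, real_inner_comm]
    exact GA_orth
  obtain ⟨R', h3, h4⟩ := GA_swap m n (by rw [hm1, hn])
  have h5 : R' z.2 = z.2 := by
    refine h4 _ ?_
    rw [inner_sub_left, hmo, real_inner_comm, ho, sub_zero]
  have h6 := hi R' z hz (0, m) (0, m) (by unfold Tan; rw [real_inner_comm]; exact hmo)
    (by unfold Tan; rw [real_inner_comm]; exact hmo)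
  have hz2 : act R' z = z := by
    unfold act
    rw [h5]
  have hb : act R' ((0, m) : V) = (0, n) := by
    unfold act
    show ((0 : ℝ), R' m) = (0, n)
    rw [h3]
  rw [hz2, hb] at h6
  rw [h6, h2]
  rfl

private theorem GA_sq {g : Form} (hg : IsMetric g) (hi : Invariant g) (z : V) (hz : z ∈ MS) (η : E3)
    (ho : inner ℝ z.2 η = 0) : g z (0, η) (0, η) = fb g z.1 * inner ℝ η η := by
  by_cases h0 : η = 0
  · have h1 : ((0, η) : V) = (0 : ℝ) • (0 : V) := by rw [h0, zero_smul]; rfl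
    rw [h1, hg.smul, h0, inner_zero_right, mul_zero, zero_mul]
  · have hn0 : ‖η‖ ≠ 0 := norm_ne_zero_iff.2 h0
    obtain ⟨n, hn⟩ : ∃ n, n = ‖η‖⁻¹ • η := ⟨_, rfl⟩
    have hη : η = ‖η‖ • n := by
      rw [hn, smul_smul, mul_inv_cancel₀ hn0, one_smul]
    have hn1 : ‖n‖ = 1 := by
      rw [hn, norm_smul, norm_inv, norm_norm, inv_mul_cancel₀ hn0]
    have hno : inner ℝ z.2 n = 0 := by
      rw [hn, inner_smul_right, ho, mul_zero]
    have h1 := GA_unit hi z hz n hn1 hno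
    have h2 : ((0, η) : V) = ‖η‖ • (0, n) := by
      rw [Prod.smul_mk, smul_zero, ← hη]
    rw [h2, hg.smul, GA_smul2 hg, h1, real_inner_self_eq_norm_sq]
    ring

private theorem GA_pol {g : Form} (hg : IsMetric g) (hi : Invariant g) (z : V) (hz : z ∈ MS)
    (η ζ : E3) (hη : inner ℝ z.2 η = 0) (hζ : inner ℝ z.2 ζ = 0) :
    g z (0, η) (0, ζ) = fb g z.1 * inner ℝ η ζ := by
  have h1 := GA_sq hg hi z hz η hη
  have h2 := GA_sq hg hi z hz ζ hζ
  have h3 := GA_sq hg hi z hz (η + ζ) (by rw [inner_add_right, hη, hζ, add_zero])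
  have h4 : ((0, η + ζ) : V) = (0, η) + (0, ζ) := by
    rw [Prod.mk_add_mk, add_zero]
  rw [h4, hg.add, GA_add2 hg, GA_add2 hg, h1, h2,
    hg.symm z (0, ζ) (0, η), inner_add_left, inner_add_right, inner_add_right,
    real_inner_comm η ζ] at h3
  linarith

theorem inv_form {g : Form} (hg : IsMetric g) (hi : Invariant g) (z : V) (hz : z ∈ MS) (X Y : V)
    (hX : Tan z X) (hY : Tan z Y) :
    g z X Y = fa g z.1 * (X.1 * Y.1) + fb g z.1 * inner ℝ X.2 Y.2 := by
  have e1 : ∀ W : V, W = W.1 • ((1, 0) : V) + (0, W.2) := by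
    intro W
    rw [Prod.smul_mk, smul_zero, smul_eq_mul, mul_one, Prod.mk_add_mk, add_zero, zero_add]
  have h1 := GA_cross hg hi z hz X.2 hX
  have h2 := GA_cross hg hi z hz Y.2 hY
  have h3 := GA_radial hi z hz
  have h4 := GA_pol hg hi z hz X.2 Y.2 hX hY
  have h5 : g z X Y = g z (X.1 • ((1, 0) : V) + (0, X.2)) (Y.1 • ((1, 0) : V) + (0, Y.2)) := by
    rw [← e1, ← e1]
  rw [h5, hg.add, GA_add2 hg, GA_add2 hg, hg.smul, hg.smul, GA_smul2 hg, GA_smul2 hg, h1.2, h2.1, h3, h4]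
  ring

end RFO
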