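import Pool.Agent.Lib.MP_63b676_gt.GDefs
import Pool.Agent.Lib.MP_63b676_gt.Defs

namespace RFO

open Set Filter Topology
open scoped ContDiff

/-- the diagonal matrix `diag(φ², ψ², ψ² sin² θ)` -/
noncomputable def wmat (φ ψ : ℝ → ℝ) (x : Fin 3 → ℝ) : Matrix (Fin 3) (Fin 3) ℝ :=
  Matrix.diagonal ![φ (x 0) ^ 2, ψ (x 0) ^ 2, ψ (x 0) ^ 2 * Real.sin (x 1) ^ 2]

end RFO
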