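import Pool.Agent.Lib.MP_63b676_gt.GAux

/-!
# Leaf GB: the coordinate matrix (Mathlib only)

The three partial derivatives of `sph`: `(1, 0)`, `(0, (cos θ cos ϕ, cos θ sin ϕ, -sin θ))`,
`(0, (-sin θ sin ϕ, sin θ cos ϕ, 0))` (`HasDerivAt` in the product and in `EuclideanSpace`: `HasDerivAt.prodMk`,
`hasDerivAt_pi` through `EuclideanSpace.equiv` / `PiLp` continuous linear equivalence; `Function.update` is simplified by
`fin_cases`/`simp`). They are tangent to `M` at `sph x ∈ MS` and pairwise orthogonal, with squares `1`, `1`, `sin² θ`.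
* `gmat_eq`: so `gmat g x i j = wform φ ψ (sph x) (∂_i) (∂_j) = wmat φ ψ x i j`.
-/

namespace RFO

open Set Filter Topology
open scoped ContDiff

theorem sph_mem (x : Fin 3 → ℝ) : sph x ∈ MS := by
  show ‖(sph x).2‖ = 1
  unfold sph
  rw [EuclideanSpace.norm_eq, Fin.sum_univ_three, Real.sqrt_eq_one]
  simp only [Real.norm_eq_abs, sq_abs]
  show (Real.sin (x 1) * Real.cos (x 2)) ^ 2 + (Real.sin (x 1) * Real.sin (x 2)) ^ 2 +
    Real.cos (x 1) ^ 2 = 1
  have h1 := Real.sin_sq_add_cos_sq (x 1)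
  have h2 := Real.sin_sq_add_cos_sq (x 2)
  calc (Real.sin (x 1) * Real.cos (x 2)) ^ 2 + (Real.sin (x 1) * Real.sin (x 2)) ^ 2 +
      Real.cos (x 1) ^ 2 = Real.sin (x 1) ^ 2 * (Real.sin (x 2) ^ 2 + Real.cos (x 2) ^ 2) +
        Real.cos (x 1) ^ 2 := by ring
    _ = 1 := by rw [h2, mul_one, h1]

private theorem GB_vec (a b c : ℝ) : (!₂[a, b, c] : E3) =
    a • (!₂[1, 0, 0] : E3) + b • (!₂[0, 1, 0] : E3) + c • (!₂[0, 0, 1] : E3) := by
  ext i
  fin_cases i <;> simp

private theorem GB_der {a b c : ℝ → ℝ} {a' b' c' t : ℝ} (ha : HasDerivAt a a' t)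
    (hb : HasDerivAt b b' t) (hc : HasDerivAt c c' t) :
    HasDerivAt (fun s => (!₂[a s, b s, c s] : E3)) !₂[a', b', c'] t := by
  have e : (fun s => (!₂[a s, b s, c s] : E3)) = fun s => a s • (!₂[1, 0, 0] : E3) +
      b s • (!₂[0, 1, 0] : E3) + c s • (!₂[0, 0, 1] : E3) := by
    funext s
    exact GB_vec _ _ _
  rw [e, GB_vec a' b' c']
  exact ((ha.smul_const _).add (hb.smul_const _)).add (hc.smul_const _)

theorem pd_sph0 (x : Fin 3 → ℝ) : pd sph 0 x = (1, 0) := by
  unfold pd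
  have e : (fun s => sph (Function.update x 0 s)) = fun s : ℝ =>
      (s, !₂[Real.sin (x 1) * Real.cos (x 2), Real.sin (x 1) * Real.sin (x 2), Real.cos (x 1)]) := by
    funext s
    simp [sph, Function.update]
  rw [e]
  exact ((hasDerivAt_id (x 0)).prodMk (hasDerivAt_const _ _)).deriv

theorem pd_sph1 (x : Fin 3 → ℝ) : pd sph 1 x =
    (0, !₂[Real.cos (x 1) * Real.cos (x 2), Real.cos (x 1) * Real.sin (x 2), -Real.sin (x 1)]) := by
  unfold pd
  have e : (fun s => sph (Function.update x 1 s)) = fun s : ℝ =>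
      (x 0, !₂[Real.sin s * Real.cos (x 2), Real.sin s * Real.sin (x 2), Real.cos s]) := by
    funext s
    simp [sph, Function.update]
  rw [e]
  exact ((hasDerivAt_const (x 1) (x 0)).prodMk (GB_der ((Real.hasDerivAt_sin _).mul_const _)
    ((Real.hasDerivAt_sin _).mul_const _) (Real.hasDerivAt_cos _))).deriv

theorem pd_sph2 (x : Fin 3 → ℝ) : pd sph 2 x =
    (0, !₂[-(Real.sin (x 1) * Real.sin (x 2)), Real.sin (x 1) * Real.cos (x 2), 0]) := by
  unfold pd
  have e : (fun s => sph (Function.update x 2 s)) = fun s : ℝ =>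
      (x 0, !₂[Real.sin (x 1) * Real.cos s, Real.sin (x 1) * Real.sin s, Real.cos (x 1)]) := by
    funext s
    simp [sph, Function.update]
  rw [e]
  have h1 : HasDerivAt (fun s => Real.sin (x 1) * Real.cos s)
      (-(Real.sin (x 1) * Real.sin (x 2))) (x 2) := by
    have h2 := (Real.hasDerivAt_cos (x 2)).const_mul (Real.sin (x 1))
    rwa [mul_neg] at h2
  exact ((hasDerivAt_const (x 2) (x 0)).prodMk (GB_der h1
    ((Real.hasDerivAt_sin _).const_mul _) (hasDerivAt_const _ _))).deriv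

private theorem GB_inner (a b c a' b' c' : ℝ) :
    inner ℝ (!₂[a, b, c] : E3) (!₂[a', b', c'] : E3) = a * a' + b * b' + c * c' := by
  simp [PiLp.inner_apply, Fin.sum_univ_three, mul_comm]

theorem pd_sph_tan (x : Fin 3 → ℝ) (i : Fin 3) : Tan (sph x) (pd sph i x) := by
  unfold Tan
  fin_cases i
  · show inner ℝ (sph x).2 (pd sph 0 x).2 = 0
    rw [pd_sph0]
    exact inner_zero_right _
  · show inner ℝ (sph x).2 (pd sph 1 x).2 = 0
    rw [pd_sph1]
    unfold sph
    simp only [GB_inner]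
    have h2 := Real.sin_sq_add_cos_sq (x 2)
    calc Real.sin (x 1) * Real.cos (x 2) * (Real.cos (x 1) * Real.cos (x 2)) +
          Real.sin (x 1) * Real.sin (x 2) * (Real.cos (x 1) * Real.sin (x 2)) +
          Real.cos (x 1) * -Real.sin (x 1) = Real.sin (x 1) * Real.cos (x 1) *
            (Real.sin (x 2) ^ 2 + Real.cos (x 2) ^ 2 - 1) := by ring
      _ = 0 := by rw [h2, sub_self, mul_zero]
  · show inner ℝ (sph x).2 (pd sph 2 x).2 = 0
    rw [pd_sph2]
    unfold sph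
    simp only [GB_inner]
    ring

theorem gmat_eq {g : Form} {φ ψ : ℝ → ℝ}
    (h : ∀ z ∈ MS, ∀ X Y, Tan z X → Tan z Y → g z X Y = wform φ ψ z X Y) :
    gmat g = wmat φ ψ := by
  funext x
  have h2 := Real.sin_sq_add_cos_sq (x 2)
  have h1 := Real.sin_sq_add_cos_sq (x 1)
  have hg : ∀ i j, gmat g x i j = wform φ ψ (sph x) (pd sph i x) (pd sph j x) := fun i j =>
    h _ (sph_mem x) _ _ (pd_sph_tan x i) (pd_sph_tan x j)
  have hw : ∀ X Y : V, wform φ ψ (sph x) X Y = φ (x 0) ^ 2 * (X.1 * Y.1) +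
      ψ (x 0) ^ 2 * inner ℝ X.2 Y.2 := fun X Y => rfl
  have e00 : gmat g x 0 0 = φ (x 0) ^ 2 := by
    rw [hg, hw, pd_sph0]
    simp
  have e01 : gmat g x 0 1 = 0 := by
    rw [hg, hw, pd_sph0, pd_sph1]
    simp
  have e02 : gmat g x 0 2 = 0 := by
    rw [hg, hw, pd_sph0, pd_sph2]
    simp
  have e10 : gmat g x 1 0 = 0 := by
    rw [hg, hw, pd_sph0, pd_sph1]
    simp
  have e20 : gmat g x 2 0 = 0 := by
    rw [hg, hw, pd_sph0, pd_sph2]
    simp
  have e11 : gmat g x 1 1 = ψ (x 0) ^ 2 := by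
    rw [hg, hw, pd_sph1]
    simp only [GB_inner]
    have e : Real.cos (x 1) * Real.cos (x 2) * (Real.cos (x 1) * Real.cos (x 2)) +
        Real.cos (x 1) * Real.sin (x 2) * (Real.cos (x 1) * Real.sin (x 2)) +
        -Real.sin (x 1) * -Real.sin (x 1) =
        Real.cos (x 1) ^ 2 * (Real.sin (x 2) ^ 2 + Real.cos (x 2) ^ 2) + Real.sin (x 1) ^ 2 := by
      ring
    rw [e, h2, mul_one, add_comm (Real.cos (x 1) ^ 2), h1]
    ring
  have e12 : gmat g x 1 2 = 0 := by
    rw [hg, hw, pd_sph1, pd_sph2]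
    simp only [GB_inner]
    ring
  have e21 : gmat g x 2 1 = 0 := by
    rw [hg, hw, pd_sph1, pd_sph2]
    simp only [GB_inner]
    ring
  have e22 : gmat g x 2 2 = ψ (x 0) ^ 2 * Real.sin (x 1) ^ 2 := by
    rw [hg, hw, pd_sph2]
    simp only [GB_inner]
    have e : -(Real.sin (x 1) * Real.sin (x 2)) * -(Real.sin (x 1) * Real.sin (x 2)) +
        Real.sin (x 1) * Real.cos (x 2) * (Real.sin (x 1) * Real.cos (x 2)) + 0 * 0 =
        Real.sin (x 1) ^ 2 * (Real.sin (x 2) ^ 2 + Real.cos (x 2) ^ 2) := by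
      ring
    rw [e, h2, mul_one]
    ring
  ext i j
  unfold wmat
  fin_cases i <;> fin_cases j
  · exact e00
  · exact e01
  · exact e02
  · exact e10
  · exact e11
  · exact e12
  · exact e20
  · exact e21
  · exact e22

end RFO
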