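import Pool.Agent.Lib.MP_63b676_gt.GAux

/-!
# Leaf GC: the Christoffel symbols of `diag(φ², ψ², ψ² sin² θ)` (Mathlib only)

`gam φ ψ k i j` is the explicit table. Proof: `(wmat φ ψ x)⁻¹ = diagonal of the inverses` (`Matrix.inv_diagonal`, all
entries are units when `sin θ ≠ 0`), so `Γ^k_ij = (1/2) (1/g_kk) (∂_i g_jk + ∂_j g_ik - ∂_k g_ij)`; the entries of `wmat` depend on
`x 0` and `x 1` only; their partial derivatives: `∂_0 φ² = 2 φ φ'`, `∂_0 ψ² = 2 ψ ψ'`, `∂_0 (ψ² sin²) = 2 ψ ψ' sin²`,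
`∂_1 (ψ² sin² θ) = 2 ψ² sin θ cos θ`, all others `0` (off-diagonal entries are `0`). 27 cases: `fin_cases`, `simp`.
Suggestion: first a lemma with the partial derivatives of `fun y => wmat φ ψ y i j` in all cases.
-/

namespace RFO

open Set Filter Topology
open scoped ContDiff

/-- The table of the Christoffel symbols `Γ^k_ij`. -/
noncomputable def gam (φ ψ : ℝ → ℝ) (k i j : Fin 3) (x : Fin 3 → ℝ) : ℝ :=
  ![![![deriv φ (x 0) / φ (x 0), 0, 0],
      ![0, -(ψ (x 0) * deriv ψ (x 0)) / φ (x 0) ^ 2, 0],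
      ![0, 0, -(ψ (x 0) * deriv ψ (x 0)) * Real.sin (x 1) ^ 2 / φ (x 0) ^ 2]],
    ![![0, deriv ψ (x 0) / ψ (x 0), 0],
      ![deriv ψ (x 0) / ψ (x 0), 0, 0],
      ![0, 0, -(Real.sin (x 1) * Real.cos (x 1))]],
    ![![0, 0, deriv ψ (x 0) / ψ (x 0)],
      ![0, 0, Real.cos (x 1) / Real.sin (x 1)],
      ![deriv ψ (x 0) / ψ (x 0), Real.cos (x 1) / Real.sin (x 1), 0]]] k i j

/-- The table of the partial derivatives `∂_k g_ij`. -/
private noncomputable def GC_T (φ ψ : ℝ → ℝ) (x : Fin 3 → ℝ) (k i j : Fin 3) : ℝ :=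
  if i = j then
    (![![2 * (φ (x 0) * deriv φ (x 0)), 2 * (ψ (x 0) * deriv ψ (x 0)),
        2 * (ψ (x 0) * deriv ψ (x 0)) * Real.sin (x 1) ^ 2],
      ![0, 0, ψ (x 0) ^ 2 * (2 * (Real.sin (x 1) * Real.cos (x 1)))],
      ![0, 0, 0]] : Fin 3 → Fin 3 → ℝ) k i
  else 0

private theorem GC_pd {φ ψ : ℝ → ℝ} (hφ : ContDiff ℝ ∞ φ) (hψ : ContDiff ℝ ∞ ψ) (x : Fin 3 → ℝ)
    (k i j : Fin 3) : pd (fun y => wmat φ ψ y i j) k x = GC_T φ ψ x k i j := by
  have dφ : ∀ s, HasDerivAt φ (deriv φ s) s := fun s =>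
    ((hφ.differentiable (by simp)) s).hasDerivAt
  have dψ : ∀ s, HasDerivAt ψ (deriv ψ s) s := fun s =>
    ((hψ.differentiable (by simp)) s).hasDerivAt
  have e1 : ∀ (f : ℝ → ℝ), (∀ s, HasDerivAt f (deriv f s) s) → ∀ s,
      HasDerivAt (fun s => f s ^ 2) (2 * (f s * deriv f s)) s := by
    intro f hf s
    have h := (hf s).pow 2
    refine h.congr_deriv ?_
    push_cast
    ring
  by_cases hij : i = j
  · subst hij
    unfold pd GC_T
    rw [if_pos rfl]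
    have hw : ∀ y : Fin 3 → ℝ, wmat φ ψ y i i =
        (![φ (y 0) ^ 2, ψ (y 0) ^ 2, ψ (y 0) ^ 2 * Real.sin (y 1) ^ 2] : Fin 3 → ℝ) i :=
      fun y => Matrix.diagonal_apply_eq _ _
    simp only [hw]
    have u00 : ∀ s : ℝ, Function.update x 0 s 0 = s := fun s => Function.update_self 0 s x
    have u01 : ∀ s : ℝ, Function.update x 0 s 1 = x 1 := fun s =>
      Function.update_of_ne (by decide) s x
    have u10 : ∀ s : ℝ, Function.update x 1 s 0 = x 0 := fun s =>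
      Function.update_of_ne (by decide) s x
    have u11 : ∀ s : ℝ, Function.update x 1 s 1 = s := fun s => Function.update_self 1 s x
    have u20 : ∀ s : ℝ, Function.update x 2 s 0 = x 0 := fun s =>
      Function.update_of_ne (by decide) s x
    have u21 : ∀ s : ℝ, Function.update x 2 s 1 = x 1 := fun s =>
      Function.update_of_ne (by decide) s x
    fin_cases k
    · simp only [Fin.zero_eta, u00, u01]
      fin_cases i
      · exact (e1 φ dφ (x 0)).deriv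
      · exact (e1 ψ dψ (x 0)).deriv
      · exact ((e1 ψ dψ (x 0)).mul_const _).deriv
    · simp only [Fin.mk_one, u10, u11]
      fin_cases i
      · exact deriv_const _ _
      · exact deriv_const _ _
      · have h := (e1 Real.sin (fun s => by rw [Real.deriv_sin]; exact Real.hasDerivAt_sin s) (x 1)).const_mul
          (ψ (x 0) ^ 2)
        rw [Real.deriv_sin] at h
        exact h.deriv
    · simp only [Fin.reduceFinMk, u20, u21]
      fin_cases i <;> exact deriv_const _ _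
  · unfold pd GC_T
    rw [if_neg hij]
    have hw : ∀ y : Fin 3 → ℝ, wmat φ ψ y i j = 0 := fun y => Matrix.diagonal_apply_ne _ hij
    simp only [hw]
    exact deriv_const _ _

private theorem GC_inv {φ ψ : ℝ → ℝ} (hφ0 : ∀ p, 0 < φ p) (hψ0 : ∀ p, 0 < ψ p) (x : Fin 3 → ℝ)
    (hx : Real.sin (x 1) ≠ 0) : (wmat φ ψ x)⁻¹ = Matrix.diagonal
      ![(φ (x 0) ^ 2)⁻¹, (ψ (x 0) ^ 2)⁻¹, (ψ (x 0) ^ 2 * Real.sin (x 1) ^ 2)⁻¹] := by
  have h1 := (hφ0 (x 0)).ne'
  have h2 := (hψ0 (x 0)).ne'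
  apply Matrix.inv_eq_right_inv
  unfold wmat
  rw [Matrix.diagonal_mul_diagonal, ← Matrix.diagonal_one]
  congr 1
  funext i
  fin_cases i
  · exact mul_inv_cancel₀ (pow_ne_zero 2 h1)
  · exact mul_inv_cancel₀ (pow_ne_zero 2 h2)
  · exact mul_inv_cancel₀ (mul_ne_zero (pow_ne_zero 2 h2) (pow_ne_zero 2 hx))

theorem chr_wmat {φ ψ : ℝ → ℝ} (hφ : ContDiff ℝ ∞ φ) (hψ : ContDiff ℝ ∞ ψ) (hφ0 : ∀ p, 0 < φ p)
    (hψ0 : ∀ p, 0 < ψ p) (x : Fin 3 → ℝ) (hx : Real.sin (x 1) ≠ 0) (k i j : Fin 3) :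
    chr (wmat φ ψ) k i j x = gam φ ψ k i j x := by
  have h1 := (hφ0 (x 0)).ne'
  have h2 := (hψ0 (x 0)).ne'
  unfold chr
  rw [GC_inv hφ0 hψ0 x hx, Finset.sum_eq_single k (fun l _ hl => by
    rw [Matrix.diagonal_apply_ne _ hl.symm, zero_mul]) (fun h => absurd (Finset.mem_univ _) h),
    Matrix.diagonal_apply_eq, GC_pd hφ hψ, GC_pd hφ hψ, GC_pd hφ hψ]
  fin_cases k <;> fin_cases i <;> fin_cases j <;> simp [GC_T, gam] <;> field_simp

end RFO
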