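import Pool.Agent.Lib.MP_63b676_gt.GC

/-!
# Leaf GD: the Ricci tensor of `diag(φ², ψ², ψ² sin² θ)`

Proof. `chr_wmat` holds on the open set `sin θ ≠ 0`, so `pd (chr ..) m x = pd (gam ..) m x` there (`Filter.EventuallyEq.deriv_eq`;
along the line `s ↦ Function.update x m s` the condition holds for `s` near `x m`). Put `P = φ'/φ`, `Q = ψ'/ψ`,
`N = ψ ψ'/φ²`, `c = cos θ / sin θ`. Nonzero symbols: `Γ^0_00 = P`, `Γ^0_11 = -N`, `Γ^0_22 = -N sin²`, `Γ^1_01 = Q`, `Γ^1_22 = -sin cos`,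
`Γ^2_02 = Q`, `Γ^2_12 = c`. Partial derivatives: `∂_0 P = (φ'' φ - φ'²)/φ²`, `∂_0 Q = (ψ'' ψ - ψ'²)/ψ²`,
`∂_0 N = (ψ'² + ψ ψ'')/φ² - 2 ψ ψ' φ'/φ³`, `∂_1 (sin cos) = cos² - sin²`, `∂_1 c = -1/sin²`, `∂_1 (N sin²) = 2 N sin cos`.
Result: `R_00 = -2 Q' + 2 P Q - 2 Q²`, `R_11 = -N' - P N + 1`... all others by the formula; in the end
`R_00 = ricR φ²`, `R_11 = ricT ψ²`, `R_22 = ricT ψ² sin²`, off-diagonal entries `0`, where
`ds φ (ds φ ψ) p = (ψ'' φ - ψ' φ')/φ³` (expand `deriv (fun p => deriv ψ p / φ p) p`). `fin_cases i j`, `simp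
[Fin.sum_univ_three, gam]`, `field_simp`, `ring` with `sin² + cos² = 1`.
-/

namespace RFO

open Set Filter Topology
open scoped ContDiff

theorem ds_ds {φ ψ : ℝ → ℝ} (hφ : ContDiff ℝ ∞ φ) (hψ : ContDiff ℝ ∞ ψ) (hφ0 : ∀ p, 0 < φ p)
    (p : ℝ) : ds φ (ds φ ψ) p =
      (deriv (deriv ψ) p * φ p - deriv ψ p * deriv φ p) / φ p ^ 3 := by
  have h1 : DifferentiableAt ℝ φ p := (hφ.differentiable (by simp)).differentiableAt
  have h2 : DifferentiableAt ℝ (deriv ψ) p :=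
    ((contDiff_infty_iff_deriv.1 hψ).2.differentiable (by simp)).differentiableAt
  have h3 : deriv (ds φ ψ) p =
      (deriv (deriv ψ) p * φ p - deriv ψ p * deriv φ p) / φ p ^ 2 :=
    deriv_fun_div h2 h1 (hφ0 p).ne'
  have h0 := (hφ0 p).ne'
  unfold ds at h3 ⊢
  rw [h3]
  field_simp

/-- The factor depending on `x 0`. -/
private noncomputable def GD_a (φ ψ : ℝ → ℝ) : Fin 3 → Fin 3 → Fin 3 → ℝ → ℝ :=
  ![![![fun p => deriv φ p / φ p, fun _ => 0, fun _ => 0],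
      ![fun _ => 0, fun p => -(ψ p * deriv ψ p) / φ p ^ 2, fun _ => 0],
      ![fun _ => 0, fun _ => 0, fun p => -(ψ p * deriv ψ p) / φ p ^ 2]],
    ![![fun _ => 0, fun p => deriv ψ p / ψ p, fun _ => 0],
      ![fun p => deriv ψ p / ψ p, fun _ => 0, fun _ => 0],
      ![fun _ => 0, fun _ => 0, fun _ => -1]],
    ![![fun _ => 0, fun _ => 0, fun p => deriv ψ p / ψ p],
      ![fun _ => 0, fun _ => 0, fun _ => 1],
      ![fun p => deriv ψ p / ψ p, fun _ => 1, fun _ => 0]]]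

/-- Its derivative. -/
private noncomputable def GD_a' (φ ψ : ℝ → ℝ) : Fin 3 → Fin 3 → Fin 3 → ℝ → ℝ :=
  ![![![fun p => (deriv (deriv φ) p * φ p - deriv φ p * deriv φ p) / φ p ^ 2, fun _ => 0,
        fun _ => 0],
      ![fun _ => 0, fun p => (-(deriv ψ p * deriv ψ p + ψ p * deriv (deriv ψ) p) * φ p ^ 2 -
          -(ψ p * deriv ψ p) * (2 * φ p * deriv φ p)) / (φ p ^ 2) ^ 2, fun _ => 0],
      ![fun _ => 0, fun _ => 0, fun p => (-(deriv ψ p * deriv ψ p + ψ p * deriv (deriv ψ) p) *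
          φ p ^ 2 - -(ψ p * deriv ψ p) * (2 * φ p * deriv φ p)) / (φ p ^ 2) ^ 2]],
    ![![fun _ => 0, fun p => (deriv (deriv ψ) p * ψ p - deriv ψ p * deriv ψ p) / ψ p ^ 2,
        fun _ => 0],
      ![fun p => (deriv (deriv ψ) p * ψ p - deriv ψ p * deriv ψ p) / ψ p ^ 2, fun _ => 0,
        fun _ => 0],
      ![fun _ => 0, fun _ => 0, fun _ => 0]],
    ![![fun _ => 0, fun _ => 0,
        fun p => (deriv (deriv ψ) p * ψ p - deriv ψ p * deriv ψ p) / ψ p ^ 2],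
      ![fun _ => 0, fun _ => 0, fun _ => 0],
      ![fun p => (deriv (deriv ψ) p * ψ p - deriv ψ p * deriv ψ p) / ψ p ^ 2, fun _ => 0,
        fun _ => 0]]]

/-- The factor depending on `x 1`. -/
private noncomputable def GD_b : Fin 3 → Fin 3 → Fin 3 → ℝ → ℝ :=
  ![![![fun _ => 1, fun _ => 0, fun _ => 0],
      ![fun _ => 0, fun _ => 1, fun _ => 0],
      ![fun _ => 0, fun _ => 0, fun t => Real.sin t ^ 2]],
    ![![fun _ => 0, fun _ => 1, fun _ => 0],
      ![fun _ => 1, fun _ => 0, fun _ => 0],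
      ![fun _ => 0, fun _ => 0, fun t => Real.sin t * Real.cos t]],
    ![![fun _ => 0, fun _ => 0, fun _ => 1],
      ![fun _ => 0, fun _ => 0, fun t => Real.cos t / Real.sin t],
      ![fun _ => 1, fun t => Real.cos t / Real.sin t, fun _ => 0]]]

/-- Its derivative. -/
private noncomputable def GD_b' : Fin 3 → Fin 3 → Fin 3 → ℝ → ℝ :=
  ![![![fun _ => 0, fun _ => 0, fun _ => 0],
      ![fun _ => 0, fun _ => 0, fun _ => 0],
      ![fun _ => 0, fun _ => 0, fun t => 2 * Real.sin t * Real.cos t]],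
    ![![fun _ => 0, fun _ => 0, fun _ => 0],
      ![fun _ => 0, fun _ => 0, fun _ => 0],
      ![fun _ => 0, fun _ => 0, fun t => Real.cos t * Real.cos t + Real.sin t * -Real.sin t]],
    ![![fun _ => 0, fun _ => 0, fun _ => 0],
      ![fun _ => 0, fun _ => 0,
        fun t => (-Real.sin t * Real.sin t - Real.cos t * Real.cos t) / Real.sin t ^ 2],
      ![fun _ => 0, fun t => (-Real.sin t * Real.sin t - Real.cos t * Real.cos t) / Real.sin t ^ 2,
        fun _ => 0]]]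

private theorem GD_gam (φ ψ : ℝ → ℝ) (k i j : Fin 3) (y : Fin 3 → ℝ) :
    gam φ ψ k i j y = GD_a φ ψ k i j (y 0) * GD_b k i j (y 1) := by
  fin_cases k <;> fin_cases i <;> fin_cases j <;> simp [gam, GD_a, GD_b]
  ring

private theorem GD_da {φ ψ : ℝ → ℝ} (hφ : ContDiff ℝ ∞ φ) (hψ : ContDiff ℝ ∞ ψ)
    (hφ0 : ∀ p, 0 < φ p) (hψ0 : ∀ p, 0 < ψ p) (k i j : Fin 3) (p : ℝ) :
    HasDerivAt (GD_a φ ψ k i j) (GD_a' φ ψ k i j p) p := by
  have h1 : HasDerivAt φ (deriv φ p) p := ((hφ.differentiable (by simp)) p).hasDerivAt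
  have h2 : HasDerivAt ψ (deriv ψ p) p := ((hψ.differentiable (by simp)) p).hasDerivAt
  have h3 : HasDerivAt (deriv φ) (deriv (deriv φ) p) p :=
    (((contDiff_infty_iff_deriv.1 hφ).2.differentiable (by simp)) p).hasDerivAt
  have h4 : HasDerivAt (deriv ψ) (deriv (deriv ψ) p) p :=
    (((contDiff_infty_iff_deriv.1 hψ).2.differentiable (by simp)) p).hasDerivAt
  have e1 := h3.fun_div h1 (hφ0 p).ne'
  have e2 := h4.fun_div h2 (hψ0 p).ne'
  have e0 : HasDerivAt (fun p => φ p ^ 2) (2 * φ p * deriv φ p) p := by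
    have := h1.fun_pow 2
    simpa using this
  have e3 := (h2.fun_mul h4).fun_neg.fun_div e0 (pow_ne_zero 2 (hφ0 p).ne')
  have z : ∀ c : ℝ, HasDerivAt (fun _ : ℝ => c) 0 p := fun c => hasDerivAt_const p c
  fin_cases k <;> fin_cases i <;> fin_cases j <;>
    first
      | exact z _
      | exact e1
      | exact e2
      | exact e3

private theorem GD_db (k i j : Fin 3) {t : ℝ} (ht : Real.sin t ≠ 0) :
    HasDerivAt (GD_b k i j) (GD_b' k i j t) t := by
  have h1 := Real.hasDerivAt_sin t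
  have h2 := Real.hasDerivAt_cos t
  have e0 : HasDerivAt (fun p => Real.sin p ^ 2) (2 * Real.sin t * Real.cos t) t := by
    have := h1.fun_pow 2
    simpa using this
  have e1 := h1.fun_mul h2
  have e2 := h2.fun_div h1 ht
  have z : ∀ c : ℝ, HasDerivAt (fun _ : ℝ => c) 0 t := fun c => hasDerivAt_const t c
  fin_cases k <;> fin_cases i <;> fin_cases j <;>
    first
      | exact z _
      | exact e0
      | exact e1
      | exact e2

private theorem GD_pd {φ ψ : ℝ → ℝ} (hφ : ContDiff ℝ ∞ φ) (hψ : ContDiff ℝ ∞ ψ)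
    (hφ0 : ∀ p, 0 < φ p) (hψ0 : ∀ p, 0 < ψ p) (x : Fin 3 → ℝ) (hx : Real.sin (x 1) ≠ 0)
    (k i j m : Fin 3) : pd (chr (wmat φ ψ) k i j) m x =
      ![GD_a' φ ψ k i j (x 0) * GD_b k i j (x 1), GD_a φ ψ k i j (x 0) * GD_b' k i j (x 1), 0] m := by
  have hev : (fun s => chr (wmat φ ψ) k i j (Function.update x m s)) =ᶠ[𝓝 (x m)]
      fun s => GD_a φ ψ k i j (Function.update x m s 0) * GD_b k i j (Function.update x m s 1) := by
    have hc : ContinuousAt (fun s => Real.sin (Function.update x m s 1)) (x m) := by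
      have hu : Continuous (fun s : ℝ => Function.update x m s) :=
        continuous_const.update m continuous_id
      exact (Real.continuous_sin.comp (continuous_pi_iff.1 hu 1)).continuousAt
    have h0 : Real.sin (Function.update x m (x m) 1) ≠ 0 := by
      rw [Function.update_eq_self]
      exact hx
    filter_upwards [hc.eventually_ne h0] with s hs
    rw [chr_wmat hφ hψ hφ0 hψ0 _ hs, GD_gam]
  have h1 : pd (chr (wmat φ ψ) k i j) m x = deriv (fun s =>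
      GD_a φ ψ k i j (Function.update x m s 0) * GD_b k i j (Function.update x m s 1)) (x m) :=
    hev.deriv_eq
  rw [h1]
  fin_cases m
  · exact ((GD_da hφ hψ hφ0 hψ0 k i j (x 0)).mul_const (GD_b k i j (x 1))).deriv
  · exact ((GD_db k i j hx).const_mul (GD_a φ ψ k i j (x 0))).deriv
  · exact deriv_const (x 2) (GD_a φ ψ k i j (x 0) * GD_b k i j (x 1))

theorem ric_wmat {φ ψ : ℝ → ℝ} (hφ : ContDiff ℝ ∞ φ) (hψ : ContDiff ℝ ∞ ψ) (hφ0 : ∀ p, 0 < φ p)
    (hψ0 : ∀ p, 0 < ψ p) (x : Fin 3 → ℝ) (hx : Real.sin (x 1) ≠ 0) (i j : Fin 3) :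
    ric (wmat φ ψ) i j x =
      Matrix.diagonal ![ricR φ ψ (x 0) * φ (x 0) ^ 2, ricT φ ψ (x 0) * ψ (x 0) ^ 2,
        ricT φ ψ (x 0) * ψ (x 0) ^ 2 * Real.sin (x 1) ^ 2] i j := by
  have hpd := GD_pd hφ hψ hφ0 hψ0 x hx
  have hch : ∀ k i j, chr (wmat φ ψ) k i j x = GD_a φ ψ k i j (x 0) * GD_b k i j (x 1) :=
    fun k i j => by rw [chr_wmat hφ hψ hφ0 hψ0 x hx, GD_gam]
  have h1 := (hφ0 (x 0)).ne'
  have h2 := (hψ0 (x 0)).ne'
  unfold ric
  simp only [hpd, hch, Fin.sum_univ_three]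
  unfold ricR ricT
  rw [ds_ds hφ hψ hφ0]
  unfold ds
  clear hpd hch
  fin_cases i <;> fin_cases j <;> simp [GD_a, GD_a', GD_b, GD_b', Matrix.diagonal]
  all_goals field_simp
  all_goals ring

end RFO
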