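import Pool.Agent.Lib.MP_63b676_gt.Base

/-!
General Riemannian metrics on `M = ℝ × S²`, their distances, Ricci curvature in coordinates, Ricci flow,
`O(3)`-invariance. `M` is the submanifold `‖ω‖ = 1` of `ℝ × E3`.
-/

namespace RFO

open Set Filter Topology
open scoped ContDiff

/-- The ambient space `ℝ × E3` of `M = ℝ × S²`. -/
abbrev V := ℝ × E3

/-- The manifold `M = ℝ × S²`. -/
def MS : Set V := {z | ‖z.2‖ = 1}

/-- `X` is a tangent vector of `M` at the point `z`. -/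
def Tan (z X : V) : Prop := inner ℝ z.2 X.2 = 0

/-- Fields of bilinear forms: `g z X Y` at the point `z`, vectors `X`, `Y`. -/
abbrev Form := V → V → V → ℝ

/-- `g` is a Riemannian metric on `M`: bilinear, symmetric, and positive definite on the tangent spaces of
`M` (every metric on `M` is the restriction of such a `g`). -/
structure IsMetric (g : Form) : Prop where
  symm : ∀ z X Y, g z X Y = g z Y X
  add : ∀ z X Y Z, g z (X + Y) Z = g z X Z + g z Y Z
  smul : ∀ z (r : ℝ) X Y, g z (r • X) Y = r * g z X Y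
  pos : ∀ z ∈ MS, ∀ X, Tan z X → X ≠ 0 → 0 < g z X X

/-- `γ τ`, `0 ≤ τ ≤ 1`, is a `C¹` curve of `M` from `x` to `y`. -/
structure IsPath (γ : ℝ → V) (x y : V) : Prop where
  smooth : ContDiff ℝ 1 γ
  mem : ∀ τ ∈ Icc (0:ℝ) 1, γ τ ∈ MS
  start : γ 0 = x
  finish : γ 1 = y

/-- Length of a curve. -/
noncomputable def glen (g : Form) (γ : ℝ → V) : ℝ :=
  ∫ τ in (0:ℝ)..1, Real.sqrt (g (γ τ) (deriv γ τ) (deriv γ τ))

/-- Riemannian distance: infimum of the lengths of the `C¹` curves of `M`. -/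
noncomputable def gdist (g : Form) (x y : V) : ℝ :=
  sInf {l : ℝ | ∃ γ : ℝ → V, IsPath γ x y ∧ l = glen g γ}

/-- Spherical coordinates `(x₀, x₁, x₂) = (p, θ, ϕ)` of `M`. They cover `M` without the two poles
`ω = (0, 0, ±1)`; they are regular where `sin θ ≠ 0`. -/
noncomputable def sph (x : Fin 3 → ℝ) : V :=
  (x 0, !₂[Real.sin (x 1) * Real.cos (x 2), Real.sin (x 1) * Real.sin (x 2), Real.cos (x 1)])

/-- Partial derivative `∂h / ∂x_k`. -/
noncomputable def pd {E : Type*} [NormedAddCommGroup E] [NormedSpace ℝ E] (h : (Fin 3 → ℝ) → E)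
    (k : Fin 3) (x : Fin 3 → ℝ) : E :=
  deriv (fun s => h (Function.update x k s)) (x k)

/-- The matrix `g_ij` of the metric in the spherical coordinates. -/
noncomputable def gmat (g : Form) (x : Fin 3 → ℝ) : Matrix (Fin 3) (Fin 3) ℝ :=
  Matrix.of fun i j => g (sph x) (pd sph i x) (pd sph j x)

/-- Christoffel symbols `Γ^k_ij` of a matrix valued function `G`. -/
noncomputable def chr (G : (Fin 3 → ℝ) → Matrix (Fin 3) (Fin 3) ℝ) (k i j : Fin 3)
    (x : Fin 3 → ℝ) : ℝ :=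
  1 / 2 * ∑ l, (G x)⁻¹ k l *
    (pd (fun y => G y j l) i x + pd (fun y => G y i l) j x - pd (fun y => G y i j) l x)

/-- Ricci tensor `R_ij = ∂_k Γ^k_ij - ∂_j Γ^k_ik + Γ^k_kl Γ^l_ij - Γ^k_jl Γ^l_ik`. -/
noncomputable def ric (G : (Fin 3 → ℝ) → Matrix (Fin 3) (Fin 3) ℝ) (i j : Fin 3)
    (x : Fin 3 → ℝ) : ℝ :=
  ∑ k, (pd (chr G k i j) k x - pd (chr G k i k) j x) +
    ∑ k, ∑ l, (chr G k k l x * chr G l i j x - chr G k j l x * chr G l i k x)

/-- `Ric(g) ≥ -c g` (in the spherical coordinates, which cover a dense open subset of `M`). -/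
def RicLower (g : Form) (c : ℝ) : Prop :=
  ∀ x : Fin 3 → ℝ, Real.sin (x 1) ≠ 0 → ∀ a : Fin 3 → ℝ,
    -c * ∑ i, ∑ j, gmat g x i j * (a i * a j) ≤ ∑ i, ∑ j, ric (gmat g) i j x * (a i * a j)

/-- `g(t)`, `0 < t < T`, is a smooth family of Riemannian metrics on `M` (complete or not) with
`∂_t g = -2 Ric(g)`. -/
structure IsRicciFlowG (T : ℝ) (g : ℝ → Form) : Prop where
  smooth : ∀ X Y : V,
    ContDiffOn ℝ ∞ (fun q : ℝ × V => g q.1 q.2 X Y) (Ioo 0 T ×ˢ {z : V | z.2 ≠ 0})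
  metric : ∀ t ∈ Ioo 0 T, IsMetric (g t)
  flow : ∀ t ∈ Ioo 0 T, ∀ x : Fin 3 → ℝ, Real.sin (x 1) ≠ 0 → ∀ i j,
    deriv (fun τ => gmat (g τ) x i j) t = -2 * ric (gmat (g t)) i j x

/-- The orthogonal group `O(3)`. -/
abbrev O3 := E3 ≃ₗᵢ[ℝ] E3

/-- The action of `O(3)` on `ℝ × E3`. -/
noncomputable def act (R : O3) (z : V) : V := (z.1, R z.2)

/-- `g` is invariant under the action of `O(3)` on `M`. -/
def Invariant (g : Form) : Prop :=
  ∀ R : O3, ∀ z ∈ MS, ∀ X Y, Tan z X → Tan z Y →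
    g (act R z) (act R X) (act R Y) = g z X Y

/-- The metric `φ(p)² dp² + ψ(p)² g_{S²}`. -/
noncomputable def wform (φ ψ : ℝ → ℝ) : Form := fun z X Y =>
  φ z.1 ^ 2 * (X.1 * Y.1) + ψ z.1 ^ 2 * inner ℝ X.2 Y.2

/-- An `O(3)`-equivariant continuous bijection of `M` onto `X = ℝ × S²`. -/
structure IsEquiv (Φ : V → V) : Prop where
  bij : BijOn Φ MS MS
  cont : ContinuousOn Φ MS
  equi : ∀ R : O3, ∀ z ∈ MS, Φ (act R z) = act R (Φ z)

/-- The flow comes out of `X = (M, h)`: the distances of `g(t)` converge, as `t → 0`, pointwise on `M × M`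
to a distance `d₀`, and `Φ` is an isometry of `(M, d₀)` onto `X`. -/
def ComesOutG (h : Form) (Φ : V → V) (g : ℝ → Form) : Prop :=
  ∀ x ∈ MS, ∀ y ∈ MS, Tendsto (fun t => gdist (g t) x y) (𝓝[>] 0) (𝓝 (gdist h (Φ x) (Φ y)))

/-- Completeness of the metric space `(M, gdist h)`. -/
def CompleteG (h : Form) : Prop :=
  ∀ z : ℕ → V, (∀ n, z n ∈ MS) →
    (∀ ε > 0, ∃ N, ∀ m n, N ≤ m → N ≤ n → gdist h (z m) (z n) < ε) →
    ∃ x ∈ MS, Tendsto (fun n => gdist h (z n) x) atTop (𝓝 0)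

end RFO
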