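import Pool.Agent.Lib.MP_63b676_gt.GAux

/-!
# Leaf GE: lengths and distances (Mathlib only)

* `glen_eq`: for a path `γ` of `M` and `0 < τ < 1` the vector `deriv γ τ` is tangent to `M` at `γ τ`: `‖(γ s).2‖² = 1` near `τ`, so its
  derivative `2 ⟪(γ τ).2, deriv (γ ·).2 τ⟫` vanishes, and `deriv γ τ = (deriv (fun s => (γ s).1) τ, deriv (fun s => (γ s).2) τ)`
  (`HasDerivAt.fst`, `.snd`). So for `0 < τ < 1` the integrands of `glen` and `len` are equal
  (`real_inner_self_eq_norm_sq`, `mul_pow`); two functions equal on `Ioo 0 1` have the same integral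
  (`intervalIntegral.integral_congr_ae` or `integral_Ioc_eq_integral_Ioo`).
* `gdist_eq`: the two sets of lengths coincide (`γ ↔ ((γ ·).1, (γ ·).2)`; `ContDiff.prodMk`, `ContDiff.fst`, `.snd`).
* `rdist_neg`: `w ↦ -w` maps curves to curves of the same length.
-/

namespace RFO

open Set Filter Topology
open scoped ContDiff

theorem glen_eq {g : Form} {φ ψ : ℝ → ℝ}
    (h : ∀ z ∈ MS, ∀ X Y, Tan z X → Tan z Y → g z X Y = wform φ ψ z X Y)
    {γ : ℝ → V} {x y : V} (hγ : IsPath γ x y) :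
    glen g γ = len φ ψ (fun τ => (γ τ).1) (fun τ => (γ τ).2) := by
  have key : ∀ τ ∈ Ioo (0:ℝ) 1, Real.sqrt (g (γ τ) (deriv γ τ) (deriv γ τ)) =
      Real.sqrt ((φ (γ τ).1 * deriv (fun s => (γ s).1) τ) ^ 2 +
        (ψ (γ τ).1 * ‖deriv (fun s => (γ s).2) τ‖) ^ 2) := by
    intro τ hτ
    have hd : HasDerivAt γ (deriv γ τ) τ :=
      ((hγ.smooth.differentiable one_ne_zero).differentiableAt).hasDerivAt
    have hd1 : HasDerivAt (fun s => (γ s).1) (deriv γ τ).1 τ := hd.fst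
    have hd2 : HasDerivAt (fun s => (γ s).2) (deriv γ τ).2 τ := hd.snd
    have hmem : γ τ ∈ MS := hγ.mem τ ⟨hτ.1.le, hτ.2.le⟩
    have htan : Tan (γ τ) (deriv γ τ) := by
      have h1 : HasDerivAt (fun s => inner ℝ (γ s).2 (γ s).2)
          (inner ℝ (γ τ).2 (deriv γ τ).2 + inner ℝ (deriv γ τ).2 (γ τ).2) τ := hd2.inner ℝ hd2
      have h2 : (fun s => inner ℝ (γ s).2 (γ s).2) =ᶠ[𝓝 τ] fun _ => (1 : ℝ) := by
        filter_upwards [Ioo_mem_nhds hτ.1 hτ.2] with s hs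
        have h3 : ‖(γ s).2‖ = 1 := hγ.mem s ⟨hs.1.le, hs.2.le⟩
        rw [real_inner_self_eq_norm_sq, h3, one_pow]
      have h4 : HasDerivAt (fun _ : ℝ => (1 : ℝ))
          (inner ℝ (γ τ).2 (deriv γ τ).2 + inner ℝ (deriv γ τ).2 (γ τ).2) τ :=
        h1.congr_of_eventuallyEq h2.symm
      have h5 := h4.unique (hasDerivAt_const τ (1 : ℝ))
      rw [real_inner_comm (γ τ).2 (deriv γ τ).2] at h5
      unfold Tan
      linarith
    rw [h _ hmem _ _ htan htan, hd1.deriv, hd2.deriv]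
    congr 1
    show φ (γ τ).1 ^ 2 * ((deriv γ τ).1 * (deriv γ τ).1) +
      ψ (γ τ).1 ^ 2 * inner ℝ (deriv γ τ).2 (deriv γ τ).2 = _
    rw [real_inner_self_eq_norm_sq]
    ring
  unfold glen len
  rw [intervalIntegral.integral_of_le zero_le_one, intervalIntegral.integral_of_le zero_le_one,
    MeasureTheory.integral_Ioc_eq_integral_Ioo, MeasureTheory.integral_Ioc_eq_integral_Ioo]
  exact MeasureTheory.setIntegral_congr_fun measurableSet_Ioo key

theorem gdist_eq {g : Form} {φ ψ : ℝ → ℝ}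
    (h : ∀ z ∈ MS, ∀ X Y, Tan z X → Tan z Y → g z X Y = wform φ ψ z X Y) (x y : V) :
    gdist g x y = rdist φ ψ x y := by
  unfold gdist rdist
  congr 1
  ext l
  constructor
  · rintro ⟨γ, hγ, rfl⟩
    exact ⟨fun τ => (γ τ).1, fun τ => (γ τ).2,
      ⟨hγ.smooth.fst, hγ.smooth.snd, fun τ hτ => hγ.mem τ hτ, hγ.start, hγ.finish⟩,
      glen_eq h hγ⟩
  · rintro ⟨p, w, hc, rfl⟩
    have hγ : IsPath (fun τ => (p τ, w τ)) x y :=
      ⟨hc.hp.prodMk hc.hw, fun τ hτ => hc.sph τ hτ, hc.start, hc.finish⟩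
    exact ⟨fun τ => (p τ, w τ), hγ, (glen_eq h hγ).symm⟩

theorem rdist_neg (φ ψ : ℝ → ℝ) (p q : ℝ) (w w' : E3) :
    rdist φ ψ (p, -w) (q, -w') = rdist φ ψ (p, w) (q, w') := by
  have hlen : ∀ (a : ℝ → ℝ) (u : ℝ → E3), len φ ψ a (fun τ => -u τ) = len φ ψ a u := by
    intro a u
    unfold len
    refine intervalIntegral.integral_congr fun τ _ => ?_
    show Real.sqrt ((φ (a τ) * deriv a τ) ^ 2 + (ψ (a τ) * ‖deriv (fun s => -u s) τ‖) ^ 2) = _
    rw [deriv.fun_neg, norm_neg]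
  have hcur : ∀ (a : ℝ → ℝ) (u : ℝ → E3) (v v' : E3), IsCurve a u (p, v) (q, v') →
      IsCurve a (fun τ => -u τ) (p, -v) (q, -v') := by
    intro a u v v' hc
    refine ⟨hc.hp, hc.hw.neg, fun τ hτ => ?_, ?_, ?_⟩
    · rw [norm_neg]
      exact hc.sph τ hτ
    · have h1 := Prod.mk.inj hc.start
      rw [h1.1, h1.2]
    · have h1 := Prod.mk.inj hc.finish
      rw [h1.1, h1.2]
  unfold rdist
  congr 1
  ext l
  constructor
  · rintro ⟨a, u, hc, rfl⟩
    refine ⟨a, fun τ => -u τ, ?_, (hlen a u).symm⟩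
    have h1 := hcur a u _ _ hc
    rwa [neg_neg, neg_neg] at h1
  · rintro ⟨a, u, hc, rfl⟩
    exact ⟨a, fun τ => -u τ, hcur a u _ _ hc, (hlen a u).symm⟩

end RFO
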