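import Pool.Agent.Lib.MP_63b676_gt.GAux
import Pool.Agent.Lib.MP_63b676_gt.Geo0

/-!
# Leaf GF: `O(3)`-equivariant continuous bijections of `ℝ × S²` (Mathlib only)

Proof. Let `e = arc 0`, `Φ (p, e) = (ξ p, η p)`. Every isometry `R` with `R e = e` fixes `η p` (equivariance). Let
`R = Submodule.reflection (ℝ ∙ e)` (the half turn about `e`: `R x = 2 ⟪e, x⟫ e - x`, fixes `e`): `η p = 2 ⟪e, η p⟫ e - η p`, so
`η p = ⟪e, η p⟫ e` and `‖η p‖ = 1`: `η p = s p • e`, `s p = ±1`, `s p = ⟪e, η p⟫` continuous in `p` (`Φ` continuous on `MS`), so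
constant `σ` (a continuous function `ℝ → ℝ` with values in `{1, -1}` is constant: `IsPreconnected`, or intermediate value
theorem). For `z = (p, ω) ∈ MS` some `R` maps `e` to `ω` (reflection in `(ω - e)^⊥`, or the identity if `ω = e`), so
`Φ z = act R (Φ (p, e)) = (ξ p, σ • ω)`. `ξ` is continuous; injective: `ξ p = ξ q` gives `Φ (p, e) = Φ (q, e)`; surjective: for `y` there is
`z ∈ MS` with `Φ z = (y, e)`, so `ξ z.1 = y`.
-/

namespace RFO

open Set Filter Topology
open scoped ContDiff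

private theorem GF_fix {Φ : V → V} (h : IsEquiv Φ) {e : E3} (he : ‖e‖ = 1) (p : ℝ) :
    (Φ (p, e)).2 = inner ℝ e (Φ (p, e)).2 • e := by
  have hR : (Submodule.reflection (Submodule.span ℝ {e})) e = e :=
    Submodule.reflection_mem_subspace_eq_self (Submodule.mem_span_singleton_self e)
  have h1 := h.equi (Submodule.reflection (Submodule.span ℝ {e})) (p, e) he
  have h2 : act (Submodule.reflection (Submodule.span ℝ {e})) (p, e) = (p, e) := by
    unfold act
    simp only [hR]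
  rw [h2] at h1
  have h3 : (Φ (p, e)).2 = (Submodule.reflection (Submodule.span ℝ {e})) (Φ (p, e)).2 :=
    congrArg Prod.snd h1
  rw [Submodule.reflection_singleton_apply, he] at h3
  simp only [RCLike.ofReal_real_eq_id, id_eq, one_pow, div_one] at h3
  have h4 : (2 : ℝ) • (Φ (p, e)).2 = (2 : ℝ) • (inner ℝ e (Φ (p, e)).2 • e) := by
    rw [two_smul, two_smul]
    rw [two_smul] at h3
    exact eq_sub_iff_add_eq.1 h3
  exact smul_right_injective _ (two_ne_zero) h4

theorem equi_form {Φ : V → V} (h : IsEquiv Φ) : ∃ (ξ : ℝ → ℝ) (σ : ℝ), (σ = 1 ∨ σ = -1) ∧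
    Continuous ξ ∧ Function.Injective ξ ∧ Function.Surjective ξ ∧
    ∀ z ∈ MS, Φ z = (ξ z.1, σ • z.2) := by
  obtain ⟨e, he⟩ : ∃ e : E3, ‖e‖ = 1 := ⟨arc 0, arc_norm 0⟩
  have hmem : ∀ p : ℝ, ((p, e) : V) ∈ MS := fun _ => he
  have hcont : Continuous fun p : ℝ => Φ (p, e) :=
    h.cont.comp_continuous (by fun_prop) hmem
  have hη : ∀ p : ℝ, ‖(Φ (p, e)).2‖ = 1 := fun p => h.bij.mapsTo (hmem p)
  obtain ⟨s, hs⟩ : ∃ s : ℝ → ℝ, s = fun p => inner ℝ e (Φ (p, e)).2 := ⟨_, rfl⟩
  have hsc : Continuous s := by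
    rw [hs]
    exact continuous_const.inner (continuous_snd.comp hcont)
  have hfix : ∀ p : ℝ, (Φ (p, e)).2 = s p • e := fun p => by
    rw [hs]
    exact GF_fix h he p
  have hs1 : ∀ p : ℝ, s p = 1 ∨ s p = -1 := by
    intro p
    have h1 := hη p
    rw [hfix p, norm_smul, he, mul_one, Real.norm_eq_abs] at h1
    exact eq_or_eq_neg_of_abs_eq h1
  have hsne : ∀ p : ℝ, s p ≠ 0 := by
    intro p h0
    rcases hs1 p with h1 | h1 <;> rw [h0] at h1 <;> norm_num at h1
  have hsconst : ∀ p : ℝ, s p = s 0 := by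
    intro p
    by_contra hne
    have h0 : (0 : ℝ) ∈ range s := by
      rcases hs1 p with h1 | h1
      · rcases hs1 0 with h2 | h2
        · exact absurd (h1.trans h2.symm) hne
        · exact mem_range_of_exists_le_of_exists_ge hsc ⟨0, by rw [h2]; norm_num⟩ ⟨p, by rw [h1]; norm_num⟩
      · rcases hs1 0 with h2 | h2
        · exact mem_range_of_exists_le_of_exists_ge hsc ⟨p, by rw [h1]; norm_num⟩ ⟨0, by rw [h2]; norm_num⟩
        · exact absurd (h1.trans h2.symm) hne
    obtain ⟨q, hq⟩ := h0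
    exact hsne q hq
  have hform : ∀ z ∈ MS, Φ z = ((Φ (z.1, e)).1, s 0 • z.2) := by
    intro z hz
    have hz1 : ‖z.2‖ = 1 := hz
    obtain ⟨R, hR⟩ : ∃ R : E3 ≃ₗᵢ[ℝ] E3, R e = z.2 :=
      ⟨Submodule.reflection (Submodule.span ℝ {e - z.2})ᗮ, Submodule.reflection_sub (he.trans hz1.symm)⟩
    have h1 : act R (z.1, e) = z := by
      unfold act
      simp only [hR]
    have h2 := h.equi R (z.1, e) (hmem z.1)
    rw [h1] at h2
    rw [h2]
    unfold act
    rw [hfix z.1, hsconst z.1, map_smul, hR]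
  refine ⟨fun p => (Φ (p, e)).1, s 0, hs1 0, continuous_fst.comp hcont, ?_, ?_, hform⟩
  · intro p q hpq
    have h1 := hform (p, e) (hmem p)
    have h2 := hform (q, e) (hmem q)
    have h3 : Φ (p, e) = Φ (q, e) := by
      rw [h1, h2]
      simp only at hpq
      simp only [hpq]
    exact congrArg Prod.fst (h.bij.injOn (hmem p) (hmem q) h3)
  · intro y
    obtain ⟨z, hz, hzy⟩ := h.bij.surjOn (hmem y)
    refine ⟨z.1, ?_⟩
    have h1 := hform z hz
    rw [hzy] at h1
    exact (congrArg Prod.fst h1).symm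

end RFO
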