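import Pool.Agent.Lib.MP_63b676_gt.Defs

/-!
# Leaf Smo: smoothness toolkit (Mathlib only)

`W` is smooth on the open set `(0,T) × ℝ`; slices and partial derivatives are smooth.
Proofs. The set `Ioo 0 T ×ˢ univ` is open, so `ContDiffOn` gives `ContDiffAt` at every point.
* `slice`: compose with `x ↦ (t, x)`. `time`: compose with `t ↦ (t, p)` on `Ioo 0 T`.
* `dt`: at a point `z` of the domain `deriv (fun τ => W τ z.2) z.1 = fderiv ℝ W z (1, 0)` (chain rule for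
  `τ ↦ (τ, z.2)`); `fderiv` of a `C^∞` function on an open set is `C^∞` (`ContDiffOn.fderiv_of_isOpen` with
  `∞ + 1 ≤ ∞`), evaluation at a fixed vector is linear (`ContDiffOn.clm_apply`), then `ContDiffOn.congr`.
* `dp`: the same with `(0, 1)`.
* `comm`: symmetry of second derivatives is NOT needed anywhere.
* `dsmo`: `ds (V t) (W t) p = deriv (W t) p / V t p`, quotient of smooth functions, `V ≠ 0`.
-/

namespace RFO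

open Set Filter Topology
open scoped ContDiff

private theorem Smo_open (T : ℝ) : IsOpen (Ioo (0 : ℝ) T ×ˢ (univ : Set ℝ)) :=
  isOpen_Ioo.prod isOpen_univ

private theorem Smo_mem {T t : ℝ} (ht : t ∈ Ioo 0 T) (p : ℝ) :
    ((t, p) : ℝ × ℝ) ∈ Ioo (0 : ℝ) T ×ˢ (univ : Set ℝ) :=
  ⟨ht, mem_univ _⟩

theorem Smo_slice {T : ℝ} {W : ℝ → ℝ → ℝ}
    (h : ContDiffOn ℝ ∞ (fun z : ℝ × ℝ => W z.1 z.2) (Ioo 0 T ×ˢ univ)) {t : ℝ} (ht : t ∈ Ioo 0 T) :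
    ContDiff ℝ ∞ (W t) := by
  have h1 : ContDiff ℝ ∞ (fun x : ℝ => ((t, x) : ℝ × ℝ)) := contDiff_const.prodMk contDiff_id
  exact h.comp_contDiff h1 fun x => Smo_mem ht x

theorem Smo_time {T : ℝ} {W : ℝ → ℝ → ℝ}
    (h : ContDiffOn ℝ ∞ (fun z : ℝ × ℝ => W z.1 z.2) (Ioo 0 T ×ˢ univ)) (p : ℝ) :
    ContDiffOn ℝ ∞ (fun t => W t p) (Ioo 0 T) := by
  have h1 : ContDiff ℝ ∞ (fun t : ℝ => ((t, p) : ℝ × ℝ)) := contDiff_id.prodMk contDiff_const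
  exact h.comp h1.contDiffOn fun t ht => Smo_mem ht p

theorem Smo_diffAt {T : ℝ} {W : ℝ → ℝ → ℝ}
    (h : ContDiffOn ℝ ∞ (fun z : ℝ × ℝ => W z.1 z.2) (Ioo 0 T ×ˢ univ)) (p : ℝ) {t : ℝ}
    (ht : t ∈ Ioo 0 T) : DifferentiableAt ℝ (fun τ => W τ p) t :=
  ((Smo_time h p).differentiableOn (by simp)).differentiableAt (isOpen_Ioo.mem_nhds ht)

private theorem Smo_fderiv {T : ℝ} {W : ℝ → ℝ → ℝ}
    (h : ContDiffOn ℝ ∞ (fun z : ℝ × ℝ => W z.1 z.2) (Ioo 0 T ×ˢ univ)) (w : ℝ × ℝ) :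
    ContDiffOn ℝ ∞ (fun z : ℝ × ℝ => fderiv ℝ (fun z : ℝ × ℝ => W z.1 z.2) z w)
      (Ioo 0 T ×ˢ univ) :=
  (h.fderiv_of_isOpen (Smo_open T) (by simp)).clm_apply contDiffOn_const

private theorem Smo_diff {T : ℝ} {W : ℝ → ℝ → ℝ}
    (h : ContDiffOn ℝ ∞ (fun z : ℝ × ℝ => W z.1 z.2) (Ioo 0 T ×ˢ univ)) {z : ℝ × ℝ}
    (hz : z ∈ Ioo (0 : ℝ) T ×ˢ (univ : Set ℝ)) :
    HasFDerivAt (fun z : ℝ × ℝ => W z.1 z.2) (fderiv ℝ (fun z : ℝ × ℝ => W z.1 z.2) z) z :=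
  ((h.differentiableOn (by simp)).differentiableAt ((Smo_open T).mem_nhds hz)).hasFDerivAt

theorem Smo_dt {T : ℝ} {W : ℝ → ℝ → ℝ}
    (h : ContDiffOn ℝ ∞ (fun z : ℝ × ℝ => W z.1 z.2) (Ioo 0 T ×ˢ univ)) :
    ContDiffOn ℝ ∞ (fun z : ℝ × ℝ => deriv (fun τ => W τ z.2) z.1) (Ioo 0 T ×ˢ univ) := by
  refine (Smo_fderiv h (1, 0)).congr fun z hz => ?_
  have h1 : HasDerivAt (fun τ : ℝ => ((τ, z.2) : ℝ × ℝ)) (1, 0) z.1 :=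
    (hasDerivAt_id z.1).prodMk (hasDerivAt_const z.1 z.2)
  have h2 := Smo_diff h (z := (z.1, z.2)) hz
  exact (h2.comp_hasDerivAt z.1 h1).deriv

theorem Smo_dp {T : ℝ} {W : ℝ → ℝ → ℝ}
    (h : ContDiffOn ℝ ∞ (fun z : ℝ × ℝ => W z.1 z.2) (Ioo 0 T ×ˢ univ)) :
    ContDiffOn ℝ ∞ (fun z : ℝ × ℝ => deriv (W z.1) z.2) (Ioo 0 T ×ˢ univ) := by
  refine (Smo_fderiv h (0, 1)).congr fun z hz => ?_
  have h1 : HasDerivAt (fun p : ℝ => ((z.1, p) : ℝ × ℝ)) (0, 1) z.2 :=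
    (hasDerivAt_const z.2 z.1).prodMk (hasDerivAt_id z.2)
  have h2 := Smo_diff h (z := (z.1, z.2)) hz
  exact (h2.comp_hasDerivAt z.2 h1).deriv

theorem Smo_ds {T : ℝ} {V W : ℝ → ℝ → ℝ}
    (hV : ContDiffOn ℝ ∞ (fun z : ℝ × ℝ => V z.1 z.2) (Ioo 0 T ×ˢ univ))
    (hW : ContDiffOn ℝ ∞ (fun z : ℝ × ℝ => W z.1 z.2) (Ioo 0 T ×ˢ univ))
    (h0 : ∀ t ∈ Ioo 0 T, ∀ p, 0 < V t p) :
    ContDiffOn ℝ ∞ (fun z : ℝ × ℝ => ds (V z.1) (W z.1) z.2) (Ioo 0 T ×ˢ univ) :=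
  (Smo_dp hW).div hV fun z hz => (h0 z.1 hz.1 z.2).ne'

/-- Nonincreasing in time (mean value theorem on `Ioo 0 T`, `antitoneOn_of_deriv_nonpos`). -/
theorem Smo_anti {T : ℝ} {W : ℝ → ℝ → ℝ}
    (h : ContDiffOn ℝ ∞ (fun z : ℝ × ℝ => W z.1 z.2) (Ioo 0 T ×ˢ univ)) (p : ℝ)
    (hd : ∀ t ∈ Ioo 0 T, deriv (fun τ => W τ p) t ≤ 0) : AntitoneOn (fun t => W t p) (Ioo 0 T) := by
  refine antitoneOn_of_deriv_nonpos (convex_Ioo 0 T) (Smo_time h p).continuousOn ?_ ?_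
  · rw [interior_Ioo]
    exact (Smo_time h p).differentiableOn (by simp)
  · rw [interior_Ioo]
    exact hd

end RFO
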