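import Pool.Agent.Lib.MP_63b676_gt.GA
import Pool.Agent.Lib.MP_63b676_gt.GB
import Pool.Agent.Lib.MP_63b676_gt.GD
import Pool.Agent.Lib.MP_63b676_gt.Smo

/-!
# Leaf GG: the flow of an `O(3)`-invariant metric

`gφ t p = √(fa (g t) p)`, `gψ t p = √(fb (g t) p)`.
* `inv_wform`: by `inv_form` and `Real.sq_sqrt` the metric `g t` agrees with `wform (gφ g t) (gψ g t)` on tangent vectors.
* smoothness: `(t, p) ↦ fa (g t) p = g t (p, arc 0) (1,0) (1,0)` is the composition of the function of `IsRicciFlowG.smooth` with the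
  smooth map `(t, p) ↦ (t, (p, arc 0))` (`arc 0 ≠ 0`), and it is positive, `ContDiffOn.sqrt`. Same for `fb`.
* equations: take `x = ![p, π/2, 0]` (`sin (x 1) = 1`). For `τ ∈ (0,T)`: `gmat (g τ) x 0 0 = gφ τ p ^ 2`,
  `gmat (g τ) x 1 1 = gψ τ p ^ 2` (`gmat_eq`, `wmat`), so the derivatives at `t` agree (`Filter.EventuallyEq.deriv_eq`), and
  `ric (gmat (g t)) = ric (wmat ..)` is `ric_wmat` (`Smo_slice` for the smoothness of `gφ t`, `gψ t`).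
* `ricGE_of`: from `RicLower (g t) (K^2)` with `x = ![p, π/2, 0]` and `a = ![1,0,0]`, `a = ![0,1,0]`: `-K² φ² ≤ ricR φ²`,
  `-K² ψ² ≤ ricT ψ²`, divide.
* `ricLower_wform`: `∑ ric a_i a_j = ricR φ² a₀² + ricT ψ² a₁² + ricT ψ² sin² a₂² ≥ -(φ² a₀² + ψ² a₁² + ψ² sin² a₂²)`.
-/

namespace RFO

open Set Filter Topology
open scoped ContDiff

noncomputable def gφ (g : ℝ → Form) (t p : ℝ) : ℝ := Real.sqrt (fa (g t) p)

noncomputable def gψ (g : ℝ → Form) (t p : ℝ) : ℝ := Real.sqrt (fb (g t) p)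

private theorem GG_fφ {T : ℝ} {g : ℝ → Form} (h : IsRicciFlowG T g) {t : ℝ} (ht : t ∈ Ioo 0 T) (p : ℝ) :
    gφ g t p ^ 2 = fa (g t) p := Real.sq_sqrt (fa_pos (h.metric t ht) p).le

private theorem GG_fψ {T : ℝ} {g : ℝ → Form} (h : IsRicciFlowG T g) {t : ℝ} (ht : t ∈ Ioo 0 T) (p : ℝ) :
    gψ g t p ^ 2 = fb (g t) p := Real.sq_sqrt (fb_pos (h.metric t ht) p).le

theorem inv_wform {T : ℝ} {g : ℝ → Form} (h : IsRicciFlowG T g) (hi : ∀ t ∈ Ioo 0 T, Invariant (g t))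
    {t : ℝ} (ht : t ∈ Ioo 0 T) :
    ∀ z ∈ MS, ∀ X Y, Tan z X → Tan z Y → g t z X Y = wform (gφ g t) (gψ g t) z X Y := by
  intro z hz X Y hX hY
  rw [inv_form (h.metric t ht) (hi t ht) z hz X Y hX hY]
  simp only [wform]
  rw [GG_fφ h ht, GG_fψ h ht]

private theorem GG_smooth {T : ℝ} {g : ℝ → Form} (h : IsRicciFlowG T g) (X Y : V) :
    ContDiffOn ℝ ∞ (fun z : ℝ × ℝ => g z.1 (z.2, arc 0) X Y) (Ioo 0 T ×ˢ univ) := by
  have h1 : ContDiff ℝ ∞ (fun z : ℝ × ℝ => ((z.1, ((z.2, arc 0) : V)) : ℝ × V)) :=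
    contDiff_fst.prodMk (contDiff_snd.prodMk contDiff_const)
  have h2 : MapsTo (fun z : ℝ × ℝ => ((z.1, ((z.2, arc 0) : V)) : ℝ × V)) (Ioo 0 T ×ˢ univ)
      (Ioo 0 T ×ˢ {z : V | z.2 ≠ 0}) := by
    intro z hz
    refine ⟨hz.1, ?_⟩
    show arc 0 ≠ 0
    intro h0
    have := arc_norm 0
    rw [h0, norm_zero] at this
    exact zero_ne_one this
  exact (h.smooth X Y).comp h1.contDiffOn h2

private theorem GG_gmat {T : ℝ} {g : ℝ → Form} (h : IsRicciFlowG T g)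
    (hi : ∀ t ∈ Ioo 0 T, Invariant (g t)) {t : ℝ} (ht : t ∈ Ioo 0 T) :
    gmat (g t) = wmat (gφ g t) (gψ g t) := gmat_eq (inv_wform h hi ht)

private theorem GG_sin (p : ℝ) : Real.sin ((![p, Real.pi / 2, 0] : Fin 3 → ℝ) 1) ≠ 0 := by
  simp

private theorem GG_smφ {T : ℝ} {g : ℝ → Form} (h : IsRicciFlowG T g) :
    ContDiffOn ℝ ∞ (fun z : ℝ × ℝ => gφ g z.1 z.2) (Ioo 0 T ×ˢ univ) :=
  (GG_smooth h (1, 0) (1, 0)).sqrt (fun z hz => (fa_pos (h.metric z.1 hz.1) z.2).ne')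

private theorem GG_smψ {T : ℝ} {g : ℝ → Form} (h : IsRicciFlowG T g) :
    ContDiffOn ℝ ∞ (fun z : ℝ × ℝ => gψ g z.1 z.2) (Ioo 0 T ×ˢ univ) :=
  (GG_smooth h (0, arc (Real.pi / 2)) (0, arc (Real.pi / 2))).sqrt
    (fun z hz => (fb_pos (h.metric z.1 hz.1) z.2).ne')

private theorem GG_posφ {T : ℝ} {g : ℝ → Form} (h : IsRicciFlowG T g) {t : ℝ} (ht : t ∈ Ioo 0 T)
    (p : ℝ) : 0 < gφ g t p := Real.sqrt_pos.2 (fa_pos (h.metric t ht) p)

private theorem GG_posψ {T : ℝ} {g : ℝ → Form} (h : IsRicciFlowG T g) {t : ℝ} (ht : t ∈ Ioo 0 T)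
    (p : ℝ) : 0 < gψ g t p := Real.sqrt_pos.2 (fb_pos (h.metric t ht) p)

private theorem GG_ric {T : ℝ} {g : ℝ → Form} (h : IsRicciFlowG T g)
    (hi : ∀ t ∈ Ioo 0 T, Invariant (g t)) {t : ℝ} (ht : t ∈ Ioo 0 T) (p : ℝ) (i j : Fin 3) :
    ric (gmat (g t)) i j ![p, Real.pi / 2, 0] =
      Matrix.diagonal ![ricR (gφ g t) (gψ g t) p * gφ g t p ^ 2,
        ricT (gφ g t) (gψ g t) p * gψ g t p ^ 2,
        ricT (gφ g t) (gψ g t) p * gψ g t p ^ 2] i j := by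
  rw [GG_gmat h hi ht, ric_wmat (Smo_slice (GG_smφ h) ht) (Smo_slice (GG_smψ h) ht)
    (GG_posφ h ht) (GG_posψ h ht) _ (GG_sin p)]
  simp

theorem flow_of_invariant {T : ℝ} {g : ℝ → Form} (h : IsRicciFlowG T g)
    (hi : ∀ t ∈ Ioo 0 T, Invariant (g t)) : IsRicciFlow T (gφ g) (gψ g) := by
  refine ⟨GG_smφ h, GG_smψ h, fun t ht p => GG_posφ h ht p, fun t ht p => GG_posψ h ht p, ?_, ?_⟩
  · intro t ht p
    have h1 := h.flow t ht ![p, Real.pi / 2, 0] (GG_sin p) 0 0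
    rw [GG_ric h hi ht] at h1
    have h2 : (fun τ => gmat (g τ) ![p, Real.pi / 2, 0] 0 0) =ᶠ[𝓝 t] fun τ => gφ g τ p ^ 2 := by
      filter_upwards [isOpen_Ioo.mem_nhds ht] with τ hτ
      rw [GG_gmat h hi hτ]
      simp [wmat]
    rw [h2.deriv_eq] at h1
    rw [h1]
    simp
  · intro t ht p
    have h1 := h.flow t ht ![p, Real.pi / 2, 0] (GG_sin p) 1 1
    rw [GG_ric h hi ht] at h1
    have h2 : (fun τ => gmat (g τ) ![p, Real.pi / 2, 0] 1 1) =ᶠ[𝓝 t] fun τ => gψ g τ p ^ 2 := by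
      filter_upwards [isOpen_Ioo.mem_nhds ht] with τ hτ
      rw [GG_gmat h hi hτ]
      simp [wmat]
    rw [h2.deriv_eq] at h1
    rw [h1]
    simp

theorem ricGE_of {T K : ℝ} {g : ℝ → Form} (h : IsRicciFlowG T g)
    (hi : ∀ t ∈ Ioo 0 T, Invariant (g t)) (hr : ∀ t ∈ Ioo 0 T, RicLower (g t) (K ^ 2)) :
    RicGE T K (gφ g) (gψ g) := by
  intro t ht p
  constructor
  · have h1 := hr t ht ![p, Real.pi / 2, 0] (GG_sin p) ![1, 0, 0]
    simp only [GG_ric h hi ht] at h1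
    rw [GG_gmat h hi ht] at h1
    simp [Fin.sum_univ_three, wmat] at h1
    have h2 : 0 < gφ g t p ^ 2 := pow_pos (GG_posφ h ht p) 2
    by_contra h3
    push Not at h3
    nlinarith
  · have h1 := hr t ht ![p, Real.pi / 2, 0] (GG_sin p) ![0, 1, 0]
    simp only [GG_ric h hi ht] at h1
    rw [GG_gmat h hi ht] at h1
    simp [Fin.sum_univ_three, wmat] at h1
    have h2 : 0 < gψ g t p ^ 2 := pow_pos (GG_posψ h ht p) 2
    by_contra h3
    push Not at h3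
    nlinarith

theorem ricLower_wform {f : ℝ → ℝ} (hf : ContDiff ℝ ∞ f) (hf0 : ∀ x, 0 < f x)
    (h : ∀ x, -1 ≤ ricR (fun _ => 1) f x ∧ -1 ≤ ricT (fun _ => 1) f x) :
    RicLower (wform (fun _ => 1) f) 1 := by
  intro x hx a
  have hg : gmat (wform (fun _ => 1) f) = wmat (fun _ => 1) f := gmat_eq (fun _ _ _ _ _ _ => rfl)
  rw [hg]
  simp only [ric_wmat contDiff_const hf (fun _ => one_pos) hf0 x hx]
  obtain ⟨h1, h2⟩ := h (x 0)
  simp only [Fin.sum_univ_three, wmat, Matrix.diagonal_apply]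
  simp
  have e0 := mul_self_nonneg (a 0)
  have e1 := mul_nonneg (pow_nonneg (hf0 (x 0)).le 2) (mul_self_nonneg (a 1))
  have e2 := mul_nonneg (mul_nonneg (pow_nonneg (hf0 (x 0)).le 2) (sq_nonneg (Real.sin (x 1))))
    (mul_self_nonneg (a 2))
  nlinarith [mul_nonneg (by linarith : 0 ≤ ricR (fun _ => 1) f (x 0) + 1) e0,
    mul_nonneg (by linarith : 0 ≤ ricT (fun _ => 1) f (x 0) + 1) e1,
    mul_nonneg (by linarith : 0 ≤ ricT (fun _ => 1) f (x 0) + 1) e2]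

end RFO
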