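import Pool.Agent.Lib.MP_63b676_gt.Main
import Pool.Agent.Lib.MP_63b676_gt.GE
import Pool.Agent.Lib.MP_63b676_gt.GF
import Pool.Agent.Lib.MP_63b676_gt.GG

/-!
# The theorem for general `O(3)`-invariant metrics of `ℝ × S²`
-/

namespace RFO

open Set Filter Topology
open scoped ContDiff

theorem gmain : ∃ f : ℝ → ℝ, ContDiff ℝ ∞ f ∧ (∀ x, 0 < f x) ∧
    RicLower (wform (fun _ => 1) f) 1 ∧ CompleteG (wform (fun _ => 1) f) ∧
    ∀ (T K : ℝ) (g : ℝ → Form) (Φ : V → V), 0 < T → IsRicciFlowG T g →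
      (∀ t ∈ Ioo 0 T, Invariant (g t)) → (∀ t ∈ Ioo 0 T, RicLower (g t) (K ^ 2)) → IsEquiv Φ →
      ¬ ComesOutG (wform (fun _ => 1) f) Φ g := by
  obtain ⟨f, hf, hf0, hr, hcpl, hno⟩ := main
  refine ⟨f, hf, hf0, ricLower_wform hf hf0 hr, ?_, ?_⟩
  · intro z hz hC
    have e : ∀ x y : V, gdist (wform (fun _ => 1) f) x y = rdist (fun _ => 1) f x y :=
      fun x y => gdist_eq (fun _ _ _ _ _ _ => rfl) x y
    obtain ⟨x, hx, hl⟩ := hcpl z (fun n => hz n) (by simpa only [e] using hC)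
    exact ⟨x, hx, by simpa only [e] using hl⟩
  · intro T K g Φ hT hfl hinv hric hΦ hc
    obtain ⟨ξ, σ, hσ, hξc, hξi, hξs, hform⟩ := equi_form hΦ
    refine hno T K (gφ g) (gψ g) ξ hT hξc hξi hξs (flow_of_invariant hfl hinv)
      (ricGE_of hfl hinv hric) ?_
    intro x y hx hy
    have h1 := hc x hx y hy
    rw [hform x hx, hform y hy, gdist_eq (fun _ _ _ _ _ _ => rfl)] at h1
    have h2 : rdist (fun _ => 1) f (ξ x.1, σ • x.2) (ξ y.1, σ • y.2) =
        rdist (fun _ => 1) f (ξ x.1, x.2) (ξ y.1, y.2) := by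
      rcases hσ with rfl | rfl
      · simp
      · simpa using rdist_neg (fun _ => 1) f (ξ x.1) (ξ y.1) x.2 y.2
    rw [h2] at h1
    refine h1.congr' ?_
    filter_upwards [Ioo_mem_nhdsGT hT] with t ht
    exact gdist_eq (inv_wform hfl hinv ht) x y

end RFO
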