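import Pool.Agent.Lib.MP_63b676_gt.Geo0

/-!
# Leaf Geo1: distances of rotationally symmetric metrics, part 1 (Mathlib only)

The set of lengths is bounded below by `0` (`len ≥ 0`, integral of a nonnegative function over `0..1`).
* `len_ge` (lower bound R): for a curve `(p, w)` with `ContDiff ℝ 1 p`, `ContDiff ℝ 1 w` and `0 ≤ a ≤ b ≤ 1` the integrand is
  `≥ |φ (p τ) * deriv p τ|` (`Real.abs_le_sqrt`), so
  `len ≥ ∫ in a..b |φ(p) p'| ≥ |∫ in a..b φ(p) p'| = |∫ in (p a)..(p b), φ|`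
  (`intervalIntegral.integral_comp_mul_deriv`, `intervalIntegral.abs_integral_le_integral_abs`,
  `intervalIntegral.integral_mono_on`; all integrands are continuous: `deriv p`, `deriv w` are continuous, `ContDiff ℝ 1`).
* `rdist_ge_radial`: `len_ge` with `a = 0`, `b = 1` and `le_csInf`.
* `rdist_radial`: `≥` by `rdist_ge_radial` (the radial curve exists); `≤` by `csInf_le` with the curve
  `p τ = p + τ (q - p)`, `w` constant (`deriv` is zero), whose length is
  `∫ |φ (p + τ (q-p)) (q-p)| = |∫ in p..q, φ|` (the sign of `q - p` is constant, substitution).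
* `rdist_arc_le`: curve `p` constant, `w τ = arc (τ θ)` (`arc_smooth`, `arc_speed`), length `ψ p * θ`.
-/

namespace RFO

open Set Filter Topology
open scoped ContDiff

theorem len_nonneg (φ ψ : ℝ → ℝ) (p : ℝ → ℝ) (w : ℝ → E3) : 0 ≤ len φ ψ p w := by
  unfold len
  exact intervalIntegral.integral_nonneg zero_le_one (fun _ _ => Real.sqrt_nonneg _)

theorem rdist_nonneg (φ ψ : ℝ → ℝ) (x y : ℝ × E3) : 0 ≤ rdist φ ψ x y := by
  unfold rdist
  refine Real.sInf_nonneg ?_
  rintro l ⟨p, w, _, rfl⟩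
  exact len_nonneg φ ψ p w

theorem rdist_le_len (φ ψ : ℝ → ℝ) {x y : ℝ × E3} {p : ℝ → ℝ} {w : ℝ → E3} (h : IsCurve p w x y) :
    rdist φ ψ x y ≤ len φ ψ p w := by
  unfold rdist
  refine csInf_le ⟨0, ?_⟩ ⟨p, w, h, rfl⟩
  rintro l ⟨p', w', _, rfl⟩
  exact len_nonneg φ ψ p' w'

theorem len_ge (φ ψ : ℝ → ℝ) (hφ : Continuous φ) (hψ : Continuous ψ) {p : ℝ → ℝ} {w : ℝ → E3}
    (hp : ContDiff ℝ 1 p) (hw : ContDiff ℝ 1 w) {a b : ℝ} (ha : 0 ≤ a) (hab : a ≤ b) (hb : b ≤ 1) :
    |∫ z in (p a)..(p b), φ z| ≤ len φ ψ p w := by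
  have hp' : Continuous (deriv p) := hp.continuous_deriv le_rfl
  have hw' : Continuous (deriv w) := hw.continuous_deriv le_rfl
  have hF : Continuous (fun τ => Real.sqrt ((φ (p τ) * deriv p τ) ^ 2 +
      (ψ (p τ) * ‖deriv w τ‖) ^ 2)) := by
    refine Continuous.sqrt ?_
    exact (((hφ.comp hp.continuous).mul hp').pow 2).add
      (((hψ.comp hp.continuous).mul hw'.norm).pow 2)
  have hG : Continuous (fun τ => |φ (p τ) * deriv p τ|) :=
    ((hφ.comp hp.continuous).mul hp').abs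
  have h1 : ∫ z in (p a)..(p b), φ z = ∫ τ in a..b, φ (p τ) * deriv p τ := by
    have h2 := intervalIntegral.integral_comp_mul_deriv (a := a) (b := b) (f := p) (f' := deriv p)
      (g := φ) (fun x _ => (hp.differentiable one_ne_zero x).hasDerivAt) hp'.continuousOn hφ
    rw [← h2]
    rfl
  rw [h1]
  calc |∫ τ in a..b, φ (p τ) * deriv p τ| ≤ ∫ τ in a..b, |φ (p τ) * deriv p τ| :=
        intervalIntegral.abs_integral_le_integral_abs hab
    _ ≤ ∫ τ in a..b, Real.sqrt ((φ (p τ) * deriv p τ) ^ 2 + (ψ (p τ) * ‖deriv w τ‖) ^ 2) := by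
        refine intervalIntegral.integral_mono_on hab (hG.intervalIntegrable _ _)
          (hF.intervalIntegrable _ _) fun τ _ => ?_
        refine Real.abs_le_sqrt ?_
        have := sq_nonneg (ψ (p τ) * ‖deriv w τ‖)
        linarith
    _ ≤ ∫ τ in (0 : ℝ)..1, Real.sqrt ((φ (p τ) * deriv p τ) ^ 2 + (ψ (p τ) * ‖deriv w τ‖) ^ 2) :=
        intervalIntegral.integral_mono_interval ha hab hb
          (Filter.Eventually.of_forall fun _ => Real.sqrt_nonneg _) (hF.intervalIntegrable _ _)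

theorem rdist_ge_radial (φ ψ : ℝ → ℝ) (hφ : Continuous φ) (hψ : Continuous ψ)
    (x y : ℝ × E3) (hne : ∃ p w, IsCurve p w x y) :
    |∫ z in x.1..y.1, φ z| ≤ rdist φ ψ x y := by
  obtain ⟨p₀, w₀, h₀⟩ := hne
  unfold rdist
  refine le_csInf ⟨_, p₀, w₀, h₀, rfl⟩ ?_
  rintro l ⟨p, w, h, rfl⟩
  have h1 := len_ge φ ψ hφ hψ h.hp h.hw (le_refl (0 : ℝ)) zero_le_one (le_refl (1 : ℝ))
  have h2 : p 0 = x.1 := congrArg Prod.fst h.start
  have h3 : p 1 = y.1 := congrArg Prod.fst h.finish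
  rw [h2, h3] at h1
  exact h1

private theorem Geo1_rad_curve (p q : ℝ) (w : E3) (hw : ‖w‖ = 1) :
    IsCurve (fun τ => p + τ * (q - p)) (fun _ => w) (p, w) (q, w) where
  hp := contDiff_const.add (contDiff_id.mul contDiff_const)
  hw := contDiff_const
  sph := fun _ _ => hw
  start := by
    simp only [zero_mul, add_zero]
  finish := by
    have h : p + 1 * (q - p) = q := by ring
    simp only [h]

private theorem Geo1_deriv (p q τ : ℝ) : deriv (fun τ => p + τ * (q - p)) τ = q - p := by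
  have h : HasDerivAt (fun τ => p + τ * (q - p)) (1 * (q - p)) τ :=
    ((hasDerivAt_id τ).mul_const (q - p)).const_add p
  rw [h.deriv, one_mul]

theorem rdist_radial (φ ψ : ℝ → ℝ) (hφ : Continuous φ) (hψ : Continuous ψ) (h0 : ∀ p, 0 < φ p)
    (p q : ℝ) (w : E3) (hw : ‖w‖ = 1) :
    rdist φ ψ (p, w) (q, w) = |∫ x in p..q, φ x| := by
  have hc := Geo1_rad_curve p q w hw
  refine le_antisymm ?_ (rdist_ge_radial φ ψ hφ hψ (p, w) (q, w) ⟨_, _, hc⟩)
  refine (rdist_le_len φ ψ hc).trans (le_of_eq ?_)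
  have h1 : len φ ψ (fun τ => p + τ * (q - p)) (fun _ => w) =
      ∫ τ in (0 : ℝ)..1, φ (p + τ * (q - p)) * |q - p| := by
    unfold len
    refine intervalIntegral.integral_congr fun τ _ => ?_
    have h2 : deriv (fun _ : ℝ => w) τ = 0 := deriv_const τ w
    simp only [Geo1_deriv, h2, norm_zero, mul_zero]
    rw [zero_pow two_ne_zero, add_zero, Real.sqrt_sq_eq_abs, abs_mul, abs_of_pos (h0 _)]
  have h3 : ∫ x in p..q, φ x = ∫ τ in (0 : ℝ)..1, φ (p + τ * (q - p)) * (q - p) := by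
    have h4 := intervalIntegral.integral_comp_mul_deriv (a := 0) (b := 1)
      (f := fun τ => p + τ * (q - p)) (f' := fun _ => q - p) (g := φ)
      (fun x _ => by
        have h : HasDerivAt (fun τ => p + τ * (q - p)) (1 * (q - p)) x :=
          ((hasDerivAt_id x).mul_const (q - p)).const_add p
        rw [one_mul] at h
        exact h) continuousOn_const hφ
    have h5 : p + 0 * (q - p) = p := by ring
    have h6 : p + 1 * (q - p) = q := by ring
    rw [h5, h6] at h4
    rw [← h4]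
    rfl
  rw [h1, h3, intervalIntegral.integral_mul_const, intervalIntegral.integral_mul_const, abs_mul]
  congr 1
  refine (abs_of_nonneg ?_).symm
  exact intervalIntegral.integral_nonneg zero_le_one fun _ _ => (h0 _).le

theorem arc_isCurve (p θ : ℝ) :
    IsCurve (fun _ => p) (fun τ => arc (τ * θ)) (p, arc 0) (p, arc θ) where
  hp := contDiff_const
  hw := arc_smooth θ
  sph := fun _ _ => arc_norm _
  start := by
    simp only [zero_mul]
  finish := by
    simp only [one_mul]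

theorem rdist_arc_le (φ ψ : ℝ → ℝ) (hψ0 : ∀ p, 0 < ψ p) (p θ : ℝ) (hθ : 0 ≤ θ) :
    rdist φ ψ (p, arc 0) (p, arc θ) ≤ ψ p * θ := by
  refine (rdist_le_len φ ψ (arc_isCurve p θ)).trans (le_of_eq ?_)
  unfold len
  have h1 : ∀ τ ∈ uIcc (0 : ℝ) 1, Real.sqrt ((φ p * deriv (fun _ : ℝ => p) τ) ^ 2 +
      (ψ p * ‖deriv (fun τ : ℝ => arc (τ * θ)) τ‖) ^ 2) = ψ p * θ := by
    intro τ _
    rw [deriv_const, mul_zero, zero_pow two_ne_zero, zero_add, Real.sqrt_sq_eq_abs, arc_speed,
      abs_of_nonneg hθ, abs_of_nonneg (mul_nonneg (hψ0 p).le hθ)]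
  rw [intervalIntegral.integral_congr h1, intervalIntegral.integral_const]
  simp

end RFO
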