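import Pool.Agent.Lib.MP_63b676_gt.Smo
import Pool.Agent.Lib.MP_63b676_gt.Geo2

/-!
# Leaf InA: convergence of the radial lengths

`v t p = exp (-(K² t)) φ t p`; nonincreasing in `t` (`Smo_anti`, `decv`).
* `lenlim`: by `ComesOut` for `x = (p, arc 0)`, `y = (q, arc 0)` and `rdist_radial` (for `φ t`, `ψ t`, continuous by
  `Smo_slice`, and for `1`, `f`): `|∫ in p..q, φ t| → |∫ in (ξ p)..(ξ q), 1| = |ξ q - ξ p|`. For `p ≤ q` the integral is
  `≥ 0`; multiply by `exp (-(K² t)) → 1` (the equality of functions is only needed for `t ∈ (0, T)`, eventually in `𝓝[>] 0`: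
  `Ioo_mem_nhdsGT`).
* `lenle`: `∫ v t ≤ ∫ v t'` for `t' ≤ t` (`intervalIntegral.integral_mono_on`), let `t' → 0` (`ge_of_tendsto`).
-/

namespace RFO

open Set Filter Topology
open scoped ContDiff

theorem lenlim {T K : ℝ} (hT : 0 < T) {φ ψ : ℝ → ℝ → ℝ} (h : IsRicciFlow T φ ψ)
    (hs : Sol T (K ^ 2) (fun t p => Real.exp (-(K ^ 2 * t)) * ψ t p)
      (fun t p => Real.exp (-(K ^ 2 * t)) * φ t p))
    {f ξ : ℝ → ℝ} (hf : Continuous f) (hf0 : ∀ x, 0 < f x) (hξ : Function.Injective ξ)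
    (hc : ComesOut f ξ φ ψ) (p q : ℝ) (hpq : p ≤ q) :
    Tendsto (fun t => ∫ x in p..q, Real.exp (-(K ^ 2 * t)) * φ t x) (𝓝[>] 0) (𝓝 |ξ q - ξ p|) := by
  have h1 := hc (p, arc 0) (q, arc 0) (arc_norm 0) (arc_norm 0)
  rw [rdist_radial (fun _ => 1) f continuous_const hf (fun _ => one_pos) (ξ p) (ξ q) (arc 0)
    (arc_norm 0), intervalIntegral.integral_const, smul_eq_mul, mul_one] at h1
  have h2 : Tendsto (fun t : ℝ => Real.exp (-(K ^ 2 * t))) (𝓝[>] 0) (𝓝 1) := by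
    have h3 : Continuous fun t : ℝ => Real.exp (-(K ^ 2 * t)) := by fun_prop
    have h4 := (h3.tendsto 0).mono_left (nhdsWithin_le_nhds (s := Ioi (0 : ℝ)))
    simpa using h4
  have h5 := h2.mul h1
  rw [one_mul] at h5
  refine h5.congr' ?_
  filter_upwards [Ioo_mem_nhdsGT hT] with t ht
  have hφc : Continuous (φ t) := (Smo_slice h.smφ ht).continuous
  have hψc : Continuous (ψ t) := (Smo_slice h.smψ ht).continuous
  rw [rdist_radial (φ t) (ψ t) hφc hψc (h.posφ t ht) p q (arc 0) (arc_norm 0),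
    intervalIntegral.integral_const_mul, abs_of_nonneg]
  exact intervalIntegral.integral_nonneg hpq fun x _ => (h.posφ t ht x).le

theorem lenle {T K : ℝ} (hT : 0 < T) {φ ψ : ℝ → ℝ → ℝ} (h : IsRicciFlow T φ ψ)
    (hs : Sol T (K ^ 2) (fun t p => Real.exp (-(K ^ 2 * t)) * ψ t p)
      (fun t p => Real.exp (-(K ^ 2 * t)) * φ t p))
    {f ξ : ℝ → ℝ} (hf : Continuous f) (hf0 : ∀ x, 0 < f x) (hξ : Function.Injective ξ)
    (hc : ComesOut f ξ φ ψ) {t : ℝ} (ht : t ∈ Ioo 0 T) (p q : ℝ) (hpq : p ≤ q) :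
    ∫ x in p..q, Real.exp (-(K ^ 2 * t)) * φ t x ≤ |ξ q - ξ p| := by
  refine ge_of_tendsto (lenlim hT h hs hf hf0 hξ hc p q hpq) ?_
  filter_upwards [Ioo_mem_nhdsGT ht.1] with s hst
  have hs0 : s ∈ Ioo 0 T := ⟨hst.1, hst.2.trans ht.2⟩
  have hc1 : ∀ r ∈ Ioo 0 T, Continuous fun x => Real.exp (-(K ^ 2 * r)) * φ r x := fun r hr =>
    continuous_const.mul (Smo_slice h.smφ hr).continuous
  refine intervalIntegral.integral_mono_on hpq ((hc1 t ht).intervalIntegrable _ _)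
    ((hc1 s hs0).intervalIntegrable _ _) fun x _ => ?_
  exact Smo_anti (W := fun t p => Real.exp (-(K ^ 2 * t)) * φ t p) hs.smv x
    (fun r hr => hs.decv r hr x) hs0 ht hst.2.le

end RFO
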