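import Pool.Agent.Lib.MP_63b676_gt.InA

/-!
# Leaf InB: `u ≤ f ∘ ξ`

`u t p = exp (-(K² t)) ψ t p ≤ ψ t p`; nonincreasing in `t` (`Smo_anti`, `decu`).
Proof. Suppose `f (ξ p) < u t₀ p`. Choose `m` with `f (ξ p) < m < u t₀ p` and `δ > 0` with `m ≤ u t₀ q` for
`|q - p| ≤ δ` (continuity of `u t₀`, `Smo_slice`). For `0 < t ≤ t₀`: `m ≤ u t q ≤ ψ t q` on `[p-δ, p+δ]` and, with
`c₀ = min |ξ p - ξ (p-δ)| |ξ (p+δ) - ξ p| / 2 > 0` (`ξ` injective), `c₀ ≤ ∫ φ t` over `[p-δ,p]` and `[p,p+δ]` for all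
small `t` (`lenlim` and `exp ≤ 1`). So `min (m ‖arc θ - arc 0‖) c₀ ≤ rdist (φ t) (ψ t) (p, arc 0) (p, arc θ)`
(`rdist_arc_ge`), in the limit (`ge_of_tendsto`, `ComesOut`, the left side does not depend on `t`)
`≤ rdist 1 f (ξ p, arc 0) (ξ p, arc θ) ≤ f (ξ p) θ` (`rdist_arc_le`). Divide by `θ`, let
`θ → 0+` (`arc_lim`; for small `θ > 0` the minimum is the first term since `f (ξ p) θ < c₀`): `m ≤ f (ξ p)`, contradiction.
-/

namespace RFO

open Set Filter Topology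
open scoped ContDiff

theorem ule {T K : ℝ} (hT : 0 < T) {φ ψ : ℝ → ℝ → ℝ} (h : IsRicciFlow T φ ψ)
    (hs : Sol T (K ^ 2) (fun t p => Real.exp (-(K ^ 2 * t)) * ψ t p)
      (fun t p => Real.exp (-(K ^ 2 * t)) * φ t p))
    {f ξ : ℝ → ℝ} (hf : Continuous f) (hf0 : ∀ x, 0 < f x) (hξ : Function.Injective ξ)
    (hc : ComesOut f ξ φ ψ) {t : ℝ} (ht : t ∈ Ioo 0 T) (p : ℝ) :
    Real.exp (-(K ^ 2 * t)) * ψ t p ≤ f (ξ p) := by
  by_contra hcon
  rw [not_le] at hcon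
  obtain ⟨m, hm1, hm2⟩ := exists_between hcon
  have hm0 : 0 < m := lt_trans (hf0 _) hm1
  have hucont : Continuous (fun q => Real.exp (-(K ^ 2 * t)) * ψ t q) :=
    (Smo_slice (W := fun τ q => Real.exp (-(K ^ 2 * τ)) * ψ τ q) hs.smu ht).continuous
  have hexp : ∀ s : ℝ, 0 < s → Real.exp (-(K ^ 2 * s)) ≤ 1 := by
    intro s hs0
    apply Real.exp_le_one_iff.mpr
    have : 0 ≤ K ^ 2 * s := mul_nonneg (sq_nonneg K) hs0.le
    linarith
  obtain ⟨δ, hδ0, hδ⟩ : ∃ δ : ℝ, 0 < δ ∧ ∀ q ∈ Icc (p - δ) (p + δ),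
      m ≤ Real.exp (-(K ^ 2 * t)) * ψ t q := by
    have hev : ∀ᶠ q in 𝓝 p, m < Real.exp (-(K ^ 2 * t)) * ψ t q :=
      hucont.continuousAt.eventually_const_lt hm2
    obtain ⟨ε, hε0, hε⟩ := Metric.eventually_nhds_iff.mp hev
    refine ⟨ε / 2, by positivity, ?_⟩
    intro q hq
    apply le_of_lt
    apply hε
    rw [Real.dist_eq, abs_lt]
    constructor <;> linarith [hq.1, hq.2]
  have hψ : ∀ s : ℝ, 0 < s → s ≤ t → ∀ q ∈ Icc (p - δ) (p + δ), m ≤ ψ s q := by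
    intro s hs0 hst q hq
    have hsT : s ∈ Ioo 0 T := ⟨hs0, lt_of_le_of_lt hst ht.2⟩
    have h1 := Smo_anti (W := fun τ q => Real.exp (-(K ^ 2 * τ)) * ψ τ q) hs.smu q (fun τ hτ => hs.decu τ hτ q) hsT ht hst
    have h2 : Real.exp (-(K ^ 2 * t)) * ψ t q ≤ Real.exp (-(K ^ 2 * s)) * ψ s q := h1
    have h3 : Real.exp (-(K ^ 2 * s)) * ψ s q ≤ 1 * ψ s q :=
      mul_le_mul_of_nonneg_right (hexp s hs0) (h.posψ s hsT q).le
    have h4 := hδ q hq
    linarith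
  obtain ⟨c, hcdef⟩ : ∃ c : ℝ, c = min |ξ p - ξ (p - δ)| |ξ (p + δ) - ξ p| / 2 := ⟨_, rfl⟩
  have hmin0 : 0 < min |ξ p - ξ (p - δ)| |ξ (p + δ) - ξ p| := by
    apply lt_min
    · apply abs_pos.mpr
      intro h0
      have : p = p - δ := hξ (sub_eq_zero.mp h0)
      linarith
    · apply abs_pos.mpr
      intro h0
      have : p + δ = p := hξ (sub_eq_zero.mp h0)
      linarith
  have hc0 : 0 < c := by rw [hcdef]; positivity
  have hc1 : c < |ξ p - ξ (p - δ)| := by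
    have := min_le_left |ξ p - ξ (p - δ)| |ξ (p + δ) - ξ p|
    linarith
  have hc2 : c < |ξ (p + δ) - ξ p| := by
    have := min_le_right |ξ p - ξ (p - δ)| |ξ (p + δ) - ξ p|
    linarith
  have hL1 := lenlim hT h hs hf hf0 hξ hc (p - δ) p (by linarith)
  have hL2 := lenlim hT h hs hf hf0 hξ hc p (p + δ) (by linarith)
  have hsmall : ∀ᶠ s in 𝓝[>] (0:ℝ), s ∈ Ioo 0 t := Ioo_mem_nhdsGT ht.1
  have hint : ∀ s ∈ Ioo 0 t, ∀ a b : ℝ, a ≤ b →
      ∫ x in a..b, Real.exp (-(K ^ 2 * s)) * φ s x ≤ ∫ x in a..b, φ s x := by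
    intro s hst a b hab
    have hsT : s ∈ Ioo 0 T := ⟨hst.1, lt_trans hst.2 ht.2⟩
    have hφc : Continuous (φ s) := (Smo_slice h.smφ hsT).continuous
    apply intervalIntegral.integral_mono_on hab
    · exact (continuous_const.mul hφc).intervalIntegrable _ _
    · exact hφc.intervalIntegrable _ _
    · intro x _
      have := mul_le_mul_of_nonneg_right (hexp s hst.1) (h.posφ s hsT x).le
      linarith
  have he1 : ∀ᶠ s in 𝓝[>] (0:ℝ), c ≤ ∫ x in (p - δ)..p, φ s x := by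
    filter_upwards [hsmall, hL1.eventually_const_lt hc1] with s hs1 hs2
    exact le_trans hs2.le (hint s hs1 _ _ (by linarith))
  have he2 : ∀ᶠ s in 𝓝[>] (0:ℝ), c ≤ ∫ x in p..(p + δ), φ s x := by
    filter_upwards [hsmall, hL2.eventually_const_lt hc2] with s hs1 hs2
    exact le_trans hs2.le (hint s hs1 _ _ (by linarith))
  have key : ∀ θ : ℝ, 0 ≤ θ → min (m * ‖arc θ - arc 0‖) c ≤ f (ξ p) * θ := by
    intro θ hθ
    have hlim := hc (p, arc 0) (p, arc θ) (arc_norm 0) (arc_norm θ)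
    have h1 : min (m * ‖arc θ - arc 0‖) c ≤
        rdist (fun _ => 1) f (ξ p, arc 0) (ξ p, arc θ) := by
      refine ge_of_tendsto hlim ?_
      filter_upwards [hsmall, he1, he2] with s hs1 hs2 hs3
      have hsT : s ∈ Ioo 0 T := ⟨hs1.1, lt_trans hs1.2 ht.2⟩
      exact rdist_arc_ge (φ s) (ψ s) (Smo_slice h.smφ hsT).continuous
        (Smo_slice h.smψ hsT).continuous (h.posφ s hsT) p θ δ m c hδ0 hm0.le
        (hψ s hs1.1 hs1.2.le) hs2 hs3
    exact le_trans h1 (rdist_arc_le _ _ hf0 (ξ p) θ hθ)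
  have hθc : ∀ᶠ θ in 𝓝[>] (0:ℝ), f (ξ p) * θ < c := by
    have hl : Tendsto (fun θ : ℝ => f (ξ p) * θ) (𝓝[>] 0) (𝓝 (f (ξ p) * 0)) :=
      ((continuous_const.mul continuous_id).tendsto 0).mono_left nhdsWithin_le_nhds
    rw [mul_zero] at hl
    exact hl.eventually_lt_const hc0
  have hfin : m * 1 ≤ f (ξ p) := by
    refine le_of_tendsto (arc_lim.const_mul m) ?_
    filter_upwards [hθc, self_mem_nhdsWithin] with θ h1 h2
    have h2' : (0:ℝ) < θ := h2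
    have h3 := key θ h2'.le
    rcases min_le_iff.mp h3 with h4 | h4
    · rw [← mul_div_assoc, div_le_iff₀ h2']
      exact h4
    · linarith
  linarith

end RFO
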