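import Pool.Agent.Lib.MP_63b676_gt.InB

/-!
# Leaf InC: `u t p → f (ξ p)`

Proof. `u t p = exp (-(K² t)) ψ t p` is nonincreasing in `t` (`Smo_anti`, `decu`) and `≤ f (ξ p)` (`ule`); so it is enough
that for every `m < f (ξ p)`, `0 ≤ m`, there is one `t` with `u t p > m` (then for all smaller `t`; `m < 0` is trivial).
If `u t p ≤ m` for all `t ∈ (0,T)`, then `rdist (φ t) (ψ t) (p, arc 0) (p, arc θ) ≤ ψ t p θ ≤ exp (K² t) m θ`
(`rdist_arc_le`), in the limit `rdist 1 f (ξ p, arc 0) (ξ p, arc θ) ≤ m θ` (`le_of_tendsto_of_tendsto`). On the other side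
by `rdist_arc_ge` for `1`, `f` at `ξ p` with `m'`, `m < m' < f (ξ p)`, `δ` by continuity of `f`, `c = δ` (`∫ 1 = δ`):
`min (m' ‖arc θ - arc 0‖) δ ≤ m θ`; for small `θ > 0` (`m θ < δ`): `m' ‖arc θ - arc 0‖ / θ ≤ m`; `θ → 0+` (`arc_lim`):
`m' ≤ m`, contradiction. `init_of_comesOut` collects the four facts.
-/

namespace RFO

open Set Filter Topology
open scoped ContDiff

theorem ulim {T K : ℝ} (hT : 0 < T) {φ ψ : ℝ → ℝ → ℝ} (h : IsRicciFlow T φ ψ)
    (hs : Sol T (K ^ 2) (fun t p => Real.exp (-(K ^ 2 * t)) * ψ t p)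
      (fun t p => Real.exp (-(K ^ 2 * t)) * φ t p))
    {f ξ : ℝ → ℝ} (hf : Continuous f) (hf0 : ∀ x, 0 < f x) (hξ : Function.Injective ξ)
    (hc : ComesOut f ξ φ ψ) (p : ℝ) :
    Tendsto (fun t => Real.exp (-(K ^ 2 * t)) * ψ t p) (𝓝[>] 0) (𝓝 (f (ξ p))) := by
  have hanti : AntitoneOn (fun t => Real.exp (-(K ^ 2 * t)) * ψ t p) (Ioo 0 T) :=
    Smo_anti (W := fun t p => Real.exp (-(K ^ 2 * t)) * ψ t p) hs.smu p
      (fun t ht => hs.decu t ht p)
  have hle : ∀ t ∈ Ioo 0 T, Real.exp (-(K ^ 2 * t)) * ψ t p ≤ f (ξ p) :=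
    fun t ht => ule hT h hs hf hf0 hξ hc ht p
  have key : ∀ m, 0 ≤ m → m < f (ξ p) → ∃ t ∈ Ioo 0 T, m < Real.exp (-(K ^ 2 * t)) * ψ t p := by
    intro m hm0 hm
    by_contra hcon
    push Not at hcon
    obtain ⟨m', hmm', hm'f⟩ := exists_between hm
    have hm'0 : 0 ≤ m' := hm0.trans hmm'.le
    have hev : ∀ᶠ q in 𝓝 (ξ p), m' < f q := hf.continuousAt.eventually (lt_mem_nhds hm'f)
    obtain ⟨δ₀, hδ₀, hball⟩ := Metric.eventually_nhds_iff.1 hev
    have hδ : 0 < δ₀ / 2 := half_pos hδ₀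
    have hmin : ∀ q ∈ Icc (ξ p - δ₀ / 2) (ξ p + δ₀ / 2), m' ≤ f q := by
      intro q hq
      refine (hball ?_).le
      rw [Real.dist_eq, abs_lt]
      constructor
      · linarith [hq.1]
      · linarith [hq.2]
    have hup : ∀ θ : ℝ, 0 ≤ θ →
        rdist (fun _ => 1) f (ξ p, arc 0) (ξ p, arc θ) ≤ m * θ := by
      intro θ hθ
      have h1 := hc (p, arc 0) (p, arc θ) (arc_norm 0) (arc_norm θ)
      have h2 : Tendsto (fun t : ℝ => Real.exp (K ^ 2 * t) * m * θ) (𝓝[>] 0) (𝓝 (m * θ)) := by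
        have h3 : Continuous (fun t : ℝ => Real.exp (K ^ 2 * t) * m * θ) := by fun_prop
        have h4 := (h3.tendsto 0).mono_left (nhdsWithin_le_nhds (s := Ioi (0:ℝ)))
        simpa using h4
      refine le_of_tendsto_of_tendsto h1 h2 ?_
      filter_upwards [Ioo_mem_nhdsGT hT] with t ht
      have h5 := rdist_arc_le (φ t) (ψ t) (h.posψ t ht) p θ hθ
      have h6 : ψ t p ≤ Real.exp (K ^ 2 * t) * m := by
        have h7 := hcon t ht
        have h8 : Real.exp (K ^ 2 * t) * (Real.exp (-(K ^ 2 * t)) * ψ t p) = ψ t p := by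
          rw [← mul_assoc, ← Real.exp_add, add_neg_cancel, Real.exp_zero, one_mul]
        calc ψ t p = Real.exp (K ^ 2 * t) * (Real.exp (-(K ^ 2 * t)) * ψ t p) := h8.symm
          _ ≤ Real.exp (K ^ 2 * t) * m := mul_le_mul_of_nonneg_left h7 (Real.exp_pos _).le
      exact h5.trans (mul_le_mul_of_nonneg_right h6 hθ)
    have hlow : ∀ θ : ℝ, min (m' * ‖arc θ - arc 0‖) (δ₀ / 2) ≤
        rdist (fun _ => 1) f (ξ p, arc 0) (ξ p, arc θ) := fun θ =>
      rdist_arc_ge (fun _ => 1) f continuous_const hf (fun _ => one_pos) (ξ p) θ (δ₀ / 2) m'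
        (δ₀ / 2) hδ hm'0 hmin (by simp) (by simp)
    have hlim : Tendsto (fun θ : ℝ => m' * (‖arc θ - arc 0‖ / θ)) (𝓝[>] 0) (𝓝 (m' * 1)) :=
      arc_lim.const_mul m'
    have hsm : ∀ᶠ θ in 𝓝[>] (0:ℝ), m * θ < δ₀ / 2 := by
      have h3 : Continuous (fun θ : ℝ => m * θ) := by fun_prop
      have h4 := (h3.tendsto 0).mono_left (nhdsWithin_le_nhds (s := Ioi (0:ℝ)))
      rw [mul_zero] at h4
      exact h4.eventually (gt_mem_nhds hδ)
    have hfin : m' * 1 ≤ m := by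
      refine le_of_tendsto hlim ?_
      filter_upwards [hsm, self_mem_nhdsWithin] with θ hθ1 hθ2
      have hθ0 : (0:ℝ) < θ := hθ2
      have h5 := (hlow θ).trans (hup θ hθ0.le)
      have h6 : m' * ‖arc θ - arc 0‖ ≤ m * θ := by
        rcases min_le_iff.1 h5 with h7 | h7
        · exact h7
        · exact absurd h7 (not_le.2 hθ1)
      rw [← mul_div_assoc, div_le_iff₀ hθ0]
      exact h6
    rw [mul_one] at hfin
    exact absurd hfin (not_le.2 hmm')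
  refine tendsto_order.2 ⟨fun a ha => ?_, fun b hb => ?_⟩
  · obtain ⟨t₁, ht₁, hlt⟩ := key (max a 0) (le_max_right _ _) (max_lt ha (hf0 _))
    filter_upwards [Ioo_mem_nhdsGT ht₁.1] with t ht
    have h1 : Real.exp (-(K ^ 2 * t₁)) * ψ t₁ p ≤ Real.exp (-(K ^ 2 * t)) * ψ t p :=
      hanti ⟨ht.1, ht.2.trans ht₁.2⟩ ht₁ ht.2.le
    exact ((le_max_left a 0).trans_lt hlt).trans_le h1
  · filter_upwards [Ioo_mem_nhdsGT hT] with t ht
    exact (hle t ht).trans_lt hb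

theorem init_of_comesOut {T K : ℝ} (hT : 0 < T) {φ ψ : ℝ → ℝ → ℝ} (h : IsRicciFlow T φ ψ)
    (hs : Sol T (K ^ 2) (fun t p => Real.exp (-(K ^ 2 * t)) * ψ t p)
      (fun t p => Real.exp (-(K ^ 2 * t)) * φ t p))
    {f ξ : ℝ → ℝ} (hf : Continuous f) (hf0 : ∀ x, 0 < f x) (hξ : Function.Injective ξ)
    (hc : ComesOut f ξ φ ψ) :
    InitData T f ξ (fun t p => Real.exp (-(K ^ 2 * t)) * ψ t p)
      (fun t p => Real.exp (-(K ^ 2 * t)) * φ t p) :=
  ⟨fun p q hpq => lenlim hT h hs hf hf0 hξ hc p q hpq,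
    fun _ ht p q hpq => lenle hT h hs hf hf0 hξ hc ht p q hpq,
    fun _ ht p => ule hT h hs hf hf0 hξ hc ht p, fun p => ulim hT h hs hf hf0 hξ hc p⟩

end RFO
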