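import Pool.Agent.Lib.MP_63b676_gt.Ev1

/-!
# Leaf JJ1: differentiation of `J t = ∫ in α..β, G (100 u) v` under the integral sign

Proof. On a compact rectangle `[t-r, t+r] × [α, β]` (use `uIcc α β`) contained in `(0,T) × ℝ` the time derivative, given by
`time_hasDeriv`, is a continuous function of `(τ, x)` (`Smo_dt` for `u`, `v`, `G'_cont`, `G` continuous since differentiable), hence
bounded: `intervalIntegral.hasDerivAt_integral_of_dominated_loc_of_deriv_le`. `tderiv_cont`: the time derivative is a continuous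
function of `x` for fixed `t`.
-/

namespace RFO

open Set Filter Topology
open scoped ContDiff

private noncomputable def JJ1_F (u v : ℝ → ℝ → ℝ) (z : ℝ × ℝ) : ℝ :=
  100 * G' (100 * u z.1 z.2) * deriv (fun τ => u τ z.2) z.1 * v z.1 z.2 +
    G (100 * u z.1 z.2) * deriv (fun τ => v τ z.2) z.1

private theorem JJ1_Gcont : Continuous G :=
  continuous_iff_continuousAt.2 fun y => (G_deriv y).continuousAt

private theorem JJ1_contOn {T lam : ℝ} {u v : ℝ → ℝ → ℝ} (h : Sol T lam u v) :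
    ContinuousOn (JJ1_F u v) (Ioo 0 T ×ˢ univ) := by
  have h1 : ContinuousOn (fun z : ℝ × ℝ => u z.1 z.2) (Ioo 0 T ×ˢ univ) := h.smu.continuousOn
  have h2 : ContinuousOn (fun z : ℝ × ℝ => v z.1 z.2) (Ioo 0 T ×ˢ univ) := h.smv.continuousOn
  have h3 : ContinuousOn (fun z : ℝ × ℝ => deriv (fun τ => u τ z.2) z.1) (Ioo 0 T ×ˢ univ) :=
    (Smo_dt h.smu).continuousOn
  have h4 : ContinuousOn (fun z : ℝ × ℝ => deriv (fun τ => v τ z.2) z.1) (Ioo 0 T ×ˢ univ) :=
    (Smo_dt h.smv).continuousOn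
  have h5 : ContinuousOn (fun z : ℝ × ℝ => G' (100 * u z.1 z.2)) (Ioo 0 T ×ˢ univ) :=
    G'_cont.comp_continuousOn (continuousOn_const.mul h1)
  have h6 : ContinuousOn (fun z : ℝ × ℝ => G (100 * u z.1 z.2)) (Ioo 0 T ×ˢ univ) :=
    JJ1_Gcont.comp_continuousOn (continuousOn_const.mul h1)
  exact (((continuousOn_const.mul h5).mul h3).mul h2).add (h6.mul h4)

private theorem JJ1_fcont {T lam : ℝ} {u v : ℝ → ℝ → ℝ} (h : Sol T lam u v) {t : ℝ}
    (ht : t ∈ Ioo 0 T) : Continuous (fun x => G (100 * u t x) * v t x) := by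
  have h1 : Continuous (u t) := (Smo_slice h.smu ht).continuous
  have h2 : Continuous (v t) := (Smo_slice h.smv ht).continuous
  exact (JJ1_Gcont.comp (continuous_const.mul h1)).mul h2

private theorem JJ1_Fcont {T lam : ℝ} {u v : ℝ → ℝ → ℝ} (h : Sol T lam u v) {t : ℝ}
    (ht : t ∈ Ioo 0 T) : Continuous (fun x => JJ1_F u v (t, x)) :=
  (JJ1_contOn h).comp_continuous (continuous_const.prodMk continuous_id) fun _ => ⟨ht, mem_univ _⟩

theorem tderiv_cont {T lam : ℝ} {u v : ℝ → ℝ → ℝ} (h : Sol T lam u v) {t : ℝ} (ht : t ∈ Ioo 0 T) :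
    Continuous (fun x => deriv (fun τ => G (100 * u τ x) * v τ x) t) := by
  have e : (fun x => deriv (fun τ => G (100 * u τ x) * v τ x) t) = fun x => JJ1_F u v (t, x) := by
    funext x
    exact (time_hasDeriv h ht x).deriv
  rw [e]
  exact JJ1_Fcont h ht

theorem J_hasDeriv {T lam : ℝ} {u v : ℝ → ℝ → ℝ} (h : Sol T lam u v) (α β : ℝ) {t : ℝ}
    (ht : t ∈ Ioo 0 T) :
    HasDerivAt (fun τ => ∫ x in α..β, G (100 * u τ x) * v τ x)
      (∫ x in α..β, deriv (fun τ => G (100 * u τ x) * v τ x) t) t := by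
  obtain ⟨r, hr, hsub⟩ : ∃ r > 0, Metric.closedBall t r ⊆ Ioo 0 T :=
    Metric.nhds_basis_closedBall.mem_iff.1 (isOpen_Ioo.mem_nhds ht)
  have hK : IsCompact (Metric.closedBall t r ×ˢ uIcc α β) :=
    (isCompact_closedBall t r).prod isCompact_uIcc
  obtain ⟨C, hC⟩ := hK.exists_bound_of_continuousOn
    ((JJ1_contOn h).mono (prod_mono hsub (subset_univ _)))
  have e : (fun x => deriv (fun τ => G (100 * u τ x) * v τ x) t) = fun x => JJ1_F u v (t, x) := by
    funext x
    exact (time_hasDeriv h ht x).deriv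
  rw [e]
  refine (intervalIntegral.hasDerivAt_integral_of_dominated_loc_of_deriv_le
    (F' := fun τ x => JJ1_F u v (τ, x)) (bound := fun _ => C)
    (Metric.closedBall_mem_nhds t hr) ?_ ?_ ?_ ?_ ?_ ?_).2
  · filter_upwards [Metric.closedBall_mem_nhds t hr] with τ hτ
    exact (JJ1_fcont h (hsub hτ)).aestronglyMeasurable
  · exact (JJ1_fcont h ht).intervalIntegrable _ _
  · exact (JJ1_Fcont h ht).aestronglyMeasurable
  · refine Filter.Eventually.of_forall fun x hx τ hτ => ?_
    exact hC (τ, x) ⟨hτ, uIoc_subset_uIcc hx⟩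
  · exact intervalIntegrable_const
  · refine Filter.Eventually.of_forall fun x _ τ hτ => ?_
    exact time_hasDeriv h (hsub hτ) x

end RFO
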