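import Pool.Agent.Lib.MP_63b676_gt.JJ1
import Pool.Agent.Lib.MP_63b676_gt.Ev2

/-!
# Leaf JJ2: the integral `J t = ∫ in α..β, G (100 u) v` is almost nondecreasing

Proof. By `J_hasDeriv` and `ev`, integrating over `[α, β]` for fixed `t`: `J' t ≥ exp (-(2 lam t)) (W β - W α) - C ∫ v t ≥ - C L`,
`C = 10^6 + 400 lam`, where `W x = 100 (A0 (100 u t x) * ds (v t) (u t) x)` vanishes at `α` and `β`.
-/

namespace RFO

open Set Filter Topology
open scoped ContDiff

private lemma JJ2_A0_cont : Continuous A0 :=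
  continuous_iff_continuousAt.2 fun y => (A0_deriv y).continuousAt

private lemma JJ2_flux_cont {T lam : ℝ} {u v : ℝ → ℝ → ℝ} (h : Sol T lam u v) {t : ℝ} (ht : t ∈ Ioo 0 T) :
    Continuous (fun p => v t p * (10000 * A0' (100 * u t p) * ds (v t) (u t) p ^ 2 +
        100 * A0 (100 * u t p) * ds (v t) (ds (v t) (u t)) p)) := by
  have cu : Continuous (u t) := (Smo_slice h.smu ht).continuous
  have cv : Continuous (v t) := (Smo_slice h.smv ht).continuous
  have s1 := Smo_ds h.smv h.smu h.posv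
  have c1 : Continuous (ds (v t) (u t)) :=
    (Smo_slice (W := fun t p => ds (v t) (u t) p) s1 ht).continuous
  have s2 := Smo_ds (W := fun t p => ds (v t) (u t) p) h.smv s1 h.posv
  have c2 : Continuous (ds (v t) (ds (v t) (u t))) :=
    (Smo_slice (W := fun t p => ds (v t) (ds (v t) (u t)) p) s2 ht).continuous
  have ca' : Continuous (fun p => A0' (100 * u t p)) := A0'_cont.comp (continuous_const.mul cu)
  have ca : Continuous (fun p => A0 (100 * u t p)) := JJ2_A0_cont.comp (continuous_const.mul cu)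
  exact cv.mul (((continuous_const.mul ca').mul (c1.pow 2)).add ((continuous_const.mul ca).mul c2))

private lemma JJ2_deriv {T lam : ℝ} {u v : ℝ → ℝ → ℝ} (h : Sol T lam u v) (hlam : 0 ≤ lam)
    (hle : ∀ t ∈ Ioo 0 T, ∀ p, u t p ≤ 1) {α β L : ℝ} (hαβ : α ≤ β)
    (hα : ∀ t ∈ Ioo 0 T, u t α ≤ 1 / 100) (hβ : ∀ t ∈ Ioo 0 T, u t β ≤ 1 / 100)
    (hL : ∀ t ∈ Ioo 0 T, ∫ x in α..β, v t x ≤ L) {t : ℝ} (ht : t ∈ Ioo 0 T) :
    0 ≤ (∫ x in α..β, deriv (fun τ => G (100 * u τ x) * v τ x) t) + (10 ^ 6 + 400 * lam) * L := by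
  have hC : (0 : ℝ) ≤ 10 ^ 6 + 400 * lam := by positivity
  have cf := JJ2_flux_cont h ht
  have cv : Continuous (v t) := (Smo_slice h.smv ht).continuous
  have hder : ∀ p, deriv (fun x => 100 * (A0 (100 * u t x) * ds (v t) (u t) x)) p =
      v t p * (10000 * A0' (100 * u t p) * ds (v t) (u t) p ^ 2 +
        100 * A0 (100 * u t p) * ds (v t) (ds (v t) (u t)) p) := fun p => (flux_hasDeriv h ht p).deriv
  have hftc : ∫ p in α..β, (v t p * (10000 * A0' (100 * u t p) * ds (v t) (u t) p ^ 2 +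
        100 * A0 (100 * u t p) * ds (v t) (ds (v t) (u t)) p)) = 0 := by
    rw [intervalIntegral.integral_eq_sub_of_hasDerivAt
      (f := fun x => 100 * (A0 (100 * u t x) * ds (v t) (u t) x))
      (fun x _ => flux_hasDeriv h ht x) (cf.intervalIntegrable α β)]
    have e1 : A0 (100 * u t β) = 0 := A0_zero (by have := hβ t ht; linarith)
    have e2 : A0 (100 * u t α) = 0 := A0_zero (by have := hα t ht; linarith)
    rw [e1, e2]
    ring
  have hmono : ∫ p in α..β, (Real.exp (-(2 * lam * t)) *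
      (v t p * (10000 * A0' (100 * u t p) * ds (v t) (u t) p ^ 2 +
        100 * A0 (100 * u t p) * ds (v t) (ds (v t) (u t)) p)) - (10 ^ 6 + 400 * lam) * v t p) ≤
      ∫ x in α..β, deriv (fun τ => G (100 * u τ x) * v τ x) t := by
    refine intervalIntegral.integral_mono hαβ ?_ ?_ fun p => ?_
    · exact ((continuous_const.mul cf).sub (continuous_const.mul cv)).intervalIntegrable α β
    · exact (tderiv_cont h ht).intervalIntegrable α β
    · have h1 := ev h hlam hle ht p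
      rw [hder p] at h1
      exact h1
  have i1 : IntervalIntegrable (fun p => Real.exp (-(2 * lam * t)) *
      (v t p * (10000 * A0' (100 * u t p) * ds (v t) (u t) p ^ 2 +
        100 * A0 (100 * u t p) * ds (v t) (ds (v t) (u t)) p))) MeasureTheory.volume α β :=
    (continuous_const.mul cf).intervalIntegrable α β
  have i2 : IntervalIntegrable (fun p => (10 ^ 6 + 400 * lam) * v t p) MeasureTheory.volume α β :=
    (continuous_const.mul cv).intervalIntegrable α β
  rw [intervalIntegral.integral_sub i1 i2, intervalIntegral.integral_const_mul,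
    intervalIntegral.integral_const_mul, hftc, mul_zero] at hmono
  have h2 := mul_le_mul_of_nonneg_left (hL t ht) hC
  linarith

theorem J_mono {T lam : ℝ} {u v : ℝ → ℝ → ℝ} (h : Sol T lam u v) (hlam : 0 ≤ lam)
    (hle : ∀ t ∈ Ioo 0 T, ∀ p, u t p ≤ 1) {α β L : ℝ} (hαβ : α ≤ β)
    (hα : ∀ t ∈ Ioo 0 T, u t α ≤ 1 / 100) (hβ : ∀ t ∈ Ioo 0 T, u t β ≤ 1 / 100)
    (hL : ∀ t ∈ Ioo 0 T, ∫ x in α..β, v t x ≤ L) {t₁ t₂ : ℝ} (h1 : 0 < t₁) (h12 : t₁ ≤ t₂)
    (h2 : t₂ < T) :
    (∫ x in α..β, G (100 * u t₁ x) * v t₁ x) - (10 ^ 6 + 400 * lam) * L * (t₂ - t₁) ≤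
      ∫ x in α..β, G (100 * u t₂ x) * v t₂ x := by
  have hd : ∀ t ∈ Ioo 0 T, HasDerivAt (fun τ => (∫ x in α..β, G (100 * u τ x) * v τ x) +
      (10 ^ 6 + 400 * lam) * L * τ)
      ((∫ x in α..β, deriv (fun τ => G (100 * u τ x) * v τ x) t) + (10 ^ 6 + 400 * lam) * L) t := by
    intro t ht
    have h3 := (hasDerivAt_id t).const_mul ((10 ^ 6 + 400 * lam) * L)
    rw [mul_one] at h3
    exact (J_hasDeriv h α β ht).add h3
  have hm : MonotoneOn (fun τ => (∫ x in α..β, G (100 * u τ x) * v τ x) +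
      (10 ^ 6 + 400 * lam) * L * τ) (Ioo 0 T) := by
    refine monotoneOn_of_deriv_nonneg (convex_Ioo 0 T) ?_ ?_ ?_
    · exact fun t ht => (hd t ht).continuousAt.continuousWithinAt
    · rw [isOpen_Ioo.interior_eq]
      exact fun t ht => (hd t ht).differentiableAt.differentiableWithinAt
    · rw [isOpen_Ioo.interior_eq]
      intro t ht
      rw [(hd t ht).deriv]
      exact JJ2_deriv h hlam hle hαβ hα hβ hL ht
  have h3 := hm (show t₁ ∈ Ioo 0 T from ⟨h1, lt_of_le_of_lt h12 h2⟩)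
    (show t₂ ∈ Ioo 0 T from ⟨lt_of_lt_of_le h1 h12, h2⟩) h12
  simp only at h3
  linarith

end RFO
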