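import Pool.Agent.Lib.MP_63b676_gt.Smo

/-!
# Leaf Val: the valley between two bulges

Statement: if `u t₁ p, u t₁ q ≥ b > a ≥ u t α` for all `t`, `p < α < q`, then `t₁ ≤ a²`.
Proof. For `0 < t ≤ t₁`: `u t p ≥ b`, `u t q ≥ b` (`Smo_anti`). Let `m t` be the minimum of `u t x ^ 2` over
`x ∈ [p, q]`. Fix `t₀ ∈ (0, t₁)`. `m` is continuous on `[t₀, t₁]` (minimum over a compact set of a jointly continuous function:
`IsCompact.continuous_sInf` for the function `(t, x) ↦ u (max t₀ (min t t₁)) x ^ 2`, or `IsCompact.exists_isMinOn` and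
uniform continuity). At `t ∈ [t₀, t₁)` let `x` be a point of `[p, q]` where the minimum is attained; since
`u t α ≤ a < b ≤ u t p, u t q` and `0 < u`, `x` is an interior point, a local minimum of `u t`, so
`deriv (u t) x = 0` (`IsLocalMin.deriv_eq_zero`), `ds (v t) (u t) x = 0`.
From `decv` and `eqv`: `2 k u_ss / u ≤ lam` with `k = exp (-(2 lam t))` (divide by `v > 0`); from `equ`:
`u_t = k u_ss - k/u - lam u ≤ (lam/2) u - k / u - lam u ≤ - k/u`. So `deriv (fun τ => u τ x ^ 2) t = 2 u u_t ≤ -2k ≤ -1`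
(`k ≥ exp (-(2 lam t₁)) ≥ 1/2`). For `z > t`: `slope m t z ≤ slope (fun τ => u τ x ^ 2) t z` (`m z ≤ u z x ^ 2`,
`m t = u t x ^ 2`) and the latter tends to a number `≤ -1` as `z → t+`. Now
`image_le_of_liminf_slope_right_le_deriv_boundary` with `B t = m t₀ - (t - t₀)`: `m t₁ ≤ m t₀ - (t₁ - t₀)`, and
`m t₀ ≤ u t₀ α ^ 2 ≤ a²`, `m t₁ ≥ 0`: `t₁ ≤ a² + t₀` for every `t₀ ∈ (0, t₁)`.
-/

namespace RFO

open Set Filter Topology
open scoped ContDiff

theorem valley {T lam : ℝ} {u v : ℝ → ℝ → ℝ} (h : Sol T lam u v) (hlam : 0 ≤ lam) {t₁ : ℝ}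
    (ht₁ : t₁ ∈ Ioo 0 T) (hk : 1 / 2 ≤ Real.exp (-(2 * lam * t₁))) {p α q a b : ℝ} (hpα : p < α)
    (hαq : α < q) (hab : a < b) (ha : ∀ t ∈ Ioo 0 T, u t α ≤ a) (hp : b ≤ u t₁ p)
    (hq : b ≤ u t₁ q) : t₁ ≤ a ^ 2 := by
  by_contra hcon
  have hcon' : a ^ 2 < t₁ := not_le.1 hcon
  have h1T : t₁ < T := ht₁.2
  have ha2 : 0 ≤ a ^ 2 := sq_nonneg a
  have ht₁0 : 0 < t₁ := ht₁.1
  set t₀ : ℝ := (t₁ - a ^ 2) / 2 with ht₀def
  have ht₀ : 0 < t₀ := by rw [ht₀def]; linarith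
  have ht₀₁ : t₀ < t₁ := by rw [ht₀def]; linarith
  set c : ℝ := 2 * a ^ 2 / (t₁ + a ^ 2) with hcdef
  have hden : 0 < t₁ + a ^ 2 := by linarith
  have hc1 : c < 1 := by
    rw [hcdef, div_lt_one hden]
    linarith
  have hc2 : c * (t₁ - t₀) = a ^ 2 := by
    rw [hcdef, ht₀def]
    field_simp
    ring
  let w : ℝ × ℝ → ℝ := fun z => u z.1 z.2 ^ 2 + c * (z.1 - t₀)
  let K : Set (ℝ × ℝ) := Icc t₀ t₁ ×ˢ Icc p q
  have hK : IsCompact K := isCompact_Icc.prod isCompact_Icc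
  have hKsub : K ⊆ Ioo 0 T ×ˢ univ := by
    rintro ⟨t, x⟩ ⟨h1, -⟩
    exact ⟨⟨lt_of_lt_of_le ht₀ h1.1, lt_of_le_of_lt h1.2 h1T⟩, trivial⟩
  have hwc : ContinuousOn w K := by
    have h1 : ContinuousOn (fun z : ℝ × ℝ => u z.1 z.2) K := h.smu.continuousOn.mono hKsub
    exact (h1.pow 2).add ((continuous_const.mul (continuous_fst.sub continuous_const)).continuousOn)
  have hCc : IsCompact (K ∩ w ⁻¹' Iic (a ^ 2)) :=
    hK.of_isClosed_subset (hwc.preimage_isClosed_of_isClosed hK.isClosed isClosed_Iic)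
      inter_subset_left
  have hmem₀ : t₀ ∈ Ioo 0 T := ⟨ht₀, lt_trans ht₀₁ h1T⟩
  have hne : (K ∩ w ⁻¹' Iic (a ^ 2)).Nonempty := by
    refine ⟨(t₀, α), ⟨⟨le_refl _, ht₀₁.le⟩, ⟨hpα.le, hαq.le⟩⟩, ?_⟩
    show u t₀ α ^ 2 + c * (t₀ - t₀) ≤ a ^ 2
    rw [sub_self, mul_zero, add_zero]
    exact pow_le_pow_left₀ (h.posu t₀ hmem₀ α).le (ha t₀ hmem₀) 2
  obtain ⟨⟨s, x⟩, ⟨⟨hs, hx⟩, hwle⟩, hmax⟩ := hCc.exists_isMaxOn hne continuous_fst.continuousOn
  have hs' : s ∈ Icc t₀ t₁ := hs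
  have hx' : x ∈ Icc p q := hx
  have hw1 : u s x ^ 2 + c * (s - t₀) ≤ a ^ 2 := hwle
  have hsT : s ∈ Ioo 0 T := ⟨lt_of_lt_of_le ht₀ hs'.1, lt_of_le_of_lt hs'.2 h1T⟩
  have hux : 0 < u s x := h.posu s hsT x
  have hst : s < t₁ := by
    rcases lt_or_eq_of_le hs'.2 with h1 | h1
    · exact h1
    · exfalso
      rw [h1] at hw1 hux
      have h2 : 0 < u t₁ x ^ 2 := by positivity
      linarith
  have hgt : ∀ t ∈ Ioc s t₁, ∀ y ∈ Icc p q, a ^ 2 < u t y ^ 2 + c * (t - t₀) := by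
    intro t ht y hy
    by_contra hle
    have h1 : ((t, y) : ℝ × ℝ) ∈ K ∩ w ⁻¹' Iic (a ^ 2) :=
      ⟨⟨⟨le_trans hs'.1 ht.1.le, ht.2⟩, hy⟩, not_lt.1 hle⟩
    have h2 : t ≤ s := hmax h1
    exact absurd ht.1 (not_lt.2 h2)
  have hev : ∀ᶠ t in 𝓝[>] s, t ∈ Ioc s t₁ := Ioc_mem_nhdsGT hst
  have hge : ∀ y ∈ Icc p q, a ^ 2 ≤ u s y ^ 2 + c * (s - t₀) := by
    intro y hy
    have h1 : ContinuousAt (fun t => u t y ^ 2 + c * (t - t₀)) s := by
      have h2 := (Smo_diffAt h.smu y hsT).continuousAt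
      exact (h2.pow 2).add (continuousAt_const.mul (continuousAt_id.sub continuousAt_const))
    have h3 : Tendsto (fun t => u t y ^ 2 + c * (t - t₀)) (𝓝[>] s)
        (𝓝 (u s y ^ 2 + c * (s - t₀))) := h1.tendsto.mono_left nhdsWithin_le_nhds
    exact ge_of_tendsto h3 (hev.mono fun t ht => (hgt t ht y hy).le)
  have hmin : ∀ y ∈ Icc p q, u s x ≤ u s y := by
    intro y hy
    have h1 := hge y hy
    have h2 : u s x ^ 2 ≤ u s y ^ 2 := by linarith
    exact (pow_le_pow_iff_left₀ hux.le (h.posu s hsT y).le two_ne_zero).1 h2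
  have hxa : u s x ≤ a := le_trans (hmin α ⟨hpα.le, hαq.le⟩) (ha s hsT)
  have hanti : ∀ y, u t₁ y ≤ u s y := fun y => Smo_anti h.smu y (fun t ht => h.decu t ht y) hsT ht₁ hs'.2
  have hxp : p < x := by
    rcases lt_or_eq_of_le hx'.1 with h1 | h1
    · exact h1
    · exfalso
      have h2 := hanti p
      rw [h1] at h2 hp
      linarith
  have hxq : x < q := by
    rcases lt_or_eq_of_le hx'.2 with h1 | h1
    · exact h1
    · exfalso
      have h2 := hanti q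
      rw [← h1] at h2 hq
      linarith
  have hloc : IsLocalMin (u s) x := by
    have h1 : IsMinOn (u s) (Icc p q) x := fun y hy => hmin y hy
    exact h1.isLocalMin (Icc_mem_nhds hxp hxq)
  have hd0 : ds (v s) (u s) x = 0 := by
    unfold ds
    rw [hloc.deriv_eq_zero, zero_div]
  have hvx : 0 < v s x := h.posv s hsT x
  have hequ := h.equ s hsT x
  have heqv := h.eqv s hsT x
  have hdv := h.decv s hsT x
  rw [heqv] at hdv
  rw [hd0] at hequ
  have hk' : 1 / 2 ≤ Real.exp (-(2 * lam * s)) := by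
    refine le_trans hk (Real.exp_le_exp.2 ?_)
    have h1 : 2 * lam * s ≤ 2 * lam * t₁ := mul_le_mul_of_nonneg_left hs'.2 (by positivity)
    linarith
  generalize Real.exp (-(2 * lam * s)) = k at hk' hequ hdv
  generalize ds (v s) (ds (v s) (u s)) x = S at hequ hdv
  have hk0 : 0 < k := by linarith
  have h2 : 2 * k * S ≤ lam * u s x := by
    have h3 : (2 * k * (S / u s x) - lam) * v s x ≤ 0 := by linarith
    have h4 : 2 * k * (S / u s x) - lam ≤ 0 := by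
      by_contra h5
      have h6 := mul_pos (not_le.1 h5) hvx
      linarith
    have h5 : 2 * k * (S / u s x) = 2 * k * S / u s x := by ring
    rw [h5] at h4
    have h6 : 2 * k * S / u s x ≤ lam := by linarith
    exact (div_le_iff₀ hux).1 h6
  have hu2 : 2 * u s x * deriv (fun τ => u τ x) s ≤ -1 := by
    rw [hequ]
    have h3 : 2 * u s x * (k * (S - (1 - 0 ^ 2) / u s x) - lam * u s x) =
        u s x * (2 * k * S) - 2 * k - 2 * lam * u s x ^ 2 := by
      field_simp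
      ring
    rw [h3]
    have h4 : u s x * (2 * k * S) ≤ u s x * (lam * u s x) := mul_le_mul_of_nonneg_left h2 hux.le
    have h5 : 0 ≤ lam * u s x ^ 2 := by positivity
    nlinarith
  have hder : HasDerivAt (fun t => u t x ^ 2 + c * (t - t₀))
      (2 * u s x * deriv (fun τ => u τ x) s + c) s := by
    have h3 := (Smo_diffAt h.smu x hsT).hasDerivAt
    have h4 := (h3.pow 2).add (((hasDerivAt_id s).sub_const t₀).const_mul c)
    refine h4.congr_deriv ?_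
    push_cast
    ring
  have hsl := (hasDerivAt_iff_tendsto_slope.1 hder).mono_left
    (nhdsWithin_mono s (fun t (ht : t ∈ Ioi s) => (ne_of_gt ht : t ≠ s)))
  have hnn : 0 ≤ 2 * u s x * deriv (fun τ => u τ x) s + c := by
    refine ge_of_tendsto hsl (hev.mono fun t ht => ?_)
    rw [slope_def_field]
    have h3 := hgt t ht x hx'
    have h4 : 0 < t - s := sub_pos.2 ht.1
    exact div_nonneg (by linarith) h4.le
  linarith

end RFO
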