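import Pool.Agent.Lib.MP_63b676_gt.SolF
import Pool.Agent.Lib.MP_63b676_gt.InC
import Pool.Agent.Lib.MP_63b676_gt.Bulg
import Pool.Agent.Lib.MP_63b676_gt.Val
import Pool.Agent.Lib.MP_63b676_gt.Ex2
import Pool.Agent.Lib.MP_63b676_gt.Ex3
import Pool.Agent.Lib.MP_63b676_gt.CoB

/-!
# Main: assembly
-/

namespace RFO

open Set Filter Topology
open scoped ContDiff

/-- The core: no flow if `ξ` is strictly increasing. -/
theorem no_flow_mono {T lam : ℝ} (hT : 0 < T) {u v : ℝ → ℝ → ℝ} (h : Sol T lam u v) (hlam : 0 ≤ lam)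
    {f ξ : ℝ → ℝ} (hi : InitData T f ξ u v) (hf1 : ∀ x, f x ≤ 1) (hmono : StrictMono ξ)
    (hsurj : Function.Surjective ξ)
    (hb : ∀ a > 0, ∃ x y z : ℝ, Bulge f a x y ∧ Bulge f a y z) : False := by
  -- the time `t₁`
  obtain ⟨t₁, ht₁, hsmall, hk⟩ : ∃ t₁ ∈ Ioo 0 T, (10 ^ 6 + 400 * lam) * t₁ ≤ 5 ∧
      1 / 2 ≤ Real.exp (-(2 * lam * t₁)) := by
    have hpos : (0:ℝ) < 10 ^ 6 + 400 * lam := by positivity
    refine ⟨min (T / 2) (1 / (10 ^ 6 + 400 * lam)), ⟨by positivity, ?_⟩, ?_, ?_⟩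
    · exact lt_of_le_of_lt (min_le_left _ _) (by linarith)
    · calc (10 ^ 6 + 400 * lam) * min (T / 2) (1 / (10 ^ 6 + 400 * lam))
          ≤ (10 ^ 6 + 400 * lam) * (1 / (10 ^ 6 + 400 * lam)) :=
            mul_le_mul_of_nonneg_left (min_le_right _ _) hpos.le
        _ = 1 := by field_simp
        _ ≤ 5 := by norm_num
    · have h2 : 2 * lam * min (T / 2) (1 / (10 ^ 6 + 400 * lam)) ≤ 1 / 200 := by
        calc 2 * lam * min (T / 2) (1 / (10 ^ 6 + 400 * lam))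
            ≤ 2 * lam * (1 / (10 ^ 6 + 400 * lam)) :=
              mul_le_mul_of_nonneg_left (min_le_right _ _) (by positivity)
          _ ≤ 1 / 200 := by
              rw [mul_one_div, div_le_div_iff₀ hpos (by norm_num)]
              nlinarith
      have h3 := Real.add_one_le_exp (-(2 * lam * min (T / 2) (1 / (10 ^ 6 + 400 * lam))))
      linarith
  have ht0 : 0 < t₁ := ht₁.1
  -- the neck size
  obtain ⟨a, ha0, ha1, ha2⟩ : ∃ a > 0, a ≤ 1 / 100 ∧ a ^ 2 < t₁ := by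
    refine ⟨min (1 / 100) (Real.sqrt t₁ / 2), by positivity, min_le_left _ _, ?_⟩
    have h1 : min (1 / 100) (Real.sqrt t₁ / 2) ≤ Real.sqrt t₁ / 2 := min_le_right _ _
    have h2 : 0 < min (1 / 100) (Real.sqrt t₁ / 2) := by positivity
    calc min (1 / 100) (Real.sqrt t₁ / 2) ^ 2 ≤ (Real.sqrt t₁ / 2) ^ 2 := by gcongr
      _ = t₁ / 4 := by rw [div_pow, Real.sq_sqrt ht0.le]; norm_num
      _ < t₁ := by linarith
  obtain ⟨x, y, z, hxy, hyz⟩ := hb a ha0
  have mk : ∀ {x y : ℝ}, Bulge f a x y → Bulge f (1 / 100) x y := fun hh =>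
    ⟨hh.1.trans ha1, hh.2.1.trans ha1, hh.2.2⟩
  obtain ⟨α, rfl⟩ := hsurj x
  obtain ⟨β, rfl⟩ := hsurj y
  obtain ⟨γ, rfl⟩ := hsurj z
  have lt_of : ∀ {s t : ℝ}, Bulge f a (ξ s) (ξ t) → s < t := by
    intro s t hh
    obtain ⟨_, _, c, d, h1, h2, h3, _⟩ := hh
    exact hmono.lt_iff_lt.1 (by linarith)
  have hαβ := lt_of hxy
  have hβγ := lt_of hyz
  have sj : ∀ s t : ℝ, ∀ w ∈ Icc (ξ s) (ξ t), ∃ p ∈ Icc s t, ξ p = w := by
    intro s t w hw
    obtain ⟨p, rfl⟩ := hsurj w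
    exact ⟨p, ⟨hmono.le_iff_le.1 hw.1, hmono.le_iff_le.1 hw.2⟩, rfl⟩
  obtain ⟨p, hp, hpu⟩ := bulge h hlam hi hf1 hmono ht₁ hsmall hαβ (sj α β) (mk hxy)
  obtain ⟨q, hq, hqu⟩ := bulge h hlam hi hf1 hmono ht₁ hsmall hβγ (sj β γ) (mk hyz)
  have hneck : ∀ t ∈ Ioo 0 T, u t β ≤ a := fun t ht => (hi.ule t ht β).trans hxy.2.1
  have hab : a < 1 / 10 := by linarith
  have hpβ : p < β := by
    rcases lt_or_eq_of_le hp.2 with h' | h'
    · exact h'
    · subst h'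
      linarith [hneck t₁ ht₁]
  have hβq : β < q := by
    rcases lt_or_eq_of_le hq.1 with h' | h'
    · exact h'
    · subst h'
      linarith [hneck t₁ ht₁]
  have := valley h hlam ht₁ hk hpβ hβq hab hneck hpu hqu
  linarith

/-- Reflection of a bulge. -/
theorem Bulge_neg {f : ℝ → ℝ} {a x y : ℝ} (h : Bulge f a x y) : Bulge (fun s => f (-s)) a (-y) (-x) := by
  obtain ⟨h1, h2, c, d, h3, h4, h5, h6, h7⟩ := h
  refine ⟨by simpa using h2, by simpa using h1, -d, -c, by linarith, by linarith, by linarith, ?_, by linarith⟩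
  intro s hs
  exact h6 (-s) ⟨by linarith [hs.2], by linarith [hs.1]⟩

theorem no_flow {T K : ℝ} (hT : 0 < T) {φ ψ : ℝ → ℝ → ℝ} (h : IsRicciFlow T φ ψ)
    (hr : RicGE T K φ ψ) {f : ℝ → ℝ} (hf : Continuous f) (hf0 : ∀ x, 0 < f x) (hf1 : ∀ x, f x ≤ 1)
    (hb : ∀ a > 0, ∃ x y z : ℝ, Bulge f a x y ∧ Bulge f a y z) {ξ : ℝ → ℝ} (hξc : Continuous ξ)
    (hξi : Function.Injective ξ) (hξs : Function.Surjective ξ) (hc : ComesOut f ξ φ ψ) : False := by
  have hs := sol_of_flow h hr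
  have hi := init_of_comesOut hT h hs hf hf0 hξi hc
  rcases hξc.strictMono_of_inj hξi with hm | hm
  · exact no_flow_mono hT hs (sq_nonneg K) hi hf1 hm hξs hb
  · have hi' : InitData T (fun s => f (-s)) (fun p => -ξ p)
        (fun t p => Real.exp (-(K ^ 2 * t)) * ψ t p) (fun t p => Real.exp (-(K ^ 2 * t)) * φ t p) := by
      have e : ∀ p q : ℝ, |(-ξ q) - (-ξ p)| = |ξ q - ξ p| := by
        intro p q
        rw [show (-ξ q) - (-ξ p) = -(ξ q - ξ p) by ring, abs_neg]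
      refine ⟨?_, ?_, ?_, ?_⟩
      · intro p q hpq
        have := hi.lenlim p q hpq
        rwa [← e] at this
      · intro t ht p q hpq
        have := hi.lenle t ht p q hpq
        rwa [← e] at this
      · intro t ht p
        simpa using hi.ule t ht p
      · intro p
        simpa using hi.ulim p
    refine no_flow_mono hT hs (sq_nonneg K) hi' (fun x => hf1 _) (ξ := fun p => -ξ p) ?_ ?_ ?_
    · intro p q hpq
      have := hm hpq
      simpa using this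
    · intro z
      obtain ⟨p, hp⟩ := hξs (-z)
      exact ⟨p, by simp [hp]⟩
    · intro a ha
      obtain ⟨x, y, z, h1, h2⟩ := hb a ha
      exact ⟨-z, -y, -x, Bulge_neg h2, Bulge_neg h1⟩

theorem main : ∃ f : ℝ → ℝ, ContDiff ℝ ∞ f ∧ (∀ x, 0 < f x) ∧
    (∀ x, -1 ≤ ricR (fun _ => 1) f x ∧ -1 ≤ ricT (fun _ => 1) f x) ∧ Complete f ∧
    ∀ (T K : ℝ) (φ ψ : ℝ → ℝ → ℝ) (ξ : ℝ → ℝ), 0 < T → Continuous ξ → Function.Injective ξ →
      Function.Surjective ξ → IsRicciFlow T φ ψ → RicGE T K φ ψ → ¬ ComesOut f ξ φ ψ := by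
  obtain ⟨M, hM, hb⟩ := hh_bound
  set ε : ℝ := 1 / (4 * M) with hεdef
  have hε : 0 < ε := by positivity
  have hεM : ε * M ≤ 1 / 4 := by
    rw [hεdef]
    field_simp
    exact le_refl _
  have hsm : ContDiff ℝ ∞ (fun x => Real.exp (-(ε * hh x))) :=
    Real.contDiff_exp.comp ((contDiff_const.mul hh_smooth).neg)
  have h0 : ∀ x, 0 < Real.exp (-(ε * hh x)) := fun x => Real.exp_pos _
  have h1 : ∀ x, Real.exp (-(ε * hh x)) ≤ 1 := fun x => by
    rw [Real.exp_le_one_iff]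
    have := mul_nonneg hε.le (hh_nonneg x)
    linarith
  refine ⟨fun x => Real.exp (-(ε * hh x)), hsm, h0, ?_, complete_example hsm.continuous h0 h1, ?_⟩
  · exact fun x => ric_example hh_smooth hh_nonneg hε hεM hb x
  · intro T K φ ψ ξ hT hξc hξi hξs hfl hr hc
    exact no_flow hT hfl hr hsm.continuous h0 h1 (fun a ha => bulges_example hε ha) hξc hξi hξs hc

end RFO
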