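import Pool.Agent.Lib.MP_63b676_gt.Smo

/-!
# Leaf SolF: the normalised equations

`u t p = exp (-(K² t)) ψ t p`, `v t p = exp (-(K² t)) φ t p`, `lam = K²`.
Proof. `smu`, `smv`: products of smooth functions. For `t` fixed, `e = exp (-(K² t)) > 0` and `v t = e φ t`, `u t = e ψ t`
as functions of `p`, so `ds (v t) (u t) = ds (φ t) (ψ t)` (the factor cancels) and
`ds (v t) (ds (v t) (u t)) p = (1/e) ds (φ t) (ds (φ t) (ψ t)) p`. From `eqψ`: `2 ψ ψ_t = -2 ricT ψ²` (chain rule,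
`DifferentiableAt` by `Smo_diffAt`), so `ψ_t = -ricT ψ = ψ_ss - (1 - ψ_s²)/ψ`; likewise `φ_t = -ricR φ = 2 ψ_ss φ / ψ`.
Then `u_t = e ψ_t - K² e ψ`, and `e (ψ_ss - (1-ψ_s²)/ψ) = e² (u_ss - (1 - u_s²)/u)` with `e² = exp (-(2 K² t))`.
`decu`: `u_t = e ψ (-ricT - K²) ≤ 0`. `decv`: `v_t = e φ (-ricR - K²) ≤ 0`.
-/

namespace RFO

open Set Filter Topology
open scoped ContDiff

private theorem SolF_ds1 {e : ℝ} (he : e ≠ 0) (φ ψ : ℝ → ℝ) :
    ds (fun p => e * φ p) (fun p => e * ψ p) = ds φ ψ := by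
  funext p
  unfold ds
  rw [deriv_const_mul_field, mul_div_mul_left _ _ he]

private theorem SolF_ds2 {e : ℝ} (φ h : ℝ → ℝ) (p : ℝ) :
    ds (fun p => e * φ p) h p = ds φ h p / e := by
  unfold ds
  rw [div_div, mul_comm]

/-- The time derivative of a factor. -/
private theorem SolF_dt {T : ℝ} {W : ℝ → ℝ → ℝ}
    (h : ContDiffOn ℝ ∞ (fun z : ℝ × ℝ => W z.1 z.2) (Ioo 0 T ×ˢ univ)) {t p R : ℝ}
    (ht : t ∈ Ioo 0 T) (hW : 0 < W t p)
    (heq : deriv (fun τ => W τ p ^ 2) t = -2 * (R * W t p ^ 2)) :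
    deriv (fun τ => W τ p) t = -(R * W t p) := by
  have h1 := (Smo_diffAt h p ht).hasDerivAt
  have h2 : deriv (fun τ => W τ p ^ 2) t = 2 * W t p * deriv (fun τ => W τ p) t := by
    have h3 := (h1.pow 2).deriv
    have h4 : deriv (fun τ => W τ p ^ 2) t = ((2 : ℕ) : ℝ) * W t p ^ (2 - 1) *
      deriv (fun τ => W τ p) t := h3
    rw [h4]
    norm_num
  rw [h2] at heq
  have h3 : 2 * W t p ≠ 0 := by positivity
  refine mul_left_cancel₀ h3 ?_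
  rw [heq]
  ring

private theorem SolF_exp {T K : ℝ} {W : ℝ → ℝ → ℝ}
    (h : ContDiffOn ℝ ∞ (fun z : ℝ × ℝ => W z.1 z.2) (Ioo 0 T ×ˢ univ)) {t p : ℝ}
    (ht : t ∈ Ioo 0 T) :
    deriv (fun τ => Real.exp (-(K ^ 2 * τ)) * W τ p) t =
      Real.exp (-(K ^ 2 * t)) * deriv (fun τ => W τ p) t -
        K ^ 2 * (Real.exp (-(K ^ 2 * t)) * W t p) := by
  have h1 := (Smo_diffAt h p ht).hasDerivAt
  have h2 : HasDerivAt (fun τ : ℝ => Real.exp (-(K ^ 2 * τ)))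
      (Real.exp (-(K ^ 2 * t)) * (-(K ^ 2 * 1))) t :=
    (((hasDerivAt_id t).const_mul (K ^ 2)).neg).exp
  have h3 : deriv (fun τ => Real.exp (-(K ^ 2 * τ)) * W τ p) t =
      Real.exp (-(K ^ 2 * t)) * (-(K ^ 2 * 1)) * W t p +
        Real.exp (-(K ^ 2 * t)) * deriv (fun τ => W τ p) t := (h2.mul h1).deriv
  rw [h3]
  ring

private theorem SolF_sm {T K : ℝ} {W : ℝ → ℝ → ℝ}
    (h : ContDiffOn ℝ ∞ (fun z : ℝ × ℝ => W z.1 z.2) (Ioo 0 T ×ˢ univ)) :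
    ContDiffOn ℝ ∞ (fun z : ℝ × ℝ => Real.exp (-(K ^ 2 * z.1)) * W z.1 z.2)
      (Ioo 0 T ×ˢ univ) := by
  refine ContDiffOn.mul ?_ h
  refine ContDiff.contDiffOn ?_
  exact ((contDiff_const.mul contDiff_fst).neg).exp

theorem sol_of_flow {T K : ℝ} {φ ψ : ℝ → ℝ → ℝ} (h : IsRicciFlow T φ ψ) (hr : RicGE T K φ ψ) :
    Sol T (K ^ 2) (fun t p => Real.exp (-(K ^ 2 * t)) * ψ t p)
      (fun t p => Real.exp (-(K ^ 2 * t)) * φ t p) := by
  have hE : ∀ t, 0 < Real.exp (-(K ^ 2 * t)) := fun t => Real.exp_pos _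
  have hE2 : ∀ t, Real.exp (-(2 * K ^ 2 * t)) =
      Real.exp (-(K ^ 2 * t)) * Real.exp (-(K ^ 2 * t)) := fun t => by
    rw [← Real.exp_add]
    congr 1
    ring
  have dψ : ∀ t ∈ Ioo 0 T, ∀ p, deriv (fun τ => ψ τ p) t = -(ricT (φ t) (ψ t) p * ψ t p) :=
    fun t ht p => SolF_dt h.smψ ht (h.posψ t ht p) (h.eqψ t ht p)
  have dφ : ∀ t ∈ Ioo 0 T, ∀ p, deriv (fun τ => φ τ p) t = -(ricR (φ t) (ψ t) p * φ t p) :=
    fun t ht p => SolF_dt h.smφ ht (h.posφ t ht p) (h.eqφ t ht p)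
  refine ⟨SolF_sm h.smψ, SolF_sm h.smφ, fun t ht p => mul_pos (hE t) (h.posψ t ht p),
    fun t ht p => mul_pos (hE t) (h.posφ t ht p), fun t ht p => ?_, fun t ht p => ?_,
    fun t ht p => ?_, fun t ht p => ?_⟩
  · have h1 := h.posψ t ht p
    have h2 := hE t
    show deriv (fun τ => Real.exp (-(K ^ 2 * τ)) * ψ τ p) t = _
    rw [SolF_exp h.smψ ht, dψ t ht p]
    show _ = Real.exp (-(2 * K ^ 2 * t)) *
      (ds (fun p => Real.exp (-(K ^ 2 * t)) * φ t p)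
        (ds (fun p => Real.exp (-(K ^ 2 * t)) * φ t p)
          (fun p => Real.exp (-(K ^ 2 * t)) * ψ t p)) p -
        (1 - ds (fun p => Real.exp (-(K ^ 2 * t)) * φ t p)
          (fun p => Real.exp (-(K ^ 2 * t)) * ψ t p) p ^ 2) /
          (Real.exp (-(K ^ 2 * t)) * ψ t p)) - K ^ 2 * (Real.exp (-(K ^ 2 * t)) * ψ t p)
    rw [SolF_ds1 h2.ne', SolF_ds2, hE2]
    unfold ricT
    field_simp
    ring
  · have h1 := h.posψ t ht p
    have h2 := hE t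
    show deriv (fun τ => Real.exp (-(K ^ 2 * τ)) * φ τ p) t = _
    rw [SolF_exp h.smφ ht, dφ t ht p]
    show _ = 2 * Real.exp (-(2 * K ^ 2 * t)) *
      (ds (fun p => Real.exp (-(K ^ 2 * t)) * φ t p)
        (ds (fun p => Real.exp (-(K ^ 2 * t)) * φ t p)
          (fun p => Real.exp (-(K ^ 2 * t)) * ψ t p)) p /
        (Real.exp (-(K ^ 2 * t)) * ψ t p)) * (Real.exp (-(K ^ 2 * t)) * φ t p) -
          K ^ 2 * (Real.exp (-(K ^ 2 * t)) * φ t p)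
    rw [SolF_ds1 h2.ne', SolF_ds2, hE2]
    unfold ricR
    field_simp
  · show deriv (fun τ => Real.exp (-(K ^ 2 * τ)) * ψ τ p) t ≤ 0
    rw [SolF_exp h.smψ ht, dψ t ht p]
    have h3 := (hr t ht p).2
    have h4 : 0 < Real.exp (-(K ^ 2 * t)) * ψ t p := mul_pos (hE t) (h.posψ t ht p)
    have h5 : 0 ≤ (ricT (φ t) (ψ t) p + K ^ 2) * (Real.exp (-(K ^ 2 * t)) * ψ t p) :=
      mul_nonneg (by linarith) h4.le
    nlinarith [h5]
  · show deriv (fun τ => Real.exp (-(K ^ 2 * τ)) * φ τ p) t ≤ 0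
    rw [SolF_exp h.smφ ht, dφ t ht p]
    have h3 := (hr t ht p).1
    have h4 : 0 < Real.exp (-(K ^ 2 * t)) * φ t p := mul_pos (hE t) (h.posφ t ht p)
    have h5 : 0 ≤ (ricR (φ t) (ψ t) p + K ^ 2) * (Real.exp (-(K ^ 2 * t)) * φ t p) :=
      mul_nonneg (by linarith) h4.le
    nlinarith [h5]

end RFO
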